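import Mathlib
import Pool.Agent.Lib.Pd97.TabBlocks

/-!
# MP_d97cc3_co : table of the family h1
-/

namespace Pd97

open Pool.Agent.Lib.CurP.Table

def fam_h1 : Data where
  k := 3
  nf := ⟨12, 0⟩
  u₀ := 3
  J := 2
  M0 := 3
  cells := [
  ⟨⟨1, 0⟩, 0, [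
    ⟨0, 3, ⟨6, -1⟩, -4, ⟨12, -4⟩, [⟨⟨0, 0⟩, ⟨0, 1⟩, 19, 2, 0, ⟨0, 0⟩, 1, 0⟩, ⟨⟨0, 1⟩, ⟨1, -1⟩, 2, 1, 1, ⟨0, 0⟩, 1, 0⟩]⟩,
    ⟨2, 3, ⟨0, 4⟩, 2, ⟨0, 7⟩, [⟨⟨0, 0⟩, ⟨1, -1⟩, 2, 0, 1, ⟨0, 0⟩, 1, 0⟩, ⟨⟨1, -1⟩, ⟨0, 1⟩, 12, 1, 0, ⟨0, 0⟩, 1, 0⟩]⟩,
    ⟨0, -6, ⟨6, -3⟩, -4, ⟨6, -3⟩, [⟨⟨0, 0⟩, ⟨1, 0⟩, 1, 2, 1, ⟨0, 0⟩, 1, 0⟩]⟩]⟩,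
  ⟨⟨1, 0⟩, 0, [
    ⟨0, -3, ⟨12, -5⟩, -4, ⟨6, -2⟩, [⟨⟨0, 0⟩, ⟨0, 1⟩, 15, 2, 0, ⟨0, 0⟩, 1, 0⟩, ⟨⟨0, 1⟩, ⟨1, -1⟩, 3, 1, 1, ⟨0, 0⟩, 1, 0⟩]⟩,
    ⟨1, -3, ⟨6, 2⟩, 2, ⟨6, 3⟩, [⟨⟨0, 0⟩, ⟨1, -1⟩, 3, 0, 1, ⟨0, 0⟩, 1, 0⟩, ⟨⟨1, -1⟩, ⟨0, 1⟩, 13, 0, 0, ⟨0, 0⟩, 1, 0⟩]⟩,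
    ⟨0, 6, ⟨6, 3⟩, -4, ⟨12, -5⟩, [⟨⟨0, 0⟩, ⟨1, 0⟩, 0, 2, 1, ⟨0, 0⟩, 1, 0⟩]⟩]⟩,
  ⟨⟨1, -1⟩, 0, [
    ⟨0, -3, ⟨12, -4⟩, -4, ⟨6, -4⟩, [⟨⟨0, 0⟩, ⟨1, -1⟩, 0, 1, 1, ⟨0, 0⟩, 1, 0⟩]⟩,
    ⟨2, -3, ⟨6, -2⟩, 2, ⟨0, 8⟩, [⟨⟨0, 0⟩, ⟨1, -1⟩, 0, 0, 1, ⟨0, 1⟩, 1, 0⟩]⟩,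
    ⟨0, 6, ⟨6, 6⟩, -4, ⟨12, -7⟩, [⟨⟨0, 0⟩, ⟨1, -1⟩, 3, 2, 1, ⟨0, 0⟩, 1, 0⟩]⟩]⟩,
  ⟨⟨1, -1⟩, 0, [
    ⟨0, 3, ⟨6, -2⟩, -4, ⟨12, -6⟩, [⟨⟨0, 0⟩, ⟨1, -1⟩, 1, 1, 1, ⟨0, 0⟩, 1, 0⟩]⟩,
    ⟨1, 3, ⟨0, 8⟩, 2, ⟨6, 4⟩, [⟨⟨0, 0⟩, ⟨1, -1⟩, 1, 0, 1, ⟨0, 1⟩, 1, 0⟩]⟩,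
    ⟨0, -6, ⟨6, -6⟩, -4, ⟨6, -5⟩, [⟨⟨0, 0⟩, ⟨1, -1⟩, 2, 2, 1, ⟨0, 0⟩, 1, 0⟩]⟩]⟩,
  ⟨⟨1, -1⟩, 0, [
    ⟨1, -3, ⟨12, -1⟩, -4, ⟨12, -2⟩, [⟨⟨0, 0⟩, ⟨0, 1⟩, 20, 0, 0, ⟨0, 0⟩, 1, 1⟩, ⟨⟨0, 1⟩, ⟨1, -2⟩, 6, 1, 1, ⟨0, 0⟩, 1, 0⟩]⟩,
    ⟨0, -3, ⟨6, -5⟩, 2, ⟨0, 1⟩, [⟨⟨0, 0⟩, ⟨1, -2⟩, 6, 0, 1, ⟨0, 0⟩, 1, 0⟩, ⟨⟨1, -2⟩, ⟨0, 1⟩, 17, 2, 0, ⟨0, 0⟩, 1, 0⟩]⟩,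
    ⟨1, 6, ⟨6, 6⟩, -4, ⟨6, 0⟩, [⟨⟨0, 0⟩, ⟨1, -1⟩, 5, 2, 1, ⟨0, 0⟩, 1, 0⟩]⟩]⟩,
  ⟨⟨1, -1⟩, 0, [
    ⟨1, 3, ⟨6, 1⟩, -4, ⟨6, 1⟩, [⟨⟨0, 0⟩, ⟨0, 1⟩, 15, 1, 0, ⟨0, 0⟩, 1, 0⟩, ⟨⟨0, 1⟩, ⟨1, -2⟩, 7, 1, 1, ⟨0, 0⟩, 1, 0⟩]⟩,
    ⟨2, 3, ⟨0, 5⟩, 2, ⟨10, 0⟩, [⟨⟨0, 0⟩, ⟨1, -2⟩, 7, 0, 1, ⟨0, 0⟩, 1, 0⟩, ⟨⟨1, -2⟩, ⟨0, 1⟩, 22, 0, 0, ⟨0, 0⟩, 1, 0⟩]⟩,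
    ⟨1, -6, ⟨6, -6⟩, -4, ⟨12, -3⟩, [⟨⟨0, 0⟩, ⟨1, -1⟩, 4, 2, 1, ⟨0, 0⟩, 1, 0⟩]⟩]⟩,
  ⟨⟨1, -2⟩, 0, [
    ⟨1, 3, ⟨6, 5⟩, -4, ⟨6, -1⟩, [⟨⟨0, 0⟩, ⟨1, -2⟩, 4, 1, 1, ⟨0, 0⟩, 1, 0⟩]⟩,
    ⟨0, 3, ⟨0, 4⟩, 2, ⟨0, 2⟩, [⟨⟨0, 0⟩, ⟨1, -2⟩, 4, 0, 1, ⟨0, 1⟩, 1, 0⟩]⟩,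
    ⟨1, -6, ⟨6, -9⟩, -4, ⟨12, -5⟩, [⟨⟨0, 0⟩, ⟨1, -2⟩, 7, 2, 1, ⟨0, 0⟩, 1, 0⟩]⟩]⟩,
  ⟨⟨1, -2⟩, 0, [
    ⟨1, -3, ⟨12, -5⟩, -4, ⟨12, -4⟩, [⟨⟨0, 0⟩, ⟨1, -2⟩, 5, 1, 1, ⟨0, 0⟩, 1, 0⟩]⟩,
    ⟨2, -3, ⟨6, -4⟩, 2, ⟨10, 1⟩, [⟨⟨0, 0⟩, ⟨1, -2⟩, 5, 0, 1, ⟨0, 1⟩, 1, 0⟩]⟩,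
    ⟨1, 6, ⟨6, 9⟩, -4, ⟨6, -2⟩, [⟨⟨0, 0⟩, ⟨1, -2⟩, 6, 2, 1, ⟨0, 0⟩, 1, 0⟩]⟩]⟩,
  ⟨⟨1, -1⟩, 0, [
    ⟨2, -3, ⟨12, -4⟩, -4, ⟨6, 2⟩, [⟨⟨0, 0⟩, ⟨0, 1⟩, 21, 0, 0, ⟨0, 0⟩, 1, 0⟩, ⟨⟨0, 1⟩, ⟨1, -2⟩, 10, 1, 1, ⟨0, 0⟩, 1, 0⟩]⟩,
    ⟨1, -3, ⟨6, -2⟩, 2, ⟨0, 3⟩, [⟨⟨0, 0⟩, ⟨1, -2⟩, 10, 0, 1, ⟨0, 0⟩, 1, 0⟩, ⟨⟨1, -2⟩, ⟨0, 1⟩, 24, 2, 0, ⟨0, 0⟩, 1, 0⟩]⟩,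
    ⟨2, 6, ⟨6, 6⟩, -4, ⟨10, -3⟩, [⟨⟨0, 0⟩, ⟨1, -1⟩, 9, 2, 1, ⟨0, 0⟩, 1, 0⟩]⟩]⟩,
  ⟨⟨1, -1⟩, 0, [
    ⟨2, 3, ⟨6, 4⟩, -4, ⟨10, -2⟩, [⟨⟨0, 0⟩, ⟨0, 1⟩, 15, 0, 0, ⟨0, 0⟩, 1, 0⟩, ⟨⟨0, 1⟩, ⟨1, -2⟩, 11, 1, 1, ⟨0, 0⟩, 1, 0⟩]⟩,
    ⟨0, 3, ⟨0, 2⟩, 2, ⟨6, 0⟩, [⟨⟨0, 0⟩, ⟨1, -2⟩, 11, 0, 1, ⟨0, 0⟩, 1, 0⟩, ⟨⟨1, -2⟩, ⟨0, 1⟩, 18, 2, 0, ⟨0, 0⟩, 1, 0⟩]⟩,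
    ⟨2, -6, ⟨6, -6⟩, -4, ⟨6, 1⟩, [⟨⟨0, 0⟩, ⟨1, -1⟩, 8, 2, 1, ⟨0, 0⟩, 1, 0⟩]⟩]⟩,
  ⟨⟨1, -2⟩, 0, [
    ⟨2, 3, ⟨6, 2⟩, -4, ⟨10, -4⟩, [⟨⟨0, 0⟩, ⟨1, -2⟩, 8, 1, 1, ⟨0, 0⟩, 1, 0⟩]⟩,
    ⟨1, 3, ⟨0, 7⟩, 2, ⟨0, 4⟩, [⟨⟨0, 0⟩, ⟨1, -2⟩, 8, 0, 1, ⟨0, 1⟩, 1, 0⟩]⟩,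
    ⟨2, -6, ⟨6, -9⟩, -4, ⟨6, -1⟩, [⟨⟨0, 0⟩, ⟨1, -2⟩, 11, 2, 1, ⟨0, 0⟩, 1, 0⟩]⟩]⟩,
  ⟨⟨1, -2⟩, 0, [
    ⟨2, -3, ⟨12, -2⟩, -4, ⟨6, 0⟩, [⟨⟨0, 0⟩, ⟨1, -2⟩, 9, 1, 1, ⟨0, 0⟩, 1, 0⟩]⟩,
    ⟨0, -3, ⟨6, -7⟩, 2, ⟨6, 1⟩, [⟨⟨0, 0⟩, ⟨1, -2⟩, 9, 0, 1, ⟨0, 1⟩, 1, 0⟩]⟩,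
    ⟨2, 6, ⟨6, 9⟩, -4, ⟨10, -5⟩, [⟨⟨0, 0⟩, ⟨1, -2⟩, 10, 2, 1, ⟨0, 0⟩, 1, 0⟩]⟩]⟩,
  ⟨⟨0, 1⟩, 0, [
    ⟨0, 0, ⟨6, 0⟩, 0, ⟨2, -1⟩, [⟨⟨0, 0⟩, ⟨0, 1⟩, 12, 0, 0, ⟨0, 0⟩, 1, 0⟩]⟩,
    ⟨0, 0, ⟨9, -1⟩, 0, ⟨2, 0⟩, [⟨⟨0, 0⟩, ⟨0, 1⟩, 0, 1, 0, ⟨1, -1⟩, 1, 0⟩]⟩,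
    ⟨2, 0, ⟨9, 1⟩, 0, ⟨2, 6⟩, [⟨⟨0, 0⟩, ⟨0, 1⟩, 17, 0, 0, ⟨0, 0⟩, 1, 0⟩]⟩]⟩,
  ⟨⟨0, 1⟩, 0, [
    ⟨0, 0, ⟨9, -5⟩, 0, ⟨8, -2⟩, [⟨⟨0, 0⟩, ⟨0, 1⟩, 1, 1, 0, ⟨1, -1⟩, 1, 0⟩]⟩,
    ⟨1, 0, ⟨6, 3⟩, 0, ⟨8, 2⟩, [⟨⟨0, 0⟩, ⟨0, 1⟩, 25, 2, 0, ⟨0, 0⟩, 1, 0⟩]⟩,
    ⟨1, 0, ⟨9, 2⟩, 0, ⟨2, 5⟩, [⟨⟨0, 0⟩, ⟨0, 1⟩, 18, 0, 0, ⟨0, 0⟩, 1, 0⟩]⟩]⟩,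
  ⟨⟨0, 1⟩, 0, [
    ⟨1, 0, ⟨9, -2⟩, 0, ⟨2, 1⟩, [⟨⟨0, 0⟩, ⟨0, 1⟩, 22, 1, 0, ⟨0, 0⟩, 1, 0⟩]⟩,
    ⟨2, 0, ⟨6, 3⟩, 0, ⟨12, -2⟩, [⟨⟨0, 0⟩, ⟨0, 1⟩, 23, 0, 0, ⟨0, 0⟩, 1, 1⟩]⟩,
    ⟨2, 0, ⟨9, -1⟩, 0, ⟨0, 1⟩, [⟨⟨0, 0⟩, ⟨0, 1⟩, 24, 0, 0, ⟨0, 0⟩, 1, 0⟩]⟩]⟩,
  ⟨⟨0, 1⟩, 0, [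
    ⟨0, 0, ⟨6, -4⟩, 0, ⟨6, -1⟩, [⟨⟨0, 0⟩, ⟨0, 1⟩, 9, 0, 0, ⟨0, 0⟩, 1, 0⟩]⟩,
    ⟨2, 0, ⟨6, -1⟩, 0, ⟨10, -1⟩, [⟨⟨0, 0⟩, ⟨0, 1⟩, 5, 0, 0, ⟨0, 0⟩, 1, 0⟩]⟩,
    ⟨1, 0, ⟨0, 5⟩, 0, ⟨6, 2⟩, [⟨⟨0, 0⟩, ⟨0, 1⟩, 1, 0, 0, ⟨0, 0⟩, 1, 0⟩]⟩]⟩,
  ⟨⟨0, 1⟩, 0, [
    ⟨0, 0, ⟨12, -2⟩, 0, ⟨12, -2⟩, [⟨⟨0, 0⟩, ⟨0, 1⟩, 20, 1, 0, ⟨0, 0⟩, 1, 1⟩]⟩,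
    ⟨1, 0, ⟨0, 1⟩, 0, ⟨0, 1⟩, [⟨⟨0, 0⟩, ⟨0, 1⟩, 21, 2, 0, ⟨0, 0⟩, 1, 0⟩]⟩,
    ⟨2, 0, ⟨0, 1⟩, 0, ⟨0, 4⟩, [⟨⟨0, 0⟩, ⟨0, 1⟩, 19, 0, 0, ⟨0, 0⟩, 1, 0⟩]⟩]⟩,
  ⟨⟨0, 1⟩, 0, [
    ⟨0, 0, ⟨3, -1⟩, 0, ⟨2, -2⟩, [⟨⟨0, 0⟩, ⟨0, 1⟩, 12, 2, 0, ⟨0, 0⟩, 1, 0⟩]⟩,
    ⟨2, 0, ⟨0, 2⟩, 0, ⟨2, 7⟩, [⟨⟨0, 0⟩, ⟨0, 1⟩, 18, 1, 0, ⟨0, 0⟩, 1, 0⟩]⟩,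
    ⟨1, 0, ⟨9, -1⟩, 0, ⟨2, 7⟩, [⟨⟨0, 0⟩, ⟨0, 1⟩, 4, 1, 0, ⟨1, -2⟩, 1, 0⟩]⟩]⟩,
  ⟨⟨0, 1⟩, 0, [
    ⟨0, 0, ⟨3, -2⟩, 0, ⟨8, -3⟩, [⟨⟨0, 0⟩, ⟨0, 1⟩, 13, 2, 0, ⟨0, 0⟩, 1, 0⟩]⟩,
    ⟨1, 0, ⟨12, -2⟩, 0, ⟨2, 6⟩, [⟨⟨0, 0⟩, ⟨0, 1⟩, 17, 1, 0, ⟨0, 0⟩, 1, 0⟩]⟩,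
    ⟨2, 0, ⟨9, 4⟩, 0, ⟨2, 8⟩, [⟨⟨0, 0⟩, ⟨0, 1⟩, 9, 1, 0, ⟨1, -2⟩, 1, 0⟩]⟩]⟩,
  ⟨⟨0, 1⟩, 0, [
    ⟨0, 0, ⟨12, -1⟩, 0, ⟨12, -3⟩, [⟨⟨0, 0⟩, ⟨0, 1⟩, 16, 2, 0, ⟨0, 0⟩, 1, 0⟩]⟩,
    ⟨2, 0, ⟨6, 0⟩, 0, ⟨0, 5⟩, [⟨⟨0, 0⟩, ⟨0, 1⟩, 19, 1, 0, ⟨0, 0⟩, 1, 0⟩]⟩,
    ⟨2, 0, ⟨6, 1⟩, 0, ⟨0, 6⟩, [⟨⟨0, 0⟩, ⟨0, 1⟩, 0, 0, 0, ⟨0, 0⟩, 1, 0⟩]⟩]⟩,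
  ⟨⟨0, 1⟩, 1, [
    ⟨0, 0, ⟨0, 1⟩, 0, ⟨0, 0⟩, [⟨⟨0, 0⟩, ⟨0, 1⟩, 4, 0, 0, ⟨0, 0⟩, 1, 0⟩]⟩,
    ⟨1, 0, ⟨0, 2⟩, 0, ⟨0, 0⟩, [⟨⟨0, 0⟩, ⟨0, 1⟩, 16, 0, 0, ⟨0, 0⟩, 1, 0⟩]⟩]⟩,
  ⟨⟨0, 1⟩, 0, [
    ⟨1, 0, ⟨0, 4⟩, 0, ⟨0, 2⟩, [⟨⟨0, 0⟩, ⟨0, 1⟩, 8, 0, 0, ⟨0, 0⟩, 1, 0⟩]⟩,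
    ⟨2, 0, ⟨12, -3⟩, 0, ⟨6, 3⟩, [⟨⟨0, 0⟩, ⟨0, 1⟩, 24, 1, 0, ⟨0, 0⟩, 1, 0⟩]⟩,
    ⟨2, 0, ⟨12, -1⟩, 0, ⟨0, 3⟩, [⟨⟨0, 0⟩, ⟨0, 1⟩, 16, 1, 0, ⟨0, 0⟩, 1, 0⟩]⟩]⟩,
  ⟨⟨0, 1⟩, 0, [
    ⟨1, 0, ⟨9, 1⟩, 0, ⟨8, 4⟩, [⟨⟨0, 0⟩, ⟨0, 1⟩, 5, 1, 0, ⟨1, -2⟩, 1, 0⟩]⟩,
    ⟨2, 0, ⟨3, 2⟩, 0, ⟨12, -3⟩, [⟨⟨0, 0⟩, ⟨0, 1⟩, 14, 0, 0, ⟨0, 0⟩, 1, 0⟩]⟩,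
    ⟨1, 0, ⟨12, -3⟩, 0, ⟨2, 2⟩, [⟨⟨0, 0⟩, ⟨0, 1⟩, 25, 0, 0, ⟨0, 0⟩, 1, 0⟩]⟩]⟩,
  ⟨⟨0, 1⟩, 2, [
    ⟨2, 0, ⟨6, -3⟩, 0, ⟨0, 0⟩, [⟨⟨0, 0⟩, ⟨0, 1⟩, 14, 1, 0, ⟨0, 0⟩, 1, 0⟩]⟩]⟩,
  ⟨⟨0, 1⟩, 0, [
    ⟨1, 0, ⟨3, 1⟩, 0, ⟨2, 0⟩, [⟨⟨0, 0⟩, ⟨0, 1⟩, 14, 2, 0, ⟨0, 0⟩, 1, 0⟩]⟩,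
    ⟨2, 0, ⟨0, 3⟩, 0, ⟨0, 2⟩, [⟨⟨0, 0⟩, ⟨0, 1⟩, 21, 1, 0, ⟨0, 0⟩, 1, 0⟩]⟩,
    ⟨2, 0, ⟨9, -4⟩, 0, ⟨6, 4⟩, [⟨⟨0, 0⟩, ⟨0, 1⟩, 8, 1, 0, ⟨1, -2⟩, 1, 0⟩]⟩]⟩,
  ⟨⟨0, 1⟩, 0, [
    ⟨1, 0, ⟨0, 3⟩, 0, ⟨8, 3⟩, [⟨⟨0, 0⟩, ⟨0, 1⟩, 22, 2, 0, ⟨0, 0⟩, 1, 0⟩]⟩,
    ⟨1, 0, ⟨6, 0⟩, 0, ⟨2, 3⟩, [⟨⟨0, 0⟩, ⟨0, 1⟩, 25, 1, 0, ⟨0, 0⟩, 1, 0⟩]⟩,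
    ⟨1, 0, ⟨6, -3⟩, 0, ⟨2, 4⟩, [⟨⟨0, 0⟩, ⟨0, 1⟩, 13, 1, 0, ⟨0, 0⟩, 1, 0⟩]⟩]⟩]
  tracks := [
  [⟨⟨0, 1⟩, ⟨12, 0⟩, 6, [
      ⟨6, ⟨0, 3⟩, ⟨12, 3⟩, [(0, 2), (1, 2)]⟩,
      ⟨6, ⟨0, 6⟩, ⟨12, 0⟩, [(3, 2), (12, 0), (2, 2)]⟩]⟩],
  [⟨⟨0, 1⟩, ⟨12, 0⟩, 3, [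
      ⟨3, ⟨0, 1⟩, ⟨12, 1⟩, [(20, 0), (6, 1), (18, 0), (4, 1), (3, 0), (13, 0), (1, 0), (16, 0)]⟩]⟩],
  [⟨⟨0, 1⟩, ⟨12, 0⟩, 3, [
      ⟨3, ⟨0, 2⟩, ⟨12, 2⟩, [(9, 1), (17, 0), (11, 1), (15, 0), (0, 0), (12, 1), (2, 0), (19, 0)]⟩]⟩],
  [⟨⟨0, 1⟩, ⟨12, 0⟩, 6, [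
      ⟨6, ⟨0, 3⟩, ⟨12, 3⟩, [(25, 0), (6, 2), (25, 2), (13, 1), (7, 2), (22, 2)]⟩,
      ⟨6, ⟨0, 6⟩, ⟨12, 0⟩, [(5, 2), (25, 1), (4, 2)]⟩]⟩],
  [⟨⟨0, 1⟩, ⟨12, 0⟩, 3, [
      ⟨3, ⟨0, 1⟩, ⟨12, 1⟩, [(16, 1), (21, 0), (10, 1), (24, 0), (8, 1), (5, 0), (14, 0), (22, 0), (7, 0), (18, 1)]⟩]⟩],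
  [⟨⟨0, 1⟩, ⟨12, 0⟩, 3, [
      ⟨3, ⟨0, 2⟩, ⟨12, 2⟩, [(20, 1), (15, 2), (3, 1), (1, 1), (6, 0), (17, 2), (13, 2), (4, 0)]⟩]⟩],
  [⟨⟨0, 1⟩, ⟨12, 0⟩, 6, [
      ⟨6, ⟨0, 3⟩, ⟨12, 3⟩, [(24, 1), (10, 2), (23, 0), (14, 1), (11, 2), (21, 1)]⟩,
      ⟨6, ⟨0, 6⟩, ⟨12, 0⟩, [(9, 2), (19, 1), (8, 2)]⟩]⟩],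
  [⟨⟨0, 1⟩, ⟨12, 0⟩, 3, [
      ⟨3, ⟨0, 1⟩, ⟨12, 1⟩, [(16, 2), (0, 1), (2, 1), (19, 2), (9, 0), (12, 2), (18, 2), (11, 0)]⟩]⟩],
  [⟨⟨0, 1⟩, ⟨12, 0⟩, 3, [
      ⟨3, ⟨0, 2⟩, ⟨12, 2⟩, [(17, 1), (5, 1), (22, 1), (7, 1), (15, 1), (10, 0), (24, 2), (14, 2), (8, 0), (21, 2)]⟩]⟩]]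
  vorts := [
  ⟨20, ⟨0, 3⟩, ⟨0, 1⟩, ⟨0, 0⟩⟩,
  ⟨23, ⟨6, -3⟩, ⟨2, -1⟩, ⟨-1, 1⟩⟩]

theorem fam_h1_ok : fam_h1.OK := by decide +kernel

theorem fam_h1_block {u : ℤ} (hu : 3 ≤ u) {N : ℕ} (hN : (N : ℤ) = 12 * u + 0) :
    HBlock (N + 1) :=
  hblock_of_table fam_h1_ok rfl (by decide +kernel) (by decide +kernel) (by decide +kernel) hu hN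

end Pd97
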