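import Mathlib
import Pool.Agent.Lib.Pd97.TabBlocks

/-!
# MP_d97cc3_co : table of the family h9o
-/

namespace Pd97

open Pool.Agent.Lib.CurP.Table

def fam_h9o : Data where
  k := 2
  nf := ⟨24, 20⟩
  u₀ := 1
  J := 2
  M0 := 6
  cells := [
  ⟨⟨1, 1⟩, 0, [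
    ⟨1, 6, ⟨12, 9⟩, -6, ⟨24, 17⟩, [⟨⟨0, 0⟩, ⟨0, 1⟩, 20, 0, 0, ⟨0, 0⟩, 1, 0⟩, ⟨⟨0, 1⟩, ⟨1, 0⟩, 6, 1, 1, ⟨0, 0⟩, 1, 0⟩]⟩,
    ⟨0, -12, ⟨12, 6⟩, 6, ⟨18, 14⟩, [⟨⟨0, 0⟩, ⟨1, 1⟩, 1, 1, 1, ⟨0, 0⟩, 1, 0⟩]⟩,
    ⟨0, 6, ⟨0, 5⟩, 6, ⟨6, 7⟩, [⟨⟨0, 0⟩, ⟨1, 1⟩, 2, 0, 1, ⟨0, 0⟩, 1, 0⟩]⟩]⟩,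
  ⟨⟨1, 1⟩, 0, [
    ⟨0, -6, ⟨12, 10⟩, -6, ⟨6, 5⟩, [⟨⟨0, 0⟩, ⟨0, 1⟩, 1, 0, 0, ⟨0, 0⟩, 1, 0⟩, ⟨⟨0, 1⟩, ⟨1, 0⟩, 7, 1, 1, ⟨0, 0⟩, 1, 0⟩]⟩,
    ⟨0, 12, ⟨12, 14⟩, 6, ⟨6, 6⟩, [⟨⟨0, 0⟩, ⟨1, 1⟩, 0, 1, 1, ⟨0, 0⟩, 1, 0⟩]⟩,
    ⟨0, -6, ⟨24, 16⟩, 6, ⟨18, 15⟩, [⟨⟨0, 0⟩, ⟨1, 1⟩, 3, 0, 1, ⟨0, 0⟩, 1, 0⟩]⟩]⟩,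
  ⟨⟨1, 1⟩, 0, [
    ⟨1, -6, ⟨24, 15⟩, -6, ⟨24, 16⟩, [⟨⟨0, 0⟩, ⟨1, 1⟩, 0, 2, 1, ⟨0, 0⟩, 1, 0⟩]⟩,
    ⟨0, -6, ⟨12, 8⟩, 6, ⟨6, 8⟩, [⟨⟨0, 0⟩, ⟨1, 0⟩, 4, 0, 1, ⟨0, 0⟩, 1, 0⟩, ⟨⟨1, 0⟩, ⟨0, 1⟩, 18, 2, 0, ⟨0, 0⟩, 1, 0⟩]⟩,
    ⟨0, 12, ⟨12, 17⟩, -6, ⟨6, 3⟩, [⟨⟨0, 0⟩, ⟨1, 1⟩, 3, 2, 1, ⟨0, 0⟩, 1, 0⟩]⟩]⟩,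
  ⟨⟨1, 1⟩, 0, [
    ⟨0, 6, ⟨0, 4⟩, -6, ⟨6, 4⟩, [⟨⟨0, 0⟩, ⟨1, 1⟩, 1, 2, 1, ⟨0, 0⟩, 1, 0⟩]⟩,
    ⟨0, 6, ⟨12, 13⟩, 6, ⟨18, 16⟩, [⟨⟨0, 0⟩, ⟨1, 0⟩, 5, 0, 1, ⟨0, 0⟩, 1, 0⟩, ⟨⟨1, 0⟩, ⟨0, 1⟩, 19, 2, 0, ⟨0, 0⟩, 1, 0⟩]⟩,
    ⟨1, -12, ⟨12, 3⟩, -6, ⟨24, 15⟩, [⟨⟨0, 0⟩, ⟨1, 1⟩, 2, 2, 1, ⟨0, 0⟩, 1, 0⟩]⟩]⟩,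
  ⟨⟨1, 0⟩, 0, [
    ⟨0, 6, ⟨12, 12⟩, -6, ⟨6, 2⟩, [⟨⟨0, 0⟩, ⟨1, 0⟩, 2, 1, 1, ⟨0, 0⟩, 1, 0⟩]⟩,
    ⟨0, -12, ⟨12, 0⟩, 6, ⟨6, 9⟩, [⟨⟨0, 0⟩, ⟨1, 0⟩, 5, 1, 1, ⟨0, 0⟩, 1, 0⟩]⟩,
    ⟨0, 6, ⟨0, 8⟩, 6, ⟨18, 18⟩, [⟨⟨0, 0⟩, ⟨1, 0⟩, 6, 0, 1, ⟨0, 0⟩, 1, 0⟩]⟩]⟩,
  ⟨⟨1, 0⟩, 0, [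
    ⟨1, -6, ⟨12, 7⟩, -6, ⟨24, 14⟩, [⟨⟨0, 0⟩, ⟨1, 0⟩, 3, 1, 1, ⟨0, 0⟩, 1, 0⟩]⟩,
    ⟨0, 12, ⟨12, 20⟩, 6, ⟨18, 17⟩, [⟨⟨0, 0⟩, ⟨1, 0⟩, 4, 1, 1, ⟨0, 0⟩, 1, 0⟩]⟩,
    ⟨0, -6, ⟨24, 13⟩, 6, ⟨6, 10⟩, [⟨⟨0, 0⟩, ⟨1, 0⟩, 7, 0, 1, ⟨0, 0⟩, 1, 0⟩]⟩]⟩,
  ⟨⟨1, 0⟩, 0, [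
    ⟨0, -6, ⟨24, 12⟩, -6, ⟨6, 1⟩, [⟨⟨0, 0⟩, ⟨1, 0⟩, 4, 2, 1, ⟨0, 0⟩, 1, 0⟩]⟩,
    ⟨0, -6, ⟨12, 5⟩, 6, ⟨18, 19⟩, [⟨⟨0, 0⟩, ⟨1, 0⟩, 0, 0, 1, ⟨0, 1⟩, 1, 0⟩]⟩,
    ⟨1, 12, ⟨12, 23⟩, -6, ⟨24, 12⟩, [⟨⟨0, 0⟩, ⟨1, 0⟩, 7, 2, 1, ⟨0, 0⟩, 1, 0⟩]⟩]⟩,
  ⟨⟨1, 0⟩, 0, [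
    ⟨1, 6, ⟨0, 7⟩, -6, ⟨24, 13⟩, [⟨⟨0, 0⟩, ⟨1, 0⟩, 5, 2, 1, ⟨0, 0⟩, 1, 0⟩]⟩,
    ⟨0, 6, ⟨12, 16⟩, 6, ⟨6, 11⟩, [⟨⟨0, 0⟩, ⟨1, 0⟩, 1, 0, 1, ⟨0, 1⟩, 1, 0⟩]⟩,
    ⟨0, -12, ⟨12, -3⟩, -6, ⟨6, 0⟩, [⟨⟨0, 0⟩, ⟨1, 0⟩, 6, 2, 1, ⟨0, 0⟩, 1, 0⟩]⟩]⟩,
  ⟨⟨1, 1⟩, 0, [
    ⟨0, 6, ⟨12, 9⟩, -6, ⟨18, 12⟩, [⟨⟨0, 0⟩, ⟨0, 1⟩, 20, 2, 0, ⟨0, 0⟩, 1, 0⟩, ⟨⟨0, 1⟩, ⟨1, 0⟩, 14, 1, 1, ⟨0, 0⟩, 1, 0⟩]⟩,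
    ⟨1, -12, ⟨12, 6⟩, 6, ⟨0, 2⟩, [⟨⟨0, 0⟩, ⟨1, 1⟩, 9, 1, 1, ⟨0, 0⟩, 1, 0⟩]⟩,
    ⟨1, 6, ⟨0, 5⟩, 6, ⟨12, 12⟩, [⟨⟨0, 0⟩, ⟨1, 1⟩, 10, 0, 1, ⟨0, 0⟩, 1, 0⟩]⟩]⟩,
  ⟨⟨1, 1⟩, 0, [
    ⟨1, -6, ⟨12, 10⟩, -6, ⟨12, 10⟩, [⟨⟨0, 0⟩, ⟨0, 1⟩, 9, 0, 0, ⟨0, 0⟩, 1, 0⟩, ⟨⟨0, 1⟩, ⟨1, 0⟩, 15, 1, 1, ⟨0, 0⟩, 1, 0⟩]⟩,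
    ⟨1, 12, ⟨12, 14⟩, 6, ⟨12, 11⟩, [⟨⟨0, 0⟩, ⟨1, 1⟩, 8, 1, 1, ⟨0, 0⟩, 1, 0⟩]⟩,
    ⟨1, -6, ⟨24, 16⟩, 6, ⟨0, 3⟩, [⟨⟨0, 0⟩, ⟨1, 1⟩, 11, 0, 1, ⟨0, 0⟩, 1, 0⟩]⟩]⟩,
  ⟨⟨1, 1⟩, 0, [
    ⟨0, -6, ⟨24, 15⟩, -6, ⟨18, 11⟩, [⟨⟨0, 0⟩, ⟨1, 1⟩, 8, 2, 1, ⟨0, 0⟩, 1, 0⟩]⟩,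
    ⟨1, -6, ⟨12, 8⟩, 6, ⟨12, 13⟩, [⟨⟨0, 0⟩, ⟨1, 0⟩, 12, 0, 1, ⟨0, 0⟩, 1, 0⟩, ⟨⟨1, 0⟩, ⟨0, 1⟩, 19, 1, 0, ⟨0, 0⟩, 1, 0⟩]⟩,
    ⟨1, 12, ⟨12, 17⟩, -6, ⟨12, 8⟩, [⟨⟨0, 0⟩, ⟨1, 1⟩, 11, 2, 1, ⟨0, 0⟩, 1, 0⟩]⟩]⟩,
  ⟨⟨1, 1⟩, 0, [
    ⟨1, 6, ⟨0, 4⟩, -6, ⟨12, 9⟩, [⟨⟨0, 0⟩, ⟨1, 1⟩, 9, 2, 1, ⟨0, 0⟩, 1, 0⟩]⟩,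
    ⟨1, 6, ⟨12, 13⟩, 6, ⟨0, 4⟩, [⟨⟨0, 0⟩, ⟨1, 0⟩, 13, 0, 1, ⟨0, 0⟩, 1, 0⟩, ⟨⟨1, 0⟩, ⟨0, 1⟩, 18, 0, 0, ⟨0, 0⟩, 1, 0⟩]⟩,
    ⟨0, -12, ⟨12, 3⟩, -6, ⟨18, 10⟩, [⟨⟨0, 0⟩, ⟨1, 1⟩, 10, 2, 1, ⟨0, 0⟩, 1, 0⟩]⟩]⟩,
  ⟨⟨1, 0⟩, 0, [
    ⟨1, 6, ⟨12, 12⟩, -6, ⟨12, 7⟩, [⟨⟨0, 0⟩, ⟨1, 0⟩, 10, 1, 1, ⟨0, 0⟩, 1, 0⟩]⟩,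
    ⟨1, -12, ⟨12, 0⟩, 6, ⟨12, 14⟩, [⟨⟨0, 0⟩, ⟨1, 0⟩, 13, 1, 1, ⟨0, 0⟩, 1, 0⟩]⟩,
    ⟨1, 6, ⟨0, 8⟩, 6, ⟨0, 6⟩, [⟨⟨0, 0⟩, ⟨1, 0⟩, 14, 0, 1, ⟨0, 0⟩, 1, 0⟩]⟩]⟩,
  ⟨⟨1, 0⟩, 0, [
    ⟨0, -6, ⟨12, 7⟩, -6, ⟨18, 9⟩, [⟨⟨0, 0⟩, ⟨1, 0⟩, 11, 1, 1, ⟨0, 0⟩, 1, 0⟩]⟩,
    ⟨1, 12, ⟨12, 20⟩, 6, ⟨0, 5⟩, [⟨⟨0, 0⟩, ⟨1, 0⟩, 12, 1, 1, ⟨0, 0⟩, 1, 0⟩]⟩,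
    ⟨1, -6, ⟨24, 13⟩, 6, ⟨12, 15⟩, [⟨⟨0, 0⟩, ⟨1, 0⟩, 15, 0, 1, ⟨0, 0⟩, 1, 0⟩]⟩]⟩,
  ⟨⟨1, 0⟩, 0, [
    ⟨1, -6, ⟨24, 12⟩, -6, ⟨12, 6⟩, [⟨⟨0, 0⟩, ⟨1, 0⟩, 12, 2, 1, ⟨0, 0⟩, 1, 0⟩]⟩,
    ⟨1, -6, ⟨12, 5⟩, 6, ⟨0, 7⟩, [⟨⟨0, 0⟩, ⟨1, 0⟩, 8, 0, 1, ⟨0, 1⟩, 1, 0⟩]⟩,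
    ⟨0, 12, ⟨12, 23⟩, -6, ⟨18, 7⟩, [⟨⟨0, 0⟩, ⟨1, 0⟩, 15, 2, 1, ⟨0, 0⟩, 1, 0⟩]⟩]⟩,
  ⟨⟨1, 0⟩, 0, [
    ⟨0, 6, ⟨0, 7⟩, -6, ⟨18, 8⟩, [⟨⟨0, 0⟩, ⟨1, 0⟩, 13, 2, 1, ⟨0, 0⟩, 1, 0⟩]⟩,
    ⟨1, 6, ⟨12, 16⟩, 6, ⟨12, 16⟩, [⟨⟨0, 0⟩, ⟨1, 0⟩, 9, 0, 1, ⟨0, 1⟩, 1, 0⟩]⟩,
    ⟨1, -12, ⟨12, -3⟩, -6, ⟨12, 5⟩, [⟨⟨0, 0⟩, ⟨1, 0⟩, 14, 2, 1, ⟨0, 0⟩, 1, 0⟩]⟩]⟩,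
  ⟨⟨0, 1⟩, 0, [
    ⟨0, 0, ⟨0, 2⟩, 0, ⟨24, 18⟩, [⟨⟨0, 0⟩, ⟨0, 1⟩, 21, 0, 0, ⟨0, 0⟩, 1, 1⟩]⟩,
    ⟨0, 0, ⟨24, 19⟩, 0, ⟨0, 1⟩, [⟨⟨0, 0⟩, ⟨0, 1⟩, 18, 1, 0, ⟨0, 0⟩, 1, 0⟩]⟩,
    ⟨1, 0, ⟨24, 19⟩, 0, ⟨6, 6⟩, [⟨⟨0, 0⟩, ⟨0, 1⟩, 19, 0, 0, ⟨0, 0⟩, 1, 0⟩]⟩]⟩,
  ⟨⟨0, 1⟩, 2, [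
    ⟨1, 0, ⟨0, 2⟩, 0, ⟨0, 0⟩, [⟨⟨0, 0⟩, ⟨0, 1⟩, 20, 1, 0, ⟨0, 0⟩, 1, 0⟩]⟩]⟩,
  ⟨⟨0, 1⟩, 0, [
    ⟨0, 0, ⟨6, 7⟩, 0, ⟨12, 9⟩, [⟨⟨0, 0⟩, ⟨0, 1⟩, 11, 1, 0, ⟨1, 0⟩, 1, 0⟩]⟩,
    ⟨1, 0, ⟨0, 1⟩, 0, ⟨6, 5⟩, [⟨⟨0, 0⟩, ⟨0, 1⟩, 16, 1, 0, ⟨0, 0⟩, 1, 0⟩]⟩,
    ⟨0, 0, ⟨18, 12⟩, 0, ⟨0, 2⟩, [⟨⟨0, 0⟩, ⟨0, 1⟩, 2, 1, 0, ⟨1, 0⟩, 1, 0⟩]⟩]⟩,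
  ⟨⟨0, 1⟩, 0, [
    ⟨0, 0, ⟨0, 1⟩, 0, ⟨24, 17⟩, [⟨⟨0, 0⟩, ⟨0, 1⟩, 16, 2, 0, ⟨0, 0⟩, 1, 0⟩]⟩,
    ⟨1, 0, ⟨18, 12⟩, 0, ⟨6, 7⟩, [⟨⟨0, 0⟩, ⟨0, 1⟩, 10, 1, 0, ⟨1, 0⟩, 1, 0⟩]⟩,
    ⟨1, 0, ⟨6, 7⟩, 0, ⟨18, 14⟩, [⟨⟨0, 0⟩, ⟨0, 1⟩, 3, 1, 0, ⟨1, 0⟩, 1, 0⟩]⟩]⟩,
  ⟨⟨0, 1⟩, 0, [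
    ⟨0, 0, ⟨12, 11⟩, 0, ⟨18, 13⟩, [⟨⟨0, 0⟩, ⟨0, 1⟩, 0, 0, 0, ⟨0, 0⟩, 1, 0⟩]⟩,
    ⟨1, 0, ⟨24, 18⟩, 0, ⟨24, 18⟩, [⟨⟨0, 0⟩, ⟨0, 1⟩, 17, 0, 0, ⟨0, 0⟩, 1, 1⟩]⟩,
    ⟨1, 0, ⟨12, 11⟩, 0, ⟨0, 1⟩, [⟨⟨0, 0⟩, ⟨0, 1⟩, 8, 0, 0, ⟨0, 0⟩, 1, 0⟩]⟩]⟩,
  ⟨⟨0, 1⟩, 1, [
    ⟨0, 0, ⟨24, 18⟩, 0, ⟨0, 0⟩, [⟨⟨0, 0⟩, ⟨0, 1⟩, 16, 0, 0, ⟨0, 0⟩, 1, 0⟩]⟩]⟩]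
  tracks := [
  [⟨⟨0, 1⟩, ⟨12, 12⟩, 12, [
      ⟨12, ⟨0, 6⟩, ⟨12, 18⟩, [(0, 1)]⟩,
      ⟨12, ⟨0, 12⟩, ⟨12, 12⟩, [(4, 1)]⟩]⟩,
    ⟨⟨12, 12⟩, ⟨24, 20⟩, 12, [
      ⟨6, ⟨12, 12⟩, ⟨24, 24⟩, [(4, 0), (18, 2), (6, 0), (21, 0)]⟩]⟩],
  [⟨⟨0, 1⟩, ⟨24, 20⟩, 6, [
      ⟨6, ⟨0, 1⟩, ⟨24, 25⟩, [(19, 0), (15, 0), (18, 0), (13, 0), (3, 1), (5, 2), (16, 1)]⟩]⟩],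
  [⟨⟨0, 1⟩, ⟨12, 14⟩, 12, [
      ⟨6, ⟨0, 2⟩, ⟨12, 14⟩, [(16, 0), (4, 2), (2, 1)]⟩]⟩,
    ⟨⟨12, 14⟩, ⟨24, 20⟩, 12, [
      ⟨12, ⟨12, 14⟩, ⟨24, 26⟩, [(1, 1)]⟩,
      ⟨12, ⟨12, 20⟩, ⟨24, 20⟩, [(5, 1)]⟩]⟩],
  [⟨⟨0, 1⟩, ⟨12, 9⟩, 12, [
      ⟨12, ⟨0, 3⟩, ⟨12, 15⟩, [(11, 2)]⟩,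
      ⟨12, ⟨0, 9⟩, ⟨12, 9⟩, [(7, 2)]⟩]⟩,
    ⟨⟨12, 9⟩, ⟨24, 20⟩, 12, [
      ⟨6, ⟨12, 9⟩, ⟨24, 21⟩, [(8, 0), (10, 0)]⟩]⟩],
  [⟨⟨0, 1⟩, ⟨24, 20⟩, 6, [
      ⟨6, ⟨0, 4⟩, ⟨24, 22⟩, [(3, 0), (1, 0), (7, 1), (1, 2)]⟩]⟩],
  [⟨⟨0, 1⟩, ⟨12, 17⟩, 12, [
      ⟨6, ⟨0, 5⟩, ⟨12, 17⟩, [(0, 2), (6, 1), (20, 0)]⟩]⟩,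
    ⟨⟨12, 17⟩, ⟨24, 20⟩, 12, [
      ⟨12, ⟨12, 17⟩, ⟨24, 29⟩, [(2, 2)]⟩,
      ⟨12, ⟨12, 23⟩, ⟨24, 23⟩, [(14, 2)]⟩]⟩],
  [⟨⟨0, 1⟩, ⟨12, 12⟩, 12, [
      ⟨12, ⟨0, 6⟩, ⟨12, 18⟩, [(8, 1)]⟩,
      ⟨12, ⟨0, 12⟩, ⟨12, 12⟩, [(12, 1)]⟩]⟩,
    ⟨⟨12, 12⟩, ⟨24, 20⟩, 12, [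
      ⟨6, ⟨12, 12⟩, ⟨24, 24⟩, [(12, 0), (19, 1), (14, 0), (20, 1)]⟩]⟩],
  [⟨⟨0, 1⟩, ⟨24, 20⟩, 6, [
      ⟨6, ⟨0, 1⟩, ⟨24, 25⟩, [(18, 1), (7, 0), (19, 2), (5, 0), (11, 1), (13, 2), (16, 2)]⟩]⟩],
  [⟨⟨0, 1⟩, ⟨12, 14⟩, 12, [
      ⟨6, ⟨0, 2⟩, ⟨12, 14⟩, [(17, 0), (12, 2), (10, 1)]⟩]⟩,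
    ⟨⟨12, 14⟩, ⟨24, 20⟩, 12, [
      ⟨12, ⟨12, 14⟩, ⟨24, 26⟩, [(9, 1)]⟩,
      ⟨12, ⟨12, 20⟩, ⟨24, 20⟩, [(13, 1)]⟩]⟩],
  [⟨⟨0, 1⟩, ⟨12, 9⟩, 12, [
      ⟨12, ⟨0, 3⟩, ⟨12, 15⟩, [(3, 2)]⟩,
      ⟨12, ⟨0, 9⟩, ⟨12, 9⟩, [(15, 2)]⟩]⟩,
    ⟨⟨12, 9⟩, ⟨24, 20⟩, 12, [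
      ⟨6, ⟨12, 9⟩, ⟨24, 21⟩, [(0, 0), (2, 0)]⟩]⟩],
  [⟨⟨0, 1⟩, ⟨24, 20⟩, 6, [
      ⟨6, ⟨0, 4⟩, ⟨24, 22⟩, [(11, 0), (9, 0), (15, 1), (9, 2)]⟩]⟩],
  [⟨⟨0, 1⟩, ⟨12, 17⟩, 12, [
      ⟨6, ⟨0, 5⟩, ⟨12, 17⟩, [(8, 2), (14, 1), (20, 2)]⟩]⟩,
    ⟨⟨12, 17⟩, ⟨24, 20⟩, 12, [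
      ⟨12, ⟨12, 17⟩, ⟨24, 29⟩, [(10, 2)]⟩,
      ⟨12, ⟨12, 23⟩, ⟨24, 23⟩, [(6, 2)]⟩]⟩]]
  vorts := [
  ⟨21, ⟨24, 18⟩, ⟨0, -1⟩, ⟨0, 1⟩⟩,
  ⟨17, ⟨0, 2⟩, ⟨0, 1⟩, ⟨0, 0⟩⟩]

theorem fam_h9o_ok : fam_h9o.OK := by decide +kernel

theorem fam_h9o_block {u : ℤ} (hu : 1 ≤ u) {N : ℕ} (hN : (N : ℤ) = 24 * u + 20) :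
    HBlock (N + 1) :=
  hblock_of_table fam_h9o_ok rfl (by decide +kernel) (by decide +kernel) (by decide +kernel) hu hN

end Pd97
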