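import Mathlib
import Pool.Agent.Lib.Pd97.TabBlocks

/-!
# MP_d97cc3_co : table of the family o2e
-/

namespace Pd97

open Pool.Agent.Lib.CurP.Table

def fam_o2e : Data where
  k := 2
  nf := ⟨24, 0⟩
  u₀ := 2
  J := 2
  M0 := 6
  cells := [
  ⟨⟨1, 0⟩, 0, [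
    ⟨1, -6, ⟨24, -5⟩, -6, ⟨18, 0⟩, [⟨⟨0, 0⟩, ⟨0, 1⟩, 24, 0, 0, ⟨0, 0⟩, 1, 0⟩, ⟨⟨0, 1⟩, ⟨1, -1⟩, 6, 2, 1, ⟨0, 0⟩, 1, 0⟩]⟩,
    ⟨0, -6, ⟨12, -1⟩, 6, ⟨18, 2⟩, [⟨⟨0, 0⟩, ⟨1, -1⟩, 2, 0, 1, ⟨0, 0⟩, 1, 0⟩, ⟨⟨1, -1⟩, ⟨0, 1⟩, 19, 1, 0, ⟨0, 0⟩, 1, 0⟩]⟩,
    ⟨1, 12, ⟨12, 6⟩, -6, ⟨6, 0⟩, [⟨⟨0, 0⟩, ⟨1, 0⟩, 1, 2, 1, ⟨0, 0⟩, 1, 0⟩]⟩]⟩,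
  ⟨⟨1, 0⟩, 0, [
    ⟨1, 6, ⟨12, 2⟩, -6, ⟨6, 1⟩, [⟨⟨0, 0⟩, ⟨0, 1⟩, 24, 1, 0, ⟨0, 0⟩, 1, 0⟩, ⟨⟨0, 1⟩, ⟨1, -1⟩, 7, 2, 1, ⟨0, 0⟩, 1, 0⟩]⟩,
    ⟨1, 6, ⟨0, 4⟩, 6, ⟨18, 2⟩, [⟨⟨0, 0⟩, ⟨1, -1⟩, 3, 0, 1, ⟨0, 0⟩, 1, 0⟩, ⟨⟨1, -1⟩, ⟨0, 1⟩, 21, 1, 0, ⟨0, 0⟩, 1, 0⟩]⟩,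
    ⟨1, -12, ⟨12, -6⟩, -6, ⟨18, -1⟩, [⟨⟨0, 0⟩, ⟨1, 0⟩, 0, 2, 1, ⟨0, 0⟩, 1, 0⟩]⟩]⟩,
  ⟨⟨1, -1⟩, 0, [
    ⟨1, 6, ⟨12, 1⟩, -6, ⟨6, -1⟩, [⟨⟨0, 0⟩, ⟨1, -1⟩, 0, 1, 1, ⟨0, 0⟩, 1, 0⟩]⟩,
    ⟨0, -12, ⟨12, -9⟩, 6, ⟨18, 3⟩, [⟨⟨0, 0⟩, ⟨1, -1⟩, 3, 1, 1, ⟨0, 0⟩, 1, 0⟩]⟩,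
    ⟨1, 6, ⟨0, 8⟩, 6, ⟨18, 4⟩, [⟨⟨0, 0⟩, ⟨1, -1⟩, 4, 0, 1, ⟨0, 0⟩, 1, 0⟩]⟩]⟩,
  ⟨⟨1, -1⟩, 0, [
    ⟨1, -6, ⟨24, -4⟩, -6, ⟨18, -2⟩, [⟨⟨0, 0⟩, ⟨1, -1⟩, 1, 1, 1, ⟨0, 0⟩, 1, 0⟩]⟩,
    ⟨1, 12, ⟨12, 9⟩, 6, ⟨18, 3⟩, [⟨⟨0, 0⟩, ⟨1, -1⟩, 2, 1, 1, ⟨0, 0⟩, 1, 0⟩]⟩,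
    ⟨0, -6, ⟨12, -5⟩, 6, ⟨18, 4⟩, [⟨⟨0, 0⟩, ⟨1, -1⟩, 5, 0, 1, ⟨0, 0⟩, 1, 0⟩]⟩]⟩,
  ⟨⟨1, -1⟩, 0, [
    ⟨1, -6, ⟨24, -8⟩, -6, ⟨6, -2⟩, [⟨⟨0, 0⟩, ⟨1, -1⟩, 2, 2, 1, ⟨0, 0⟩, 1, 0⟩]⟩,
    ⟨1, -6, ⟨12, -4⟩, 6, ⟨18, 5⟩, [⟨⟨0, 0⟩, ⟨1, -1⟩, 6, 0, 1, ⟨0, 0⟩, 1, 0⟩]⟩,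
    ⟨1, 12, ⟨12, 12⟩, -6, ⟨18, -4⟩, [⟨⟨0, 0⟩, ⟨1, -1⟩, 5, 2, 1, ⟨0, 0⟩, 1, 0⟩]⟩]⟩,
  ⟨⟨1, -1⟩, 0, [
    ⟨1, 6, ⟨12, 5⟩, -6, ⟨18, -3⟩, [⟨⟨0, 0⟩, ⟨1, -1⟩, 3, 2, 1, ⟨0, 0⟩, 1, 0⟩]⟩,
    ⟨0, 6, ⟨0, 7⟩, 6, ⟨18, 5⟩, [⟨⟨0, 0⟩, ⟨1, -1⟩, 7, 0, 1, ⟨0, 0⟩, 1, 0⟩]⟩,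
    ⟨1, -12, ⟨12, -12⟩, -6, ⟨6, -3⟩, [⟨⟨0, 0⟩, ⟨1, -1⟩, 4, 2, 1, ⟨0, 0⟩, 1, 0⟩]⟩]⟩,
  ⟨⟨1, -1⟩, 0, [
    ⟨1, 6, ⟨12, 4⟩, -6, ⟨18, -5⟩, [⟨⟨0, 0⟩, ⟨1, -1⟩, 4, 1, 1, ⟨0, 0⟩, 1, 0⟩]⟩,
    ⟨1, -12, ⟨12, -15⟩, 6, ⟨18, 6⟩, [⟨⟨0, 0⟩, ⟨1, -1⟩, 7, 1, 1, ⟨0, 0⟩, 1, 0⟩]⟩,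
    ⟨0, 6, ⟨0, 11⟩, 6, ⟨18, 7⟩, [⟨⟨0, 0⟩, ⟨1, -1⟩, 0, 0, 1, ⟨0, 1⟩, 1, 0⟩]⟩]⟩,
  ⟨⟨1, -1⟩, 0, [
    ⟨1, -6, ⟨24, -7⟩, -6, ⟨6, -4⟩, [⟨⟨0, 0⟩, ⟨1, -1⟩, 5, 1, 1, ⟨0, 0⟩, 1, 0⟩]⟩,
    ⟨0, 12, ⟨12, 15⟩, 6, ⟨18, 6⟩, [⟨⟨0, 0⟩, ⟨1, -1⟩, 6, 1, 1, ⟨0, 0⟩, 1, 0⟩]⟩,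
    ⟨1, -6, ⟨12, -8⟩, 6, ⟨18, 7⟩, [⟨⟨0, 0⟩, ⟨1, -1⟩, 1, 0, 1, ⟨0, 1⟩, 1, 0⟩]⟩]⟩,
  ⟨⟨1, 0⟩, 0, [
    ⟨0, -6, ⟨24, -5⟩, -6, ⟨6, -2⟩, [⟨⟨0, 0⟩, ⟨0, 1⟩, 26, 2, 0, ⟨0, 0⟩, 1, 0⟩, ⟨⟨0, 1⟩, ⟨1, -1⟩, 14, 2, 1, ⟨0, 0⟩, 1, 0⟩]⟩,
    ⟨1, -6, ⟨12, -1⟩, 6, ⟨6, 6⟩, [⟨⟨0, 0⟩, ⟨1, -1⟩, 10, 0, 1, ⟨0, 0⟩, 1, 0⟩, ⟨⟨1, -1⟩, ⟨0, 1⟩, 16, 0, 0, ⟨0, 0⟩, 1, 0⟩]⟩,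
    ⟨0, 12, ⟨12, 6⟩, -6, ⟨18, -8⟩, [⟨⟨0, 0⟩, ⟨1, 0⟩, 9, 2, 1, ⟨0, 0⟩, 1, 0⟩]⟩]⟩,
  ⟨⟨1, 0⟩, 0, [
    ⟨0, 6, ⟨12, 2⟩, -6, ⟨18, -7⟩, [⟨⟨0, 0⟩, ⟨0, 1⟩, 23, 1, 0, ⟨0, 0⟩, 1, 0⟩, ⟨⟨0, 1⟩, ⟨1, -1⟩, 15, 2, 1, ⟨0, 0⟩, 1, 0⟩]⟩,
    ⟨0, 6, ⟨0, 4⟩, 6, ⟨6, 2⟩, [⟨⟨0, 0⟩, ⟨1, -1⟩, 11, 0, 1, ⟨0, 0⟩, 1, 0⟩, ⟨⟨1, -1⟩, ⟨0, 1⟩, 16, 2, 0, ⟨0, 0⟩, 1, 0⟩]⟩,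
    ⟨0, -12, ⟨12, -6⟩, -6, ⟨6, -3⟩, [⟨⟨0, 0⟩, ⟨1, 0⟩, 8, 2, 1, ⟨0, 0⟩, 1, 0⟩]⟩]⟩,
  ⟨⟨1, -1⟩, 0, [
    ⟨0, 6, ⟨12, 1⟩, -6, ⟨18, -9⟩, [⟨⟨0, 0⟩, ⟨1, -1⟩, 8, 1, 1, ⟨0, 0⟩, 1, 0⟩]⟩,
    ⟨1, -12, ⟨12, -9⟩, 6, ⟨6, 7⟩, [⟨⟨0, 0⟩, ⟨1, -1⟩, 11, 1, 1, ⟨0, 0⟩, 1, 0⟩]⟩,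
    ⟨0, 6, ⟨0, 8⟩, 6, ⟨6, 4⟩, [⟨⟨0, 0⟩, ⟨1, -1⟩, 12, 0, 1, ⟨0, 0⟩, 1, 0⟩]⟩]⟩,
  ⟨⟨1, -1⟩, 0, [
    ⟨0, -6, ⟨24, -4⟩, -6, ⟨6, -4⟩, [⟨⟨0, 0⟩, ⟨1, -1⟩, 9, 1, 1, ⟨0, 0⟩, 1, 0⟩]⟩,
    ⟨0, 12, ⟨12, 9⟩, 6, ⟨6, 3⟩, [⟨⟨0, 0⟩, ⟨1, -1⟩, 10, 1, 1, ⟨0, 0⟩, 1, 0⟩]⟩,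
    ⟨1, -6, ⟨12, -5⟩, 6, ⟨6, 8⟩, [⟨⟨0, 0⟩, ⟨1, -1⟩, 13, 0, 1, ⟨0, 0⟩, 1, 0⟩]⟩]⟩,
  ⟨⟨1, -1⟩, 0, [
    ⟨0, -6, ⟨24, -8⟩, -6, ⟨18, -10⟩, [⟨⟨0, 0⟩, ⟨1, -1⟩, 10, 2, 1, ⟨0, 0⟩, 1, 0⟩]⟩,
    ⟨0, -6, ⟨12, -4⟩, 6, ⟨6, 5⟩, [⟨⟨0, 0⟩, ⟨1, -1⟩, 14, 0, 1, ⟨0, 0⟩, 1, 0⟩]⟩,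
    ⟨0, 12, ⟨12, 12⟩, -6, ⟨6, -6⟩, [⟨⟨0, 0⟩, ⟨1, -1⟩, 13, 2, 1, ⟨0, 0⟩, 1, 0⟩]⟩]⟩,
  ⟨⟨1, -1⟩, 0, [
    ⟨0, 6, ⟨12, 5⟩, -6, ⟨6, -5⟩, [⟨⟨0, 0⟩, ⟨1, -1⟩, 11, 2, 1, ⟨0, 0⟩, 1, 0⟩]⟩,
    ⟨1, 6, ⟨0, 7⟩, 6, ⟨6, 9⟩, [⟨⟨0, 0⟩, ⟨1, -1⟩, 15, 0, 1, ⟨0, 0⟩, 1, 0⟩]⟩,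
    ⟨0, -12, ⟨12, -12⟩, -6, ⟨18, -11⟩, [⟨⟨0, 0⟩, ⟨1, -1⟩, 12, 2, 1, ⟨0, 0⟩, 1, 0⟩]⟩]⟩,
  ⟨⟨1, -1⟩, 0, [
    ⟨0, 6, ⟨12, 4⟩, -6, ⟨6, -7⟩, [⟨⟨0, 0⟩, ⟨1, -1⟩, 12, 1, 1, ⟨0, 0⟩, 1, 0⟩]⟩,
    ⟨0, -12, ⟨12, -15⟩, 6, ⟨6, 6⟩, [⟨⟨0, 0⟩, ⟨1, -1⟩, 15, 1, 1, ⟨0, 0⟩, 1, 0⟩]⟩,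
    ⟨1, 6, ⟨0, 11⟩, 6, ⟨6, 11⟩, [⟨⟨0, 0⟩, ⟨1, -1⟩, 8, 0, 1, ⟨0, 1⟩, 1, 0⟩]⟩]⟩,
  ⟨⟨1, -1⟩, 0, [
    ⟨0, -6, ⟨24, -7⟩, -6, ⟨18, -12⟩, [⟨⟨0, 0⟩, ⟨1, -1⟩, 13, 1, 1, ⟨0, 0⟩, 1, 0⟩]⟩,
    ⟨1, 12, ⟨12, 15⟩, 6, ⟨6, 10⟩, [⟨⟨0, 0⟩, ⟨1, -1⟩, 14, 1, 1, ⟨0, 0⟩, 1, 0⟩]⟩,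
    ⟨0, -6, ⟨12, -8⟩, 6, ⟨6, 7⟩, [⟨⟨0, 0⟩, ⟨1, -1⟩, 9, 0, 1, ⟨0, 1⟩, 1, 0⟩]⟩]⟩,
  ⟨⟨0, 1⟩, 0, [
    ⟨0, 0, ⟨18, -5⟩, 0, ⟨12, -3⟩, [⟨⟨0, 0⟩, ⟨0, 1⟩, 8, 1, 0, ⟨1, -1⟩, 1, 0⟩]⟩,
    ⟨1, 0, ⟨12, 3⟩, 0, ⟨12, 1⟩, [⟨⟨0, 0⟩, ⟨0, 1⟩, 20, 0, 0, ⟨0, 0⟩, 1, 0⟩]⟩,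
    ⟨0, 0, ⟨18, 2⟩, 0, ⟨0, 2⟩, [⟨⟨0, 0⟩, ⟨0, 1⟩, 9, 1, 0, ⟨1, -1⟩, 1, 0⟩]⟩]⟩,
  ⟨⟨0, 1⟩, 0, [
    ⟨0, 0, ⟨6, 1⟩, 0, ⟨24, -2⟩, [⟨⟨0, 0⟩, ⟨0, 1⟩, 18, 1, 0, ⟨0, 0⟩, 1, 1⟩]⟩,
    ⟨1, 0, ⟨0, 1⟩, 0, ⟨0, 1⟩, [⟨⟨0, 0⟩, ⟨0, 1⟩, 27, 1, 0, ⟨0, 0⟩, 1, 0⟩]⟩,
    ⟨0, 0, ⟨18, -2⟩, 0, ⟨18, -3⟩, [⟨⟨0, 0⟩, ⟨0, 1⟩, 19, 2, 0, ⟨0, 0⟩, 1, 0⟩]⟩]⟩,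
  ⟨⟨0, 1⟩, 1, [
    ⟨0, 0, ⟨18, -1⟩, 0, ⟨0, 0⟩, [⟨⟨0, 0⟩, ⟨0, 1⟩, 20, 2, 0, ⟨0, 0⟩, 1, 0⟩]⟩,
    ⟨1, 0, ⟨18, -1⟩, 0, ⟨0, 0⟩, [⟨⟨0, 0⟩, ⟨0, 1⟩, 17, 0, 0, ⟨0, 0⟩, 1, 0⟩]⟩]⟩,
  ⟨⟨0, 1⟩, 0, [
    ⟨0, 0, ⟨0, 3⟩, 0, ⟨18, -2⟩, [⟨⟨0, 0⟩, ⟨0, 1⟩, 22, 2, 0, ⟨0, 0⟩, 1, 0⟩]⟩,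
    ⟨1, 0, ⟨18, -5⟩, 0, ⟨0, 5⟩, [⟨⟨0, 0⟩, ⟨0, 1⟩, 0, 1, 0, ⟨1, -1⟩, 1, 0⟩]⟩,
    ⟨0, 0, ⟨6, 2⟩, 0, ⟨24, -3⟩, [⟨⟨0, 0⟩, ⟨0, 1⟩, 17, 2, 0, ⟨0, 0⟩, 1, 0⟩]⟩]⟩,
  ⟨⟨0, 1⟩, 0, [
    ⟨0, 0, ⟨12, -3⟩, 0, ⟨0, 1⟩, [⟨⟨0, 0⟩, ⟨0, 1⟩, 16, 1, 0, ⟨0, 0⟩, 1, 0⟩]⟩,
    ⟨1, 0, ⟨6, 2⟩, 0, ⟨12, 2⟩, [⟨⟨0, 0⟩, ⟨0, 1⟩, 21, 2, 0, ⟨0, 0⟩, 1, 0⟩]⟩,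
    ⟨1, 0, ⟨6, 1⟩, 0, ⟨24, -2⟩, [⟨⟨0, 0⟩, ⟨0, 1⟩, 18, 0, 0, ⟨0, 0⟩, 1, 1⟩]⟩]⟩,
  ⟨⟨0, 1⟩, 0, [
    ⟨1, 0, ⟨12, 0⟩, 0, ⟨12, 3⟩, [⟨⟨0, 0⟩, ⟨0, 1⟩, 21, 0, 0, ⟨0, 0⟩, 1, 0⟩]⟩,
    ⟨1, 0, ⟨18, 2⟩, 0, ⟨12, 4⟩, [⟨⟨0, 0⟩, ⟨0, 1⟩, 1, 1, 0, ⟨1, -1⟩, 1, 0⟩]⟩,
    ⟨1, 0, ⟨18, -2⟩, 0, ⟨24, -3⟩, [⟨⟨0, 0⟩, ⟨0, 1⟩, 20, 1, 0, ⟨0, 0⟩, 1, 0⟩]⟩]⟩,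
  ⟨⟨0, 1⟩, 0, [
    ⟨0, 0, ⟨0, 1⟩, 0, ⟨18, -1⟩, [⟨⟨0, 0⟩, ⟨0, 1⟩, 25, 1, 0, ⟨0, 0⟩, 1, 0⟩]⟩,
    ⟨1, 0, ⟨0, 2⟩, 0, ⟨6, 4⟩, [⟨⟨0, 0⟩, ⟨0, 1⟩, 26, 1, 0, ⟨0, 0⟩, 1, 0⟩]⟩,
    ⟨1, 0, ⟨24, -3⟩, 0, ⟨0, 4⟩, [⟨⟨0, 0⟩, ⟨0, 1⟩, 19, 0, 0, ⟨0, 0⟩, 1, 0⟩]⟩]⟩,
  ⟨⟨0, 1⟩, 0, [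
    ⟨0, 0, ⟨0, 2⟩, 0, ⟨18, -5⟩, [⟨⟨0, 0⟩, ⟨0, 1⟩, 27, 0, 0, ⟨0, 0⟩, 1, 0⟩]⟩,
    ⟨0, 0, ⟨12, -2⟩, 0, ⟨6, 1⟩, [⟨⟨0, 0⟩, ⟨0, 1⟩, 9, 0, 0, ⟨0, 0⟩, 1, 0⟩]⟩,
    ⟨0, 0, ⟨12, 0⟩, 0, ⟨18, -6⟩, [⟨⟨0, 0⟩, ⟨0, 1⟩, 23, 2, 0, ⟨0, 0⟩, 1, 0⟩]⟩]⟩,
  ⟨⟨0, 1⟩, 0, [
    ⟨0, 0, ⟨0, 5⟩, 0, ⟨18, 1⟩, [⟨⟨0, 0⟩, ⟨0, 1⟩, 0, 0, 0, ⟨0, 0⟩, 1, 0⟩]⟩,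
    ⟨1, 0, ⟨12, -2⟩, 0, ⟨18, 1⟩, [⟨⟨0, 0⟩, ⟨0, 1⟩, 1, 0, 0, ⟨0, 0⟩, 1, 0⟩]⟩,
    ⟨1, 0, ⟨12, -3⟩, 0, ⟨6, 2⟩, [⟨⟨0, 0⟩, ⟨0, 1⟩, 25, 0, 0, ⟨0, 0⟩, 1, 0⟩]⟩]⟩,
  ⟨⟨0, 1⟩, 2, [
    ⟨0, 0, ⟨12, 3⟩, 0, ⟨18, 0⟩, [⟨⟨0, 0⟩, ⟨0, 1⟩, 24, 2, 0, ⟨0, 0⟩, 1, 0⟩]⟩,
    ⟨1, 0, ⟨24, -1⟩, 0, ⟨6, 3⟩, [⟨⟨0, 0⟩, ⟨0, 1⟩, 22, 0, 0, ⟨0, 0⟩, 1, 0⟩]⟩]⟩,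
  ⟨⟨0, 1⟩, 0, [
    ⟨0, 0, ⟨24, -3⟩, 0, ⟨6, -1⟩, [⟨⟨0, 0⟩, ⟨0, 1⟩, 27, 2, 0, ⟨0, 0⟩, 1, 0⟩]⟩,
    ⟨1, 0, ⟨24, -2⟩, 0, ⟨0, 3⟩, [⟨⟨0, 0⟩, ⟨0, 1⟩, 22, 1, 0, ⟨0, 0⟩, 1, 0⟩]⟩,
    ⟨1, 0, ⟨0, 5⟩, 0, ⟨6, 5⟩, [⟨⟨0, 0⟩, ⟨0, 1⟩, 8, 0, 0, ⟨0, 0⟩, 1, 0⟩]⟩]⟩,
  ⟨⟨0, 1⟩, 0, [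
    ⟨0, 0, ⟨24, -2⟩, 0, ⟨6, 0⟩, [⟨⟨0, 0⟩, ⟨0, 1⟩, 23, 0, 0, ⟨0, 0⟩, 1, 0⟩]⟩,
    ⟨0, 0, ⟨24, -1⟩, 0, ⟨18, -4⟩, [⟨⟨0, 0⟩, ⟨0, 1⟩, 17, 1, 0, ⟨0, 0⟩, 1, 0⟩]⟩,
    ⟨1, 0, ⟨0, 3⟩, 0, ⟨0, 2⟩, [⟨⟨0, 0⟩, ⟨0, 1⟩, 26, 0, 0, ⟨0, 0⟩, 1, 0⟩]⟩]⟩]
  tracks := [
  [⟨⟨0, 1⟩, ⟨24, 0⟩, 12, [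
      ⟨12, ⟨0, 6⟩, ⟨24, 6⟩, [(9, 2), (8, 2)]⟩,
      ⟨12, ⟨0, 12⟩, ⟨24, 0⟩, [(13, 2), (23, 2), (12, 2)]⟩]⟩],
  [⟨⟨0, 1⟩, ⟨24, 0⟩, 6, [
      ⟨6, ⟨0, 1⟩, ⟨24, 1⟩, [(22, 0), (5, 1), (17, 0), (3, 2), (10, 0), (16, 0), (8, 0)]⟩]⟩],
  [⟨⟨0, 1⟩, ⟨24, 0⟩, 6, [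
      ⟨6, ⟨0, 2⟩, ⟨24, 2⟩, [(23, 0), (10, 2), (19, 2), (12, 1), (9, 0), (16, 2), (11, 0)]⟩]⟩],
  [⟨⟨0, 1⟩, ⟨24, 0⟩, 12, [
      ⟨12, ⟨0, 3⟩, ⟨24, 3⟩, [(19, 0), (2, 1), (25, 0), (7, 1)]⟩,
      ⟨12, ⟨0, 9⟩, ⟨24, 9⟩, [(14, 1), (20, 0), (11, 1), (26, 0)]⟩]⟩],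
  [⟨⟨0, 1⟩, ⟨24, 0⟩, 6, [
      ⟨6, ⟨0, 4⟩, ⟨24, 4⟩, [(9, 1), (15, 2), (23, 1), (14, 0), (17, 2), (12, 0), (27, 0)]⟩]⟩],
  [⟨⟨0, 1⟩, ⟨24, 0⟩, 6, [
      ⟨6, ⟨0, 5⟩, ⟨24, 5⟩, [(24, 0), (6, 2), (0, 1), (13, 0), (18, 0), (15, 0), (27, 1)]⟩]⟩],
  [⟨⟨0, 1⟩, ⟨24, 0⟩, 12, [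
      ⟨12, ⟨0, 6⟩, ⟨24, 6⟩, [(1, 2), (0, 2)]⟩,
      ⟨12, ⟨0, 12⟩, ⟨24, 0⟩, [(5, 2), (21, 0), (4, 2)]⟩]⟩],
  [⟨⟨0, 1⟩, ⟨24, 0⟩, 6, [
      ⟨6, ⟨0, 1⟩, ⟨24, 1⟩, [(17, 1), (13, 1), (20, 2), (11, 2), (2, 0), (19, 1), (0, 0)]⟩]⟩],
  [⟨⟨0, 1⟩, ⟨24, 0⟩, 6, [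
      ⟨6, ⟨0, 2⟩, ⟨24, 2⟩, [(22, 1), (2, 2), (20, 1), (4, 1), (1, 0), (21, 1), (3, 0)]⟩]⟩],
  [⟨⟨0, 1⟩, ⟨24, 0⟩, 12, [
      ⟨12, ⟨0, 3⟩, ⟨24, 3⟩, [(27, 2), (10, 1), (16, 1), (15, 1)]⟩,
      ⟨12, ⟨0, 9⟩, ⟨24, 9⟩, [(6, 1), (24, 2), (3, 1), (22, 2)]⟩]⟩],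
  [⟨⟨0, 1⟩, ⟨24, 0⟩, 6, [
      ⟨6, ⟨0, 4⟩, ⟨24, 4⟩, [(1, 1), (7, 2), (24, 1), (6, 0), (21, 2), (4, 0), (26, 1)]⟩]⟩],
  [⟨⟨0, 1⟩, ⟨24, 0⟩, 6, [
      ⟨6, ⟨0, 5⟩, ⟨24, 5⟩, [(26, 2), (14, 2), (8, 1), (5, 0), (18, 1), (7, 0), (25, 1)]⟩]⟩]]
  vorts := [
  ⟨18, ⟨36, -2⟩, ⟨6, -1⟩, ⟨-9, 2⟩⟩,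
  ⟨25, ⟨36, 2⟩, ⟨6, 1⟩, ⟨-9, -2⟩⟩]

theorem fam_o2e_ok : fam_o2e.OK := by decide +kernel

theorem fam_o2e_block {u : ℤ} (hu : 2 ≤ u) {N : ℕ} (hN : (N : ℤ) = 24 * u + 0) :
    OBlock (N + 2) :=
  oblock_of_table fam_o2e_ok rfl (by decide +kernel) hu hN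

end Pd97
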