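import Mathlib
import Pool.Agent.Lib.Pd97.TabBlocks

/-!
# MP_d97cc3_co : table of the family o2o
-/

namespace Pd97

open Pool.Agent.Lib.CurP.Table

def fam_o2o : Data where
  k := 2
  nf := ⟨24, 12⟩
  u₀ := 2
  J := 2
  M0 := 6
  cells := [
  ⟨⟨1, 0⟩, 0, [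
    ⟨1, -6, ⟨24, 10⟩, -6, ⟨6, 5⟩, [⟨⟨0, 0⟩, ⟨0, 1⟩, 25, 1, 0, ⟨0, 0⟩, 1, 0⟩, ⟨⟨0, 1⟩, ⟨1, -1⟩, 6, 1, 1, ⟨0, 0⟩, 1, 0⟩]⟩,
    ⟨1, 12, ⟨12, 9⟩, 6, ⟨6, 9⟩, [⟨⟨0, 0⟩, ⟨1, 0⟩, 1, 1, 1, ⟨0, 0⟩, 1, 0⟩]⟩,
    ⟨0, -6, ⟨12, 5⟩, 6, ⟨12, 8⟩, [⟨⟨0, 0⟩, ⟨1, 0⟩, 2, 0, 1, ⟨0, 0⟩, 1, 0⟩]⟩]⟩,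
  ⟨⟨1, 0⟩, 0, [
    ⟨1, 6, ⟨12, 5⟩, -6, ⟨18, 10⟩, [⟨⟨0, 0⟩, ⟨0, 1⟩, 26, 0, 0, ⟨0, 0⟩, 1, 0⟩, ⟨⟨0, 1⟩, ⟨1, -1⟩, 7, 1, 1, ⟨0, 0⟩, 1, 0⟩]⟩,
    ⟨0, -12, ⟨12, 3⟩, 6, ⟨12, 7⟩, [⟨⟨0, 0⟩, ⟨1, 0⟩, 0, 1, 1, ⟨0, 0⟩, 1, 0⟩]⟩,
    ⟨1, 6, ⟨0, 4⟩, 6, ⟨6, 10⟩, [⟨⟨0, 0⟩, ⟨1, 0⟩, 3, 0, 1, ⟨0, 0⟩, 1, 0⟩]⟩]⟩,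
  ⟨⟨1, 0⟩, 0, [
    ⟨1, 6, ⟨12, 7⟩, -6, ⟨6, 4⟩, [⟨⟨0, 0⟩, ⟨1, 0⟩, 0, 2, 1, ⟨0, 0⟩, 1, 0⟩]⟩,
    ⟨0, 6, ⟨0, 5⟩, 6, ⟨12, 9⟩, [⟨⟨0, 0⟩, ⟨1, 0⟩, 4, 0, 1, ⟨0, 0⟩, 1, 0⟩]⟩,
    ⟨1, -12, ⟨12, 0⟩, -6, ⟨18, 8⟩, [⟨⟨0, 0⟩, ⟨1, 0⟩, 3, 2, 1, ⟨0, 0⟩, 1, 0⟩]⟩]⟩,
  ⟨⟨1, 0⟩, 0, [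
    ⟨1, -6, ⟨24, 8⟩, -6, ⟨18, 9⟩, [⟨⟨0, 0⟩, ⟨1, 0⟩, 1, 2, 1, ⟨0, 0⟩, 1, 0⟩]⟩,
    ⟨1, -6, ⟨12, 4⟩, 6, ⟨6, 11⟩, [⟨⟨0, 0⟩, ⟨1, 0⟩, 5, 0, 1, ⟨0, 0⟩, 1, 0⟩]⟩,
    ⟨1, 12, ⟨12, 12⟩, -6, ⟨6, 3⟩, [⟨⟨0, 0⟩, ⟨1, 0⟩, 2, 2, 1, ⟨0, 0⟩, 1, 0⟩]⟩]⟩,
  ⟨⟨1, 0⟩, 0, [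
    ⟨1, -6, ⟨24, 7⟩, -6, ⟨18, 7⟩, [⟨⟨0, 0⟩, ⟨1, 0⟩, 2, 1, 1, ⟨0, 0⟩, 1, 0⟩]⟩,
    ⟨0, 12, ⟨12, 15⟩, 6, ⟨12, 10⟩, [⟨⟨0, 0⟩, ⟨1, 0⟩, 5, 1, 1, ⟨0, 0⟩, 1, 0⟩]⟩,
    ⟨1, -6, ⟨12, 2⟩, 6, ⟨6, 13⟩, [⟨⟨0, 0⟩, ⟨1, 0⟩, 6, 0, 1, ⟨0, 0⟩, 1, 0⟩]⟩]⟩,
  ⟨⟨1, 0⟩, 0, [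
    ⟨1, 6, ⟨12, 8⟩, -6, ⟨6, 2⟩, [⟨⟨0, 0⟩, ⟨1, 0⟩, 3, 1, 1, ⟨0, 0⟩, 1, 0⟩]⟩,
    ⟨1, -12, ⟨12, -3⟩, 6, ⟨6, 12⟩, [⟨⟨0, 0⟩, ⟨1, 0⟩, 4, 1, 1, ⟨0, 0⟩, 1, 0⟩]⟩,
    ⟨0, 6, ⟨0, 7⟩, 6, ⟨12, 11⟩, [⟨⟨0, 0⟩, ⟨1, 0⟩, 7, 0, 1, ⟨0, 0⟩, 1, 0⟩]⟩]⟩,
  ⟨⟨1, 0⟩, 0, [
    ⟨1, 6, ⟨12, 10⟩, -6, ⟨18, 6⟩, [⟨⟨0, 0⟩, ⟨1, 0⟩, 4, 2, 1, ⟨0, 0⟩, 1, 0⟩]⟩,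
    ⟨1, 6, ⟨0, 8⟩, 6, ⟨6, 14⟩, [⟨⟨0, 0⟩, ⟨1, -1⟩, 0, 0, 1, ⟨0, 1⟩, 1, 0⟩, ⟨⟨1, -1⟩, ⟨0, 1⟩, 27, 1, 0, ⟨0, 0⟩, 1, 0⟩]⟩,
    ⟨1, -12, ⟨12, -6⟩, -6, ⟨6, 0⟩, [⟨⟨0, 0⟩, ⟨1, 0⟩, 7, 2, 1, ⟨0, 0⟩, 1, 0⟩]⟩]⟩,
  ⟨⟨1, 0⟩, 0, [
    ⟨1, -6, ⟨24, 5⟩, -6, ⟨6, 1⟩, [⟨⟨0, 0⟩, ⟨1, 0⟩, 5, 2, 1, ⟨0, 0⟩, 1, 0⟩]⟩,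
    ⟨0, -6, ⟨12, 1⟩, 6, ⟨12, 12⟩, [⟨⟨0, 0⟩, ⟨1, -1⟩, 1, 0, 1, ⟨0, 1⟩, 1, 0⟩, ⟨⟨1, -1⟩, ⟨0, 1⟩, 20, 2, 0, ⟨0, 0⟩, 1, 0⟩]⟩,
    ⟨1, 12, ⟨12, 18⟩, -6, ⟨18, 5⟩, [⟨⟨0, 0⟩, ⟨1, 0⟩, 6, 2, 1, ⟨0, 0⟩, 1, 0⟩]⟩]⟩,
  ⟨⟨1, 0⟩, 0, [
    ⟨0, 6, ⟨12, 10⟩, -6, ⟨24, 6⟩, [⟨⟨0, 0⟩, ⟨0, 1⟩, 24, 2, 0, ⟨0, 0⟩, 1, 0⟩, ⟨⟨0, 1⟩, ⟨1, -1⟩, 14, 1, 1, ⟨0, 0⟩, 1, 0⟩]⟩,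
    ⟨0, -12, ⟨12, -3⟩, 6, ⟨6, 1⟩, [⟨⟨0, 0⟩, ⟨1, 0⟩, 9, 1, 1, ⟨0, 0⟩, 1, 0⟩]⟩,
    ⟨1, 6, ⟨0, 5⟩, 6, ⟨18, 15⟩, [⟨⟨0, 0⟩, ⟨1, 0⟩, 10, 0, 1, ⟨0, 0⟩, 1, 0⟩]⟩]⟩,
  ⟨⟨1, 0⟩, 0, [
    ⟨0, -6, ⟨24, 5⟩, -6, ⟨6, -3⟩, [⟨⟨0, 0⟩, ⟨0, 1⟩, 21, 2, 0, ⟨0, 0⟩, 1, 0⟩, ⟨⟨0, 1⟩, ⟨1, -1⟩, 15, 1, 1, ⟨0, 0⟩, 1, 0⟩]⟩,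
    ⟨1, 12, ⟨12, 15⟩, 6, ⟨18, 14⟩, [⟨⟨0, 0⟩, ⟨1, 0⟩, 8, 1, 1, ⟨0, 0⟩, 1, 0⟩]⟩,
    ⟨0, -6, ⟨12, 4⟩, 6, ⟨6, 2⟩, [⟨⟨0, 0⟩, ⟨1, 0⟩, 11, 0, 1, ⟨0, 0⟩, 1, 0⟩]⟩]⟩,
  ⟨⟨1, 0⟩, 0, [
    ⟨0, -6, ⟨24, 7⟩, -6, ⟨24, 5⟩, [⟨⟨0, 0⟩, ⟨1, 0⟩, 8, 2, 1, ⟨0, 0⟩, 1, 0⟩]⟩,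
    ⟨1, -6, ⟨12, -1⟩, 6, ⟨18, 16⟩, [⟨⟨0, 0⟩, ⟨1, -1⟩, 12, 0, 1, ⟨0, 0⟩, 1, 0⟩, ⟨⟨1, -1⟩, ⟨0, 1⟩, 23, 0, 0, ⟨0, 0⟩, 1, 1⟩]⟩,
    ⟨0, 12, ⟨12, 18⟩, -6, ⟨6, -5⟩, [⟨⟨0, 0⟩, ⟨1, 0⟩, 11, 2, 1, ⟨0, 0⟩, 1, 0⟩]⟩]⟩,
  ⟨⟨1, 0⟩, 0, [
    ⟨0, 6, ⟨12, 8⟩, -6, ⟨6, -4⟩, [⟨⟨0, 0⟩, ⟨1, 0⟩, 9, 2, 1, ⟨0, 0⟩, 1, 0⟩]⟩,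
    ⟨0, 6, ⟨0, 10⟩, 6, ⟨6, 3⟩, [⟨⟨0, 0⟩, ⟨1, -1⟩, 13, 0, 1, ⟨0, 0⟩, 1, 0⟩, ⟨⟨1, -1⟩, ⟨0, 1⟩, 18, 2, 0, ⟨0, 0⟩, 1, 0⟩]⟩,
    ⟨0, -12, ⟨12, -6⟩, -6, ⟨24, 4⟩, [⟨⟨0, 0⟩, ⟨1, 0⟩, 10, 2, 1, ⟨0, 0⟩, 1, 0⟩]⟩]⟩,
  ⟨⟨1, -1⟩, 0, [
    ⟨0, 6, ⟨12, 13⟩, -6, ⟨6, -6⟩, [⟨⟨0, 0⟩, ⟨1, -1⟩, 10, 1, 1, ⟨0, 0⟩, 1, 0⟩]⟩,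
    ⟨1, -12, ⟨12, -9⟩, 6, ⟨18, 17⟩, [⟨⟨0, 0⟩, ⟨1, -1⟩, 13, 1, 1, ⟨0, 0⟩, 1, 0⟩]⟩,
    ⟨0, 6, ⟨0, 8⟩, 6, ⟨6, 5⟩, [⟨⟨0, 0⟩, ⟨1, -1⟩, 14, 0, 1, ⟨0, 0⟩, 1, 0⟩]⟩]⟩,
  ⟨⟨1, -1⟩, 0, [
    ⟨0, -6, ⟨24, 2⟩, -6, ⟨24, 3⟩, [⟨⟨0, 0⟩, ⟨1, -1⟩, 11, 1, 1, ⟨0, 0⟩, 1, 0⟩]⟩,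
    ⟨0, 12, ⟨12, 21⟩, 6, ⟨6, 4⟩, [⟨⟨0, 0⟩, ⟨1, -1⟩, 12, 1, 1, ⟨0, 0⟩, 1, 0⟩]⟩,
    ⟨1, -6, ⟨12, 1⟩, 6, ⟨18, 18⟩, [⟨⟨0, 0⟩, ⟨1, -1⟩, 15, 0, 1, ⟨0, 0⟩, 1, 0⟩]⟩]⟩,
  ⟨⟨1, -1⟩, 0, [
    ⟨0, -6, ⟨24, 4⟩, -6, ⟨6, -7⟩, [⟨⟨0, 0⟩, ⟨1, -1⟩, 12, 2, 1, ⟨0, 0⟩, 1, 0⟩]⟩,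
    ⟨0, -6, ⟨12, -4⟩, 6, ⟨6, 6⟩, [⟨⟨0, 0⟩, ⟨1, -1⟩, 8, 0, 1, ⟨0, 1⟩, 1, 0⟩]⟩,
    ⟨0, 12, ⟨12, 24⟩, -6, ⟨24, 1⟩, [⟨⟨0, 0⟩, ⟨1, -1⟩, 15, 2, 1, ⟨0, 0⟩, 1, 0⟩]⟩]⟩,
  ⟨⟨1, -1⟩, 0, [
    ⟨0, 6, ⟨12, 11⟩, -6, ⟨24, 2⟩, [⟨⟨0, 0⟩, ⟨1, -1⟩, 13, 2, 1, ⟨0, 0⟩, 1, 0⟩]⟩,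
    ⟨1, 6, ⟨0, 13⟩, 6, ⟨18, 19⟩, [⟨⟨0, 0⟩, ⟨1, -1⟩, 9, 0, 1, ⟨0, 1⟩, 1, 0⟩]⟩,
    ⟨0, -12, ⟨12, -12⟩, -6, ⟨6, -8⟩, [⟨⟨0, 0⟩, ⟨1, -1⟩, 14, 2, 1, ⟨0, 0⟩, 1, 0⟩]⟩]⟩,
  ⟨⟨0, 1⟩, 0, [
    ⟨0, 0, ⟨12, 0⟩, 0, ⟨24, 9⟩, [⟨⟨0, 0⟩, ⟨0, 1⟩, 17, 0, 0, ⟨0, 0⟩, 1, 0⟩]⟩,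
    ⟨0, 0, ⟨12, 9⟩, 0, ⟨12, 5⟩, [⟨⟨0, 0⟩, ⟨0, 1⟩, 26, 1, 0, ⟨0, 0⟩, 1, 0⟩]⟩,
    ⟨1, 0, ⟨0, 3⟩, 0, ⟨18, 12⟩, [⟨⟨0, 0⟩, ⟨0, 1⟩, 21, 1, 0, ⟨0, 0⟩, 1, 0⟩]⟩]⟩,
  ⟨⟨0, 1⟩, 0, [
    ⟨0, 0, ⟨12, 12⟩, 0, ⟨12, 4⟩, [⟨⟨0, 0⟩, ⟨0, 1⟩, 16, 0, 0, ⟨0, 0⟩, 1, 0⟩]⟩,
    ⟨0, 0, ⟨18, 5⟩, 0, ⟨24, 10⟩, [⟨⟨0, 0⟩, ⟨0, 1⟩, 23, 1, 0, ⟨0, 0⟩, 1, 1⟩]⟩,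
    ⟨1, 0, ⟨18, 7⟩, 0, ⟨0, 1⟩, [⟨⟨0, 0⟩, ⟨0, 1⟩, 19, 0, 0, ⟨0, 0⟩, 1, 0⟩]⟩]⟩,
  ⟨⟨0, 1⟩, 0, [
    ⟨0, 0, ⟨0, 2⟩, 0, ⟨12, -2⟩, [⟨⟨0, 0⟩, ⟨0, 1⟩, 22, 2, 0, ⟨0, 0⟩, 1, 0⟩]⟩,
    ⟨0, 0, ⟨6, 2⟩, 0, ⟨12, 2⟩, [⟨⟨0, 0⟩, ⟨0, 1⟩, 19, 2, 0, ⟨0, 0⟩, 1, 0⟩]⟩,
    ⟨0, 0, ⟨18, 8⟩, 0, ⟨18, 9⟩, [⟨⟨0, 0⟩, ⟨0, 1⟩, 11, 1, 0, ⟨1, -1⟩, 1, 0⟩]⟩]⟩,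
  ⟨⟨0, 1⟩, 0, [
    ⟨0, 0, ⟨6, 5⟩, 0, ⟨12, 3⟩, [⟨⟨0, 0⟩, ⟨0, 1⟩, 17, 2, 0, ⟨0, 0⟩, 1, 0⟩]⟩,
    ⟨1, 0, ⟨24, 9⟩, 0, ⟨0, 2⟩, [⟨⟨0, 0⟩, ⟨0, 1⟩, 20, 0, 0, ⟨0, 0⟩, 1, 0⟩]⟩,
    ⟨0, 0, ⟨18, 10⟩, 0, ⟨18, 8⟩, [⟨⟨0, 0⟩, ⟨0, 1⟩, 18, 1, 0, ⟨0, 0⟩, 1, 0⟩]⟩]⟩,
  ⟨⟨0, 1⟩, 0, [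
    ⟨0, 0, ⟨0, 3⟩, 0, ⟨18, 7⟩, [⟨⟨0, 0⟩, ⟨0, 1⟩, 19, 1, 0, ⟨0, 0⟩, 1, 0⟩]⟩,
    ⟨1, 0, ⟨6, 4⟩, 0, ⟨0, 3⟩, [⟨⟨0, 0⟩, ⟨0, 1⟩, 27, 2, 0, ⟨0, 0⟩, 1, 0⟩]⟩,
    ⟨1, 0, ⟨18, 5⟩, 0, ⟨12, 10⟩, [⟨⟨0, 0⟩, ⟨0, 1⟩, 7, 1, 0, ⟨1, -1⟩, 1, 0⟩]⟩]⟩,
  ⟨⟨0, 1⟩, 0, [
    ⟨0, 0, ⟨24, 8⟩, 0, ⟨6, -2⟩, [⟨⟨0, 0⟩, ⟨0, 1⟩, 24, 0, 0, ⟨0, 0⟩, 1, 0⟩]⟩,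
    ⟨0, 0, ⟨24, 9⟩, 0, ⟨24, 8⟩, [⟨⟨0, 0⟩, ⟨0, 1⟩, 16, 2, 0, ⟨0, 0⟩, 1, 0⟩]⟩,
    ⟨1, 0, ⟨0, 7⟩, 0, ⟨18, 13⟩, [⟨⟨0, 0⟩, ⟨0, 1⟩, 9, 0, 0, ⟨0, 0⟩, 1, 0⟩]⟩]⟩,
  ⟨⟨0, 1⟩, 0, [
    ⟨0, 0, ⟨0, 1⟩, 0, ⟨12, -1⟩, [⟨⟨0, 0⟩, ⟨0, 1⟩, 25, 2, 0, ⟨0, 0⟩, 1, 0⟩]⟩,
    ⟨1, 0, ⟨0, 1⟩, 0, ⟨6, 7⟩, [⟨⟨0, 0⟩, ⟨0, 1⟩, 25, 0, 0, ⟨0, 0⟩, 1, 0⟩]⟩,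
    ⟨0, 0, ⟨24, 10⟩, 0, ⟨12, 1⟩, [⟨⟨0, 0⟩, ⟨0, 1⟩, 18, 0, 0, ⟨0, 0⟩, 1, 0⟩]⟩]⟩,
  ⟨⟨0, 1⟩, 1, [
    ⟨0, 0, ⟨18, 7⟩, 0, ⟨0, 0⟩, [⟨⟨0, 0⟩, ⟨0, 1⟩, 10, 1, 0, ⟨1, -1⟩, 1, 0⟩]⟩,
    ⟨1, 0, ⟨6, 7⟩, 0, ⟨0, 0⟩, [⟨⟨0, 0⟩, ⟨0, 1⟩, 17, 1, 0, ⟨0, 0⟩, 1, 0⟩]⟩]⟩,
  ⟨⟨0, 1⟩, 0, [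
    ⟨0, 0, ⟨0, 4⟩, 0, ⟨24, 7⟩, [⟨⟨0, 0⟩, ⟨0, 1⟩, 21, 0, 0, ⟨0, 0⟩, 1, 0⟩]⟩,
    ⟨0, 0, ⟨12, 6⟩, 0, ⟨6, -1⟩, [⟨⟨0, 0⟩, ⟨0, 1⟩, 24, 1, 0, ⟨0, 0⟩, 1, 0⟩]⟩,
    ⟨0, 0, ⟨12, 2⟩, 0, ⟨6, 0⟩, [⟨⟨0, 0⟩, ⟨0, 1⟩, 8, 0, 0, ⟨0, 0⟩, 1, 0⟩]⟩]⟩,
  ⟨⟨0, 1⟩, 0, [
    ⟨0, 0, ⟨24, 11⟩, 0, ⟨12, 0⟩, [⟨⟨0, 0⟩, ⟨0, 1⟩, 22, 1, 0, ⟨0, 0⟩, 1, 0⟩]⟩,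
    ⟨1, 0, ⟨0, 2⟩, 0, ⟨6, 8⟩, [⟨⟨0, 0⟩, ⟨0, 1⟩, 0, 0, 0, ⟨0, 0⟩, 1, 0⟩]⟩,
    ⟨1, 0, ⟨24, 11⟩, 0, ⟨6, 6⟩, [⟨⟨0, 0⟩, ⟨0, 1⟩, 22, 0, 0, ⟨0, 0⟩, 1, 0⟩]⟩]⟩,
  ⟨⟨0, 1⟩, 2, [
    ⟨0, 0, ⟨12, 7⟩, 0, ⟨12, 6⟩, [⟨⟨0, 0⟩, ⟨0, 1⟩, 1, 0, 0, ⟨0, 0⟩, 1, 0⟩]⟩,
    ⟨1, 0, ⟨12, 3⟩, 0, ⟨18, 11⟩, [⟨⟨0, 0⟩, ⟨0, 1⟩, 16, 1, 0, ⟨0, 0⟩, 1, 0⟩]⟩]⟩,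
  ⟨⟨0, 1⟩, 0, [
    ⟨1, 0, ⟨12, 6⟩, 0, ⟨0, 4⟩, [⟨⟨0, 0⟩, ⟨0, 1⟩, 27, 0, 0, ⟨0, 0⟩, 1, 0⟩]⟩,
    ⟨1, 0, ⟨18, 10⟩, 0, ⟨0, 5⟩, [⟨⟨0, 0⟩, ⟨0, 1⟩, 6, 1, 0, ⟨1, -1⟩, 1, 0⟩]⟩,
    ⟨1, 0, ⟨18, 8⟩, 0, ⟨12, 9⟩, [⟨⟨0, 0⟩, ⟨0, 1⟩, 20, 1, 0, ⟨0, 0⟩, 1, 0⟩]⟩]⟩]
  tracks := [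
  [⟨⟨0, 1⟩, ⟨24, 12⟩, 12, [
      ⟨12, ⟨0, 6⟩, ⟨24, 18⟩, [(11, 2), (24, 1), (10, 2)]⟩,
      ⟨12, ⟨0, 12⟩, ⟨24, 12⟩, [(15, 2), (16, 0), (17, 0), (14, 2)]⟩]⟩],
  [⟨⟨0, 1⟩, ⟨24, 12⟩, 6, [
      ⟨6, ⟨0, 1⟩, ⟨24, 13⟩, [(22, 0), (5, 2), (7, 1), (26, 0), (12, 0), (23, 0), (10, 0)]⟩]⟩],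
  [⟨⟨0, 1⟩, ⟨24, 12⟩, 6, [
      ⟨6, ⟨0, 2⟩, ⟨24, 14⟩, [(18, 0), (12, 2), (18, 1), (14, 1), (24, 2), (11, 0), (18, 2), (13, 0), (21, 0)]⟩]⟩],
  [⟨⟨0, 1⟩, ⟨24, 12⟩, 12, [
      ⟨12, ⟨0, 3⟩, ⟨24, 15⟩, [(20, 0), (1, 1), (4, 1)]⟩,
      ⟨12, ⟨0, 9⟩, ⟨24, 21⟩, [(8, 1), (16, 1), (13, 1), (21, 1)]⟩]⟩],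
  [⟨⟨0, 1⟩, ⟨24, 12⟩, 6, [
      ⟨6, ⟨0, 4⟩, ⟨24, 16⟩, [(24, 0), (11, 1), (9, 2), (8, 0), (19, 2), (14, 0), (22, 2)]⟩]⟩],
  [⟨⟨0, 1⟩, ⟨24, 12⟩, 6, [
      ⟨6, ⟨0, 5⟩, ⟨24, 17⟩, [(2, 1), (19, 0), (0, 2), (15, 0), (17, 1), (9, 0), (25, 0)]⟩]⟩],
  [⟨⟨0, 1⟩, ⟨24, 12⟩, 12, [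
      ⟨12, ⟨0, 6⟩, ⟨24, 18⟩, [(6, 2), (27, 0), (7, 2)]⟩,
      ⟨12, ⟨0, 12⟩, ⟨24, 12⟩, [(2, 2), (3, 2)]⟩]⟩],
  [⟨⟨0, 1⟩, ⟨24, 12⟩, 6, [
      ⟨6, ⟨0, 1⟩, ⟨24, 13⟩, [(22, 1), (21, 2), (15, 1), (23, 1), (13, 2), (2, 0), (17, 2), (4, 0)]⟩]⟩],
  [⟨⟨0, 1⟩, ⟨24, 12⟩, 6, [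
      ⟨6, ⟨0, 2⟩, ⟨24, 14⟩, [(25, 1), (6, 1), (4, 2), (5, 0), (27, 2), (3, 0)]⟩]⟩],
  [⟨⟨0, 1⟩, ⟨24, 12⟩, 12, [
      ⟨12, ⟨0, 3⟩, ⟨24, 15⟩, [(16, 2), (12, 1), (26, 1), (9, 1)]⟩,
      ⟨12, ⟨0, 9⟩, ⟨24, 21⟩, [(5, 1), (0, 1), (19, 1)]⟩]⟩],
  [⟨⟨0, 1⟩, ⟨24, 12⟩, 6, [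
      ⟨6, ⟨0, 4⟩, ⟨24, 16⟩, [(1, 2), (20, 1), (3, 1), (6, 0), (27, 1), (0, 0)]⟩]⟩],
  [⟨⟨0, 1⟩, ⟨24, 12⟩, 6, [
      ⟨6, ⟨0, 5⟩, ⟨24, 17⟩, [(8, 2), (10, 1), (1, 0), (20, 2), (7, 0), (25, 2)]⟩]⟩]]
  vorts := [
  ⟨23, ⟨24, 14⟩, ⟨0, 1⟩, ⟨0, -1⟩⟩,
  ⟨26, ⟨24, 10⟩, ⟨0, -1⟩, ⟨0, 1⟩⟩]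

theorem fam_o2o_ok : fam_o2o.OK := by decide +kernel

theorem fam_o2o_block {u : ℤ} (hu : 2 ≤ u) {N : ℕ} (hN : (N : ℤ) = 24 * u + 12) :
    OBlock (N + 2) :=
  oblock_of_table fam_o2o_ok rfl (by decide +kernel) hu hN

end Pd97
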