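import Mathlib
import Pool.Agent.Lib.Pd97.FlipBlocks

/-!
# MP_d97cc3_co : table of the family w11
-/

namespace Pd97

open Pool.Agent.Lib.CurP.Table

def fam_w11 : Data where
  k := 3
  nf := ⟨12, 9⟩
  u₀ := 3
  J := 3
  M0 := 3
  cells := [
  ⟨⟨1, -1⟩, 0, [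
    ⟨0, -3, ⟨12, 5⟩, -4, ⟨12, 4⟩, [⟨⟨0, 0⟩, ⟨0, 1⟩, 16, 2, 0, ⟨0, 0⟩, 1, 0⟩, ⟨⟨0, 1⟩, ⟨1, -2⟩, 2, 1, 1, ⟨0, 0⟩, 1, 0⟩]⟩,
    ⟨2, -3, ⟨6, 1⟩, 2, ⟨0, 3⟩, [⟨⟨0, 0⟩, ⟨1, -1⟩, 2, 0, 1, ⟨0, 0⟩, 1, 0⟩]⟩,
    ⟨0, 6, ⟨6, 12⟩, -4, ⟨6, 5⟩, [⟨⟨0, 0⟩, ⟨1, -1⟩, 1, 2, 1, ⟨0, 0⟩, 1, 0⟩]⟩]⟩,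
  ⟨⟨1, -1⟩, 0, [
    ⟨0, 3, ⟨6, 7⟩, -4, ⟨6, 6⟩, [⟨⟨0, 0⟩, ⟨0, 1⟩, 21, 2, 0, ⟨0, 0⟩, 1, 0⟩, ⟨⟨0, 1⟩, ⟨1, -2⟩, 3, 1, 1, ⟨0, 0⟩, 1, 0⟩]⟩,
    ⟨1, 3, ⟨0, 5⟩, 2, ⟨8, 5⟩, [⟨⟨0, 0⟩, ⟨1, -1⟩, 3, 0, 1, ⟨0, 0⟩, 1, 0⟩]⟩,
    ⟨0, -6, ⟨6, -3⟩, -4, ⟨12, 3⟩, [⟨⟨0, 0⟩, ⟨1, -1⟩, 0, 2, 1, ⟨0, 0⟩, 1, 0⟩]⟩]⟩,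
  ⟨⟨1, -1⟩, 0, [
    ⟨0, 3, ⟨6, 8⟩, -4, ⟨6, 4⟩, [⟨⟨0, 0⟩, ⟨1, -1⟩, 0, 1, 1, ⟨0, 0⟩, 1, 0⟩]⟩,
    ⟨2, 3, ⟨0, 7⟩, 2, ⟨0, 4⟩, [⟨⟨0, 0⟩, ⟨1, -2⟩, 0, 0, 1, ⟨0, 1⟩, 1, 0⟩, ⟨⟨1, -2⟩, ⟨0, 1⟩, 23, 0, 0, ⟨0, 0⟩, 1, 0⟩]⟩,
    ⟨0, -6, ⟨6, -6⟩, -4, ⟨12, 1⟩, [⟨⟨0, 0⟩, ⟨1, -1⟩, 3, 2, 1, ⟨0, 0⟩, 1, 0⟩]⟩]⟩,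
  ⟨⟨1, -1⟩, 0, [
    ⟨0, -3, ⟨12, 4⟩, -4, ⟨12, 2⟩, [⟨⟨0, 0⟩, ⟨1, -1⟩, 1, 1, 1, ⟨0, 0⟩, 1, 0⟩]⟩,
    ⟨1, -3, ⟨6, -1⟩, 2, ⟨8, 6⟩, [⟨⟨0, 0⟩, ⟨1, -2⟩, 1, 0, 1, ⟨0, 1⟩, 1, 0⟩, ⟨⟨1, -2⟩, ⟨0, 1⟩, 17, 1, 0, ⟨0, 0⟩, 1, 0⟩]⟩,
    ⟨0, 6, ⟨6, 15⟩, -4, ⟨6, 3⟩, [⟨⟨0, 0⟩, ⟨1, -1⟩, 2, 2, 1, ⟨0, 0⟩, 1, 0⟩]⟩]⟩,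
  ⟨⟨1, 0⟩, 0, [
    ⟨1, -3, ⟨12, 8⟩, -4, ⟨4, 2⟩, [⟨⟨0, 0⟩, ⟨0, 1⟩, 18, 0, 0, ⟨0, 0⟩, 1, 0⟩, ⟨⟨0, 1⟩, ⟨1, -1⟩, 6, 1, 1, ⟨0, 0⟩, 1, 0⟩]⟩,
    ⟨0, -3, ⟨6, 1⟩, 2, ⟨0, 4⟩, [⟨⟨0, 0⟩, ⟨1, 0⟩, 6, 0, 1, ⟨0, 0⟩, 1, 0⟩]⟩,
    ⟨1, 6, ⟨6, 9⟩, -4, ⟨8, 2⟩, [⟨⟨0, 0⟩, ⟨1, 0⟩, 5, 2, 1, ⟨0, 0⟩, 1, 0⟩]⟩]⟩,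
  ⟨⟨1, 0⟩, 0, [
    ⟨1, 3, ⟨6, 4⟩, -4, ⟨8, 3⟩, [⟨⟨0, 0⟩, ⟨0, 1⟩, 21, 1, 0, ⟨0, 0⟩, 1, 0⟩, ⟨⟨0, 1⟩, ⟨1, -1⟩, 7, 1, 1, ⟨0, 0⟩, 1, 0⟩]⟩,
    ⟨2, 3, ⟨0, 5⟩, 2, ⟨6, 5⟩, [⟨⟨0, 0⟩, ⟨1, 0⟩, 7, 0, 1, ⟨0, 0⟩, 1, 0⟩]⟩,
    ⟨1, -6, ⟨6, 0⟩, -4, ⟨4, 1⟩, [⟨⟨0, 0⟩, ⟨1, 0⟩, 4, 2, 1, ⟨0, 0⟩, 1, 0⟩]⟩]⟩,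
  ⟨⟨1, 0⟩, 0, [
    ⟨1, 3, ⟨6, 8⟩, -4, ⟨8, 1⟩, [⟨⟨0, 0⟩, ⟨1, 0⟩, 4, 1, 1, ⟨0, 0⟩, 1, 0⟩]⟩,
    ⟨0, 3, ⟨0, 4⟩, 2, ⟨0, 5⟩, [⟨⟨0, 0⟩, ⟨1, -1⟩, 4, 0, 1, ⟨0, 1⟩, 1, 0⟩, ⟨⟨1, -1⟩, ⟨0, 1⟩, 19, 2, 0, ⟨0, 0⟩, 1, 0⟩]⟩,
    ⟨1, -6, ⟨6, -3⟩, -4, ⟨4, -1⟩, [⟨⟨0, 0⟩, ⟨1, 0⟩, 7, 2, 1, ⟨0, 0⟩, 1, 0⟩]⟩]⟩,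
  ⟨⟨1, 0⟩, 0, [
    ⟨1, -3, ⟨12, 4⟩, -4, ⟨4, 0⟩, [⟨⟨0, 0⟩, ⟨1, 0⟩, 5, 1, 1, ⟨0, 0⟩, 1, 0⟩]⟩,
    ⟨2, -3, ⟨6, 2⟩, 2, ⟨6, 6⟩, [⟨⟨0, 0⟩, ⟨1, -1⟩, 5, 0, 1, ⟨0, 1⟩, 1, 0⟩, ⟨⟨1, -1⟩, ⟨0, 1⟩, 18, 1, 0, ⟨0, 0⟩, 1, 0⟩]⟩,
    ⟨1, 6, ⟨6, 12⟩, -4, ⟨8, 0⟩, [⟨⟨0, 0⟩, ⟨1, 0⟩, 6, 2, 1, ⟨0, 0⟩, 1, 0⟩]⟩]⟩,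
  ⟨⟨1, 0⟩, 0, [
    ⟨2, 3, ⟨6, 8⟩, -4, ⟨12, 6⟩, [⟨⟨0, 0⟩, ⟨0, 1⟩, 15, 0, 0, ⟨0, 0⟩, 1, 0⟩, ⟨⟨0, 1⟩, ⟨1, -1⟩, 10, 1, 1, ⟨0, 0⟩, 1, 0⟩]⟩,
    ⟨1, 3, ⟨0, 1⟩, 2, ⟨10, 6⟩, [⟨⟨0, 0⟩, ⟨1, 0⟩, 10, 0, 1, ⟨0, 0⟩, 1, 0⟩]⟩,
    ⟨2, -6, ⟨6, 0⟩, -4, ⟨6, 2⟩, [⟨⟨0, 0⟩, ⟨1, 0⟩, 9, 2, 1, ⟨0, 0⟩, 1, 0⟩]⟩]⟩,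
  ⟨⟨1, 0⟩, 0, [
    ⟨2, -3, ⟨12, 7⟩, -4, ⟨6, 3⟩, [⟨⟨0, 0⟩, ⟨0, 1⟩, 21, 0, 0, ⟨0, 0⟩, 1, 0⟩, ⟨⟨0, 1⟩, ⟨1, -1⟩, 11, 1, 1, ⟨0, 0⟩, 1, 0⟩]⟩,
    ⟨0, -3, ⟨6, 2⟩, 2, ⟨6, 8⟩, [⟨⟨0, 0⟩, ⟨1, 0⟩, 11, 0, 1, ⟨0, 0⟩, 1, 0⟩]⟩,
    ⟨2, 6, ⟨6, 9⟩, -4, ⟨12, 5⟩, [⟨⟨0, 0⟩, ⟨1, 0⟩, 8, 2, 1, ⟨0, 0⟩, 1, 0⟩]⟩]⟩,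
  ⟨⟨1, 0⟩, 0, [
    ⟨2, -3, ⟨12, 8⟩, -4, ⟨6, 1⟩, [⟨⟨0, 0⟩, ⟨1, 0⟩, 8, 1, 1, ⟨0, 0⟩, 1, 0⟩]⟩,
    ⟨1, -3, ⟨6, -2⟩, 2, ⟨10, 7⟩, [⟨⟨0, 0⟩, ⟨1, -1⟩, 8, 0, 1, ⟨0, 1⟩, 1, 0⟩, ⟨⟨1, -1⟩, ⟨0, 1⟩, 22, 1, 0, ⟨0, 0⟩, 1, 0⟩]⟩,
    ⟨2, 6, ⟨6, 12⟩, -4, ⟨12, 3⟩, [⟨⟨0, 0⟩, ⟨1, 0⟩, 11, 2, 1, ⟨0, 0⟩, 1, 0⟩]⟩]⟩,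
  ⟨⟨1, 0⟩, 0, [
    ⟨2, 3, ⟨6, 7⟩, -4, ⟨12, 4⟩, [⟨⟨0, 0⟩, ⟨1, 0⟩, 9, 1, 1, ⟨0, 0⟩, 1, 0⟩]⟩,
    ⟨0, 3, ⟨0, 5⟩, 2, ⟨6, 9⟩, [⟨⟨0, 0⟩, ⟨1, -1⟩, 9, 0, 1, ⟨0, 1⟩, 1, 0⟩, ⟨⟨1, -1⟩, ⟨0, 1⟩, 23, 2, 0, ⟨0, 0⟩, 1, 0⟩]⟩,
    ⟨2, -6, ⟨6, -3⟩, -4, ⟨6, 0⟩, [⟨⟨0, 0⟩, ⟨1, 0⟩, 10, 2, 1, ⟨0, 0⟩, 1, 0⟩]⟩]⟩,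
  ⟨⟨0, 1⟩, 3, [
    ⟨0, 0, ⟨12, 7⟩, 0, ⟨0, 0⟩, [⟨⟨0, 0⟩, ⟨0, 1⟩, 13, 1, 0, ⟨0, 0⟩, 1, 0⟩]⟩,
    ⟨1, 0, ⟨12, 7⟩, 0, ⟨0, 0⟩, [⟨⟨0, 0⟩, ⟨0, 1⟩, 15, 1, 0, ⟨0, 0⟩, 1, 0⟩]⟩,
    ⟨2, 0, ⟨0, 1⟩, 0, ⟨0, 0⟩, [⟨⟨0, 0⟩, ⟨0, 1⟩, 20, 1, 0, ⟨0, 0⟩, 1, 0⟩]⟩]⟩,
  ⟨⟨0, 1⟩, 1, [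
    ⟨0, 0, ⟨6, 4⟩, 0, ⟨0, 1⟩, [⟨⟨0, 0⟩, ⟨0, 1⟩, 22, 2, 0, ⟨0, 0⟩, 1, 0⟩]⟩,
    ⟨1, 0, ⟨0, 2⟩, 0, ⟨12, 7⟩, [⟨⟨0, 0⟩, ⟨0, 1⟩, 12, 0, 0, ⟨0, 0⟩, 1, 1⟩]⟩]⟩,
  ⟨⟨0, 1⟩, 2, [
    ⟨2, 0, ⟨6, 6⟩, 0, ⟨2, 2⟩, [⟨⟨0, 0⟩, ⟨0, 1⟩, 23, 1, 0, ⟨0, 0⟩, 1, 0⟩]⟩]⟩,
  ⟨⟨0, 1⟩, 0, [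
    ⟨1, 0, ⟨6, 1⟩, 0, ⟨10, 5⟩, [⟨⟨0, 0⟩, ⟨0, 1⟩, 8, 0, 0, ⟨0, 0⟩, 1, 0⟩]⟩,
    ⟨2, 0, ⟨0, 2⟩, 0, ⟨12, 7⟩, [⟨⟨0, 0⟩, ⟨0, 1⟩, 12, 1, 0, ⟨0, 0⟩, 1, 1⟩]⟩,
    ⟨1, 0, ⟨6, 6⟩, 0, ⟨0, 1⟩, [⟨⟨0, 0⟩, ⟨0, 1⟩, 19, 1, 0, ⟨0, 0⟩, 1, 0⟩]⟩]⟩,
  ⟨⟨0, 1⟩, 0, [
    ⟨0, 0, ⟨6, 0⟩, 0, ⟨12, 5⟩, [⟨⟨0, 0⟩, ⟨0, 1⟩, 24, 2, 0, ⟨0, 0⟩, 1, 0⟩]⟩,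
    ⟨0, 0, ⟨6, 5⟩, 0, ⟨2, 7⟩, [⟨⟨0, 0⟩, ⟨0, 1⟩, 20, 2, 0, ⟨0, 0⟩, 1, 0⟩]⟩,
    ⟨2, 0, ⟨0, 4⟩, 0, ⟨0, 2⟩, [⟨⟨0, 0⟩, ⟨0, 1⟩, 0, 0, 0, ⟨0, 0⟩, 1, 0⟩]⟩]⟩,
  ⟨⟨0, 1⟩, 0, [
    ⟨0, 0, ⟨0, 3⟩, 0, ⟨2, 5⟩, [⟨⟨0, 0⟩, ⟨0, 1⟩, 24, 1, 0, ⟨0, 0⟩, 1, 0⟩]⟩,
    ⟨0, 0, ⟨9, 4⟩, 0, ⟨2, 10⟩, [⟨⟨0, 0⟩, ⟨0, 1⟩, 3, 1, 0, ⟨1, -2⟩, 1, 0⟩]⟩,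
    ⟨1, 0, ⟨3, 2⟩, 0, ⟨10, 3⟩, [⟨⟨0, 0⟩, ⟨0, 1⟩, 19, 0, 0, ⟨0, 0⟩, 1, 0⟩]⟩]⟩,
  ⟨⟨0, 1⟩, 0, [
    ⟨0, 0, ⟨0, 1⟩, 0, ⟨0, 3⟩, [⟨⟨0, 0⟩, ⟨0, 1⟩, 4, 0, 0, ⟨0, 0⟩, 1, 0⟩]⟩,
    ⟨1, 0, ⟨9, 4⟩, 0, ⟨4, 3⟩, [⟨⟨0, 0⟩, ⟨0, 1⟩, 7, 1, 0, ⟨1, -1⟩, 1, 0⟩]⟩,
    ⟨2, 0, ⟨3, 4⟩, 0, ⟨8, 5⟩, [⟨⟨0, 0⟩, ⟨0, 1⟩, 22, 0, 0, ⟨0, 0⟩, 1, 0⟩]⟩]⟩,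
  ⟨⟨0, 1⟩, 0, [
    ⟨0, 0, ⟨9, 7⟩, 0, ⟨2, 4⟩, [⟨⟨0, 0⟩, ⟨0, 1⟩, 17, 2, 0, ⟨0, 0⟩, 1, 0⟩]⟩,
    ⟨1, 0, ⟨6, 3⟩, 0, ⟨10, 4⟩, [⟨⟨0, 0⟩, ⟨0, 1⟩, 15, 2, 0, ⟨0, 0⟩, 1, 0⟩]⟩,
    ⟨1, 0, ⟨9, 8⟩, 0, ⟨0, 2⟩, [⟨⟨0, 0⟩, ⟨0, 1⟩, 6, 1, 0, ⟨1, -1⟩, 1, 0⟩]⟩]⟩,
  ⟨⟨0, 1⟩, 0, [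
    ⟨0, 0, ⟨6, 6⟩, 0, ⟨2, 8⟩, [⟨⟨0, 0⟩, ⟨0, 1⟩, 24, 0, 0, ⟨0, 0⟩, 1, 0⟩]⟩,
    ⟨0, 0, ⟨12, 8⟩, 0, ⟨12, 7⟩, [⟨⟨0, 0⟩, ⟨0, 1⟩, 12, 2, 0, ⟨0, 0⟩, 1, 1⟩]⟩,
    ⟨2, 0, ⟨6, 4⟩, 0, ⟨0, 1⟩, [⟨⟨0, 0⟩, ⟨0, 1⟩, 16, 1, 0, ⟨0, 0⟩, 1, 0⟩]⟩]⟩,
  ⟨⟨0, 1⟩, 0, [
    ⟨0, 0, ⟨0, 2⟩, 0, ⟨6, 7⟩, [⟨⟨0, 0⟩, ⟨0, 1⟩, 9, 0, 0, ⟨0, 0⟩, 1, 0⟩]⟩,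
    ⟨2, 0, ⟨6, 5⟩, 0, ⟨6, 4⟩, [⟨⟨0, 0⟩, ⟨0, 1⟩, 5, 0, 0, ⟨0, 0⟩, 1, 0⟩]⟩,
    ⟨1, 0, ⟨6, 2⟩, 0, ⟨8, 4⟩, [⟨⟨0, 0⟩, ⟨0, 1⟩, 1, 0, 0, ⟨0, 0⟩, 1, 0⟩]⟩]⟩,
  ⟨⟨0, 1⟩, 0, [
    ⟨0, 0, ⟨9, 5⟩, 0, ⟨0, 2⟩, [⟨⟨0, 0⟩, ⟨0, 1⟩, 18, 2, 0, ⟨0, 0⟩, 1, 0⟩]⟩,
    ⟨2, 0, ⟨9, 8⟩, 0, ⟨8, 6⟩, [⟨⟨0, 0⟩, ⟨0, 1⟩, 10, 1, 0, ⟨1, -1⟩, 1, 0⟩]⟩,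
    ⟨1, 0, ⟨6, 5⟩, 0, ⟨12, 6⟩, [⟨⟨0, 0⟩, ⟨0, 1⟩, 13, 0, 0, ⟨0, 0⟩, 1, 0⟩]⟩]⟩,
  ⟨⟨0, 1⟩, 0, [
    ⟨0, 0, ⟨9, 8⟩, 0, ⟨8, 8⟩, [⟨⟨0, 0⟩, ⟨0, 1⟩, 2, 1, 0, ⟨1, -2⟩, 1, 0⟩]⟩,
    ⟨2, 0, ⟨6, 3⟩, 0, ⟨2, 1⟩, [⟨⟨0, 0⟩, ⟨0, 1⟩, 14, 0, 0, ⟨0, 0⟩, 1, 0⟩]⟩,
    ⟨2, 0, ⟨9, 7⟩, 0, ⟨2, 3⟩, [⟨⟨0, 0⟩, ⟨0, 1⟩, 11, 1, 0, ⟨1, -1⟩, 1, 0⟩]⟩]⟩,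
  ⟨⟨0, 1⟩, 0, [
    ⟨0, 0, ⟨6, 3⟩, 0, ⟨12, 6⟩, [⟨⟨0, 0⟩, ⟨0, 1⟩, 20, 0, 0, ⟨0, 0⟩, 1, 0⟩]⟩,
    ⟨0, 0, ⟨12, 6⟩, 0, ⟨2, 9⟩, [⟨⟨0, 0⟩, ⟨0, 1⟩, 17, 0, 0, ⟨0, 0⟩, 1, 0⟩]⟩,
    ⟨0, 0, ⟨6, 9⟩, 0, ⟨2, 6⟩, [⟨⟨0, 0⟩, ⟨0, 1⟩, 16, 0, 0, ⟨0, 0⟩, 1, 0⟩]⟩]⟩]
  tracks := [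
  [⟨⟨0, 1⟩, ⟨12, 9⟩, 6, [
      ⟨6, ⟨0, 3⟩, ⟨12, 9⟩, [(17, 0), (1, 2), (24, 0), (24, 2), (3, 2)]⟩,
      ⟨6, ⟨0, 6⟩, ⟨12, 12⟩, [(2, 2), (16, 0), (20, 0), (0, 2), (24, 1)]⟩]⟩],
  [⟨⟨0, 1⟩, ⟨12, 9⟩, 3, [
      ⟨3, ⟨0, 1⟩, ⟨12, 10⟩, [(18, 0), (6, 1), (4, 1), (13, 0), (1, 0), (17, 1), (19, 0), (3, 0), (12, 0)]⟩]⟩],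
  [⟨⟨0, 1⟩, ⟨12, 9⟩, 3, [
      ⟨3, ⟨0, 2⟩, ⟨12, 11⟩, [(21, 0), (11, 1), (9, 1), (16, 1), (2, 0), (22, 0), (23, 0), (0, 0), (20, 1)]⟩]⟩],
  [⟨⟨0, 1⟩, ⟨12, 9⟩, 6, [
      ⟨6, ⟨0, 3⟩, ⟨12, 9⟩, [(6, 2), (19, 1), (4, 2)]⟩,
      ⟨6, ⟨0, 6⟩, ⟨12, 12⟩, [(5, 2), (15, 2), (7, 2)]⟩]⟩],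
  [⟨⟨0, 1⟩, ⟨12, 9⟩, 3, [
      ⟨3, ⟨0, 1⟩, ⟨12, 10⟩, [(8, 1), (10, 1), (15, 0), (5, 0), (18, 1), (7, 0), (12, 1)]⟩]⟩],
  [⟨⟨0, 1⟩, ⟨12, 9⟩, 3, [
      ⟨3, ⟨0, 2⟩, ⟨12, 11⟩, [(13, 1), (1, 1), (17, 2), (3, 1), (21, 2), (22, 2), (6, 0), (19, 2), (4, 0)]⟩]⟩],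
  [⟨⟨0, 1⟩, ⟨12, 9⟩, 6, [
      ⟨6, ⟨0, 3⟩, ⟨12, 9⟩, [(11, 2), (23, 1), (9, 2)]⟩,
      ⟨6, ⟨0, 6⟩, ⟨12, 12⟩, [(8, 2), (14, 0), (10, 2)]⟩]⟩],
  [⟨⟨0, 1⟩, ⟨12, 9⟩, 3, [
      ⟨3, ⟨0, 1⟩, ⟨12, 10⟩, [(12, 2), (16, 2), (2, 1), (18, 2), (0, 1), (20, 2), (11, 0), (23, 2), (9, 0)]⟩]⟩],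
  [⟨⟨0, 1⟩, ⟨12, 9⟩, 3, [
      ⟨3, ⟨0, 2⟩, ⟨12, 11⟩, [(15, 1), (5, 1), (7, 1), (21, 1), (8, 0), (22, 1), (10, 0)]⟩]⟩]]
  vorts := [
  ⟨13, ⟨6, 6⟩, ⟨0, 2⟩, ⟨0, -1⟩⟩,
  ⟨14, ⟨6, 6⟩, ⟨0, 2⟩, ⟨0, -1⟩⟩,
  ⟨12, ⟨24, 15⟩, ⟨0, -1⟩, ⟨0, 2⟩⟩]

theorem fam_w11_ok : fam_w11.OK := by decide +kernel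

def path_w11 : Path 7 where
  verts := ![Sum.inr 0, Sum.inr 1, Sum.inr 2, Sum.inl ⟨0, 0⟩, Sum.inl ⟨12, 7⟩, Sum.inl ⟨0, 1⟩, Sum.inl ⟨9, 5⟩]
  tris := [(3, 4, 2, 12, 0, ⟨0, 0⟩),
    (4, 3, 0, 13, 1, ⟨0, 0⟩),
    (5, 6, 3, 18, 1, ⟨0, 0⟩),
    (6, 5, 4, 7, 1, ⟨1, -1⟩)]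
  flips := [(3, 4, 2, 0), (5, 6, 3, 4)]

theorem fam_w11_block {u : ℤ} (hu : 3 ≤ u) {N : ℕ} (hN : (N : ℤ) = 12 * u + 9) :
    WBlock (N + 2) :=
  wblock_of_path (n := 4) fam_w11_ok rfl (by decide +kernel) (by decide +kernel) path_w11 (by decide +kernel)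
    ⟨rfl, rfl, rfl⟩ 5 6 (by decide +kernel) hu hN

end Pd97
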