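import Mathlib
import Pool.Agent.Lib.Pd97.FlipBlocks

/-!
# MP_d97cc3_co : table of the family w8b
-/

namespace Pd97

open Pool.Agent.Lib.CurP.Table

def fam_w8b : Data where
  k := 6
  nf := ⟨48, 6⟩
  u₀ := 1
  J := 3
  M0 := 6
  cells := [
  ⟨⟨2, 0⟩, 0, [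
    ⟨3, -6, ⟨48, 5⟩, -6, ⟨24, 1⟩, [⟨⟨0, 0⟩, ⟨0, 1⟩, 72, 1, 0, ⟨0, 0⟩, 1, 0⟩, ⟨⟨0, 1⟩, ⟨2, -1⟩, 6, 2, 1, ⟨0, 0⟩, 1, 0⟩]⟩,
    ⟨2, -6, ⟨24, -2⟩, 6, ⟨12, 2⟩, [⟨⟨0, 0⟩, ⟨2, 0⟩, 2, 0, 1, ⟨0, 0⟩, 1, 0⟩]⟩,
    ⟨0, 12, ⟨24, 9⟩, -6, ⟨24, -1⟩, [⟨⟨0, 0⟩, ⟨2, 0⟩, 1, 2, 1, ⟨0, 0⟩, 1, 0⟩]⟩]⟩,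
  ⟨⟨2, 0⟩, 0, [
    ⟨0, 6, ⟨0, 2⟩, -6, ⟨24, 0⟩, [⟨⟨0, 0⟩, ⟨0, 1⟩, 68, 2, 0, ⟨0, 0⟩, 1, 0⟩, ⟨⟨0, 1⟩, ⟨2, -1⟩, 7, 2, 1, ⟨0, 0⟩, 1, 0⟩]⟩,
    ⟨2, 6, ⟨24, 7⟩, 6, ⟨24, 2⟩, [⟨⟨0, 0⟩, ⟨2, 0⟩, 3, 0, 1, ⟨0, 0⟩, 1, 0⟩]⟩,
    ⟨3, -12, ⟨24, -3⟩, -6, ⟨24, 0⟩, [⟨⟨0, 0⟩, ⟨2, 0⟩, 0, 2, 1, ⟨0, 0⟩, 1, 0⟩]⟩]⟩,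
  ⟨⟨2, 0⟩, 0, [
    ⟨0, 6, ⟨24, 8⟩, -6, ⟨24, -2⟩, [⟨⟨0, 0⟩, ⟨2, 0⟩, 0, 1, 1, ⟨0, 0⟩, 1, 0⟩]⟩,
    ⟨2, -12, ⟨24, -6⟩, 6, ⟨12, 3⟩, [⟨⟨0, 0⟩, ⟨2, 0⟩, 3, 1, 1, ⟨0, 0⟩, 1, 0⟩]⟩,
    ⟨2, 6, ⟨0, 4⟩, 6, ⟨24, 4⟩, [⟨⟨0, 0⟩, ⟨2, -1⟩, 4, 0, 1, ⟨0, 0⟩, 1, 0⟩, ⟨⟨2, -1⟩, ⟨0, 1⟩, 77, 1, 0, ⟨0, 0⟩, 1, 0⟩]⟩]⟩,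
  ⟨⟨2, 0⟩, 0, [
    ⟨3, -6, ⟨24, -1⟩, -6, ⟨24, -1⟩, [⟨⟨0, 0⟩, ⟨2, 0⟩, 1, 1, 1, ⟨0, 0⟩, 1, 0⟩]⟩,
    ⟨2, 12, ⟨24, 12⟩, 6, ⟨24, 3⟩, [⟨⟨0, 0⟩, ⟨2, 0⟩, 2, 1, 1, ⟨0, 0⟩, 1, 0⟩]⟩,
    ⟨2, -6, ⟨48, 1⟩, 6, ⟨12, 4⟩, [⟨⟨0, 0⟩, ⟨2, -1⟩, 5, 0, 1, ⟨0, 0⟩, 1, 0⟩, ⟨⟨2, -1⟩, ⟨0, 1⟩, 76, 2, 0, ⟨0, 0⟩, 1, 0⟩]⟩]⟩,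
  ⟨⟨2, -1⟩, 0, [
    ⟨0, -6, ⟨48, 2⟩, -6, ⟨24, -3⟩, [⟨⟨0, 0⟩, ⟨2, -1⟩, 2, 2, 1, ⟨0, 0⟩, 1, 0⟩]⟩,
    ⟨2, -6, ⟨24, -5⟩, 6, ⟨24, 5⟩, [⟨⟨0, 0⟩, ⟨2, -1⟩, 6, 0, 1, ⟨0, 0⟩, 1, 0⟩]⟩,
    ⟨3, 12, ⟨24, 15⟩, -6, ⟨24, -3⟩, [⟨⟨0, 0⟩, ⟨2, -1⟩, 5, 2, 1, ⟨0, 0⟩, 1, 0⟩]⟩]⟩,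
  ⟨⟨2, -1⟩, 0, [
    ⟨3, 6, ⟨0, 5⟩, -6, ⟨24, -2⟩, [⟨⟨0, 0⟩, ⟨2, -1⟩, 3, 2, 1, ⟨0, 0⟩, 1, 0⟩]⟩,
    ⟨2, 6, ⟨24, 10⟩, 6, ⟨12, 5⟩, [⟨⟨0, 0⟩, ⟨2, -1⟩, 7, 0, 1, ⟨0, 0⟩, 1, 0⟩]⟩,
    ⟨0, -12, ⟨24, -9⟩, -6, ⟨24, -4⟩, [⟨⟨0, 0⟩, ⟨2, -1⟩, 4, 2, 1, ⟨0, 0⟩, 1, 0⟩]⟩]⟩,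
  ⟨⟨2, -1⟩, 0, [
    ⟨3, 6, ⟨24, 11⟩, -6, ⟨24, -4⟩, [⟨⟨0, 0⟩, ⟨2, -1⟩, 4, 1, 1, ⟨0, 0⟩, 1, 0⟩]⟩,
    ⟨2, -12, ⟨24, -12⟩, 6, ⟨24, 6⟩, [⟨⟨0, 0⟩, ⟨2, -1⟩, 7, 1, 1, ⟨0, 0⟩, 1, 0⟩]⟩,
    ⟨2, 6, ⟨0, 7⟩, 6, ⟨12, 7⟩, [⟨⟨0, 0⟩, ⟨2, -1⟩, 0, 0, 1, ⟨0, 1⟩, 1, 0⟩]⟩]⟩,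
  ⟨⟨2, -1⟩, 0, [
    ⟨0, -6, ⟨24, -4⟩, -6, ⟨24, -5⟩, [⟨⟨0, 0⟩, ⟨2, -1⟩, 5, 1, 1, ⟨0, 0⟩, 1, 0⟩]⟩,
    ⟨2, 12, ⟨24, 18⟩, 6, ⟨12, 6⟩, [⟨⟨0, 0⟩, ⟨2, -1⟩, 6, 1, 1, ⟨0, 0⟩, 1, 0⟩]⟩,
    ⟨2, -6, ⟨48, -2⟩, 6, ⟨24, 7⟩, [⟨⟨0, 0⟩, ⟨2, -1⟩, 1, 0, 1, ⟨0, 1⟩, 1, 0⟩]⟩]⟩,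
  ⟨⟨2, 0⟩, 0, [
    ⟨4, -6, ⟨48, 5⟩, -6, ⟨24, 4⟩, [⟨⟨0, 0⟩, ⟨0, 1⟩, 80, 0, 0, ⟨0, 0⟩, 1, 0⟩, ⟨⟨0, 1⟩, ⟨2, -1⟩, 14, 2, 1, ⟨0, 0⟩, 1, 0⟩]⟩,
    ⟨3, -6, ⟨24, -2⟩, 6, ⟨36, 4⟩, [⟨⟨0, 0⟩, ⟨2, 0⟩, 10, 0, 1, ⟨0, 0⟩, 1, 0⟩]⟩,
    ⟨1, 12, ⟨24, 9⟩, -6, ⟨24, -3⟩, [⟨⟨0, 0⟩, ⟨2, 0⟩, 9, 2, 1, ⟨0, 0⟩, 1, 0⟩]⟩]⟩,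
  ⟨⟨2, 0⟩, 0, [
    ⟨1, 6, ⟨0, 2⟩, -6, ⟨24, -2⟩, [⟨⟨0, 0⟩, ⟨0, 1⟩, 72, 2, 0, ⟨0, 0⟩, 1, 0⟩, ⟨⟨0, 1⟩, ⟨2, -1⟩, 15, 2, 1, ⟨0, 0⟩, 1, 0⟩]⟩,
    ⟨3, 6, ⟨24, 7⟩, 6, ⟨24, 3⟩, [⟨⟨0, 0⟩, ⟨2, 0⟩, 11, 0, 1, ⟨0, 0⟩, 1, 0⟩]⟩,
    ⟨4, -12, ⟨24, -3⟩, -6, ⟨24, 3⟩, [⟨⟨0, 0⟩, ⟨2, 0⟩, 8, 2, 1, ⟨0, 0⟩, 1, 0⟩]⟩]⟩,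
  ⟨⟨2, 0⟩, 0, [
    ⟨1, 6, ⟨24, 8⟩, -6, ⟨24, -4⟩, [⟨⟨0, 0⟩, ⟨2, 0⟩, 8, 1, 1, ⟨0, 0⟩, 1, 0⟩]⟩,
    ⟨3, -12, ⟨24, -6⟩, 6, ⟨36, 5⟩, [⟨⟨0, 0⟩, ⟨2, 0⟩, 11, 1, 1, ⟨0, 0⟩, 1, 0⟩]⟩,
    ⟨3, 6, ⟨0, 4⟩, 6, ⟨24, 5⟩, [⟨⟨0, 0⟩, ⟨2, -1⟩, 12, 0, 1, ⟨0, 0⟩, 1, 0⟩, ⟨⟨2, -1⟩, ⟨0, 1⟩, 53, 0, 0, ⟨0, 0⟩, 1, 0⟩]⟩]⟩,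
  ⟨⟨2, 0⟩, 0, [
    ⟨4, -6, ⟨24, -1⟩, -6, ⟨24, 2⟩, [⟨⟨0, 0⟩, ⟨2, 0⟩, 9, 1, 1, ⟨0, 0⟩, 1, 0⟩]⟩,
    ⟨3, 12, ⟨24, 12⟩, 6, ⟨24, 4⟩, [⟨⟨0, 0⟩, ⟨2, 0⟩, 10, 1, 1, ⟨0, 0⟩, 1, 0⟩]⟩,
    ⟨3, -6, ⟨48, 1⟩, 6, ⟨36, 6⟩, [⟨⟨0, 0⟩, ⟨2, -1⟩, 13, 0, 1, ⟨0, 0⟩, 1, 0⟩, ⟨⟨2, -1⟩, ⟨0, 1⟩, 62, 2, 0, ⟨0, 0⟩, 1, 0⟩]⟩]⟩,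
  ⟨⟨2, -1⟩, 0, [
    ⟨1, -6, ⟨48, 2⟩, -6, ⟨24, -5⟩, [⟨⟨0, 0⟩, ⟨2, -1⟩, 10, 2, 1, ⟨0, 0⟩, 1, 0⟩]⟩,
    ⟨3, -6, ⟨24, -5⟩, 6, ⟨24, 6⟩, [⟨⟨0, 0⟩, ⟨2, -1⟩, 14, 0, 1, ⟨0, 0⟩, 1, 0⟩]⟩,
    ⟨4, 12, ⟨24, 15⟩, -6, ⟨24, 0⟩, [⟨⟨0, 0⟩, ⟨2, -1⟩, 13, 2, 1, ⟨0, 0⟩, 1, 0⟩]⟩]⟩,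
  ⟨⟨2, -1⟩, 0, [
    ⟨4, 6, ⟨0, 5⟩, -6, ⟨24, 1⟩, [⟨⟨0, 0⟩, ⟨2, -1⟩, 11, 2, 1, ⟨0, 0⟩, 1, 0⟩]⟩,
    ⟨3, 6, ⟨24, 10⟩, 6, ⟨36, 7⟩, [⟨⟨0, 0⟩, ⟨2, -1⟩, 15, 0, 1, ⟨0, 0⟩, 1, 0⟩]⟩,
    ⟨1, -12, ⟨24, -9⟩, -6, ⟨24, -6⟩, [⟨⟨0, 0⟩, ⟨2, -1⟩, 12, 2, 1, ⟨0, 0⟩, 1, 0⟩]⟩]⟩,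
  ⟨⟨2, -1⟩, 0, [
    ⟨4, 6, ⟨24, 11⟩, -6, ⟨24, -1⟩, [⟨⟨0, 0⟩, ⟨2, -1⟩, 12, 1, 1, ⟨0, 0⟩, 1, 0⟩]⟩,
    ⟨3, -12, ⟨24, -12⟩, 6, ⟨24, 7⟩, [⟨⟨0, 0⟩, ⟨2, -1⟩, 15, 1, 1, ⟨0, 0⟩, 1, 0⟩]⟩,
    ⟨3, 6, ⟨0, 7⟩, 6, ⟨36, 9⟩, [⟨⟨0, 0⟩, ⟨2, -1⟩, 8, 0, 1, ⟨0, 1⟩, 1, 0⟩]⟩]⟩,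
  ⟨⟨2, -1⟩, 0, [
    ⟨1, -6, ⟨24, -4⟩, -6, ⟨24, -7⟩, [⟨⟨0, 0⟩, ⟨2, -1⟩, 13, 1, 1, ⟨0, 0⟩, 1, 0⟩]⟩,
    ⟨3, 12, ⟨24, 18⟩, 6, ⟨36, 8⟩, [⟨⟨0, 0⟩, ⟨2, -1⟩, 14, 1, 1, ⟨0, 0⟩, 1, 0⟩]⟩,
    ⟨3, -6, ⟨48, -2⟩, 6, ⟨24, 8⟩, [⟨⟨0, 0⟩, ⟨2, -1⟩, 9, 0, 1, ⟨0, 1⟩, 1, 0⟩]⟩]⟩,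
  ⟨⟨2, 0⟩, 0, [
    ⟨5, -6, ⟨48, 5⟩, -6, ⟨12, -2⟩, [⟨⟨0, 0⟩, ⟨0, 1⟩, 65, 1, 0, ⟨0, 0⟩, 1, 0⟩, ⟨⟨0, 1⟩, ⟨2, -1⟩, 22, 2, 1, ⟨0, 0⟩, 1, 0⟩]⟩,
    ⟨4, -6, ⟨24, -2⟩, 6, ⟨36, 7⟩, [⟨⟨0, 0⟩, ⟨2, 0⟩, 18, 0, 1, ⟨0, 0⟩, 1, 0⟩]⟩,
    ⟨2, 12, ⟨24, 9⟩, -6, ⟨48, 1⟩, [⟨⟨0, 0⟩, ⟨2, 0⟩, 17, 2, 1, ⟨0, 0⟩, 1, 0⟩]⟩]⟩,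
  ⟨⟨2, 0⟩, 0, [
    ⟨2, 6, ⟨0, 2⟩, -6, ⟨48, 2⟩, [⟨⟨0, 0⟩, ⟨0, 1⟩, 74, 1, 0, ⟨0, 0⟩, 1, 0⟩, ⟨⟨0, 1⟩, ⟨2, -1⟩, 23, 2, 1, ⟨0, 0⟩, 1, 0⟩]⟩,
    ⟨4, 6, ⟨24, 7⟩, 6, ⟨0, 4⟩, [⟨⟨0, 0⟩, ⟨2, 0⟩, 19, 0, 1, ⟨0, 0⟩, 1, 0⟩]⟩,
    ⟨5, -12, ⟨24, -3⟩, -6, ⟨12, -3⟩, [⟨⟨0, 0⟩, ⟨2, 0⟩, 16, 2, 1, ⟨0, 0⟩, 1, 0⟩]⟩]⟩,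
  ⟨⟨2, 0⟩, 0, [
    ⟨2, 6, ⟨24, 8⟩, -6, ⟨48, 0⟩, [⟨⟨0, 0⟩, ⟨2, 0⟩, 16, 1, 1, ⟨0, 0⟩, 1, 0⟩]⟩,
    ⟨4, -12, ⟨24, -6⟩, 6, ⟨36, 8⟩, [⟨⟨0, 0⟩, ⟨2, 0⟩, 19, 1, 1, ⟨0, 0⟩, 1, 0⟩]⟩,
    ⟨4, 6, ⟨0, 4⟩, 6, ⟨0, 6⟩, [⟨⟨0, 0⟩, ⟨2, -1⟩, 20, 0, 1, ⟨0, 0⟩, 1, 0⟩, ⟨⟨2, -1⟩, ⟨0, 1⟩, 79, 1, 0, ⟨0, 0⟩, 1, 0⟩]⟩]⟩,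
  ⟨⟨2, 0⟩, 0, [
    ⟨5, -6, ⟨24, -1⟩, -6, ⟨12, -4⟩, [⟨⟨0, 0⟩, ⟨2, 0⟩, 17, 1, 1, ⟨0, 0⟩, 1, 0⟩]⟩,
    ⟨4, 12, ⟨24, 12⟩, 6, ⟨0, 5⟩, [⟨⟨0, 0⟩, ⟨2, 0⟩, 18, 1, 1, ⟨0, 0⟩, 1, 0⟩]⟩,
    ⟨4, -6, ⟨48, 1⟩, 6, ⟨36, 9⟩, [⟨⟨0, 0⟩, ⟨2, -1⟩, 21, 0, 1, ⟨0, 0⟩, 1, 0⟩, ⟨⟨2, -1⟩, ⟨0, 1⟩, 50, 1, 0, ⟨0, 0⟩, 1, 0⟩]⟩]⟩,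
  ⟨⟨2, -1⟩, 0, [
    ⟨2, -6, ⟨48, 2⟩, -6, ⟨48, -1⟩, [⟨⟨0, 0⟩, ⟨2, -1⟩, 18, 2, 1, ⟨0, 0⟩, 1, 0⟩]⟩,
    ⟨4, -6, ⟨24, -5⟩, 6, ⟨0, 7⟩, [⟨⟨0, 0⟩, ⟨2, -1⟩, 22, 0, 1, ⟨0, 0⟩, 1, 0⟩]⟩,
    ⟨5, 12, ⟨24, 15⟩, -6, ⟨12, -6⟩, [⟨⟨0, 0⟩, ⟨2, -1⟩, 21, 2, 1, ⟨0, 0⟩, 1, 0⟩]⟩]⟩,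
  ⟨⟨2, -1⟩, 0, [
    ⟨5, 6, ⟨0, 5⟩, -6, ⟨12, -5⟩, [⟨⟨0, 0⟩, ⟨2, -1⟩, 19, 2, 1, ⟨0, 0⟩, 1, 0⟩]⟩,
    ⟨4, 6, ⟨24, 10⟩, 6, ⟨36, 10⟩, [⟨⟨0, 0⟩, ⟨2, -1⟩, 23, 0, 1, ⟨0, 0⟩, 1, 0⟩]⟩,
    ⟨2, -12, ⟨24, -9⟩, -6, ⟨48, -2⟩, [⟨⟨0, 0⟩, ⟨2, -1⟩, 20, 2, 1, ⟨0, 0⟩, 1, 0⟩]⟩]⟩,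
  ⟨⟨2, -1⟩, 0, [
    ⟨5, 6, ⟨24, 11⟩, -6, ⟨12, -7⟩, [⟨⟨0, 0⟩, ⟨2, -1⟩, 20, 1, 1, ⟨0, 0⟩, 1, 0⟩]⟩,
    ⟨4, -12, ⟨24, -12⟩, 6, ⟨0, 8⟩, [⟨⟨0, 0⟩, ⟨2, -1⟩, 23, 1, 1, ⟨0, 0⟩, 1, 0⟩]⟩,
    ⟨4, 6, ⟨0, 7⟩, 6, ⟨36, 12⟩, [⟨⟨0, 0⟩, ⟨2, -1⟩, 16, 0, 1, ⟨0, 1⟩, 1, 0⟩]⟩]⟩,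
  ⟨⟨2, -1⟩, 0, [
    ⟨2, -6, ⟨24, -4⟩, -6, ⟨48, -3⟩, [⟨⟨0, 0⟩, ⟨2, -1⟩, 21, 1, 1, ⟨0, 0⟩, 1, 0⟩]⟩,
    ⟨4, 12, ⟨24, 18⟩, 6, ⟨36, 11⟩, [⟨⟨0, 0⟩, ⟨2, -1⟩, 22, 1, 1, ⟨0, 0⟩, 1, 0⟩]⟩,
    ⟨4, -6, ⟨48, -2⟩, 6, ⟨0, 9⟩, [⟨⟨0, 0⟩, ⟨2, -1⟩, 17, 0, 1, ⟨0, 1⟩, 1, 0⟩]⟩]⟩,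
  ⟨⟨2, 0⟩, 0, [
    ⟨0, -6, ⟨48, 5⟩, -6, ⟨36, 5⟩, [⟨⟨0, 0⟩, ⟨0, 1⟩, 65, 2, 0, ⟨0, 0⟩, 1, 0⟩, ⟨⟨0, 1⟩, ⟨2, -1⟩, 30, 2, 1, ⟨0, 0⟩, 1, 0⟩]⟩,
    ⟨5, -6, ⟨24, -2⟩, 6, ⟨12, 0⟩, [⟨⟨0, 0⟩, ⟨2, 0⟩, 26, 0, 1, ⟨0, 0⟩, 1, 0⟩]⟩,
    ⟨3, 12, ⟨24, 9⟩, -6, ⟨12, -2⟩, [⟨⟨0, 0⟩, ⟨2, 0⟩, 25, 2, 1, ⟨0, 0⟩, 1, 0⟩]⟩]⟩,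
  ⟨⟨2, 0⟩, 0, [
    ⟨3, 6, ⟨0, 2⟩, -6, ⟨12, -1⟩, [⟨⟨0, 0⟩, ⟨0, 1⟩, 58, 2, 0, ⟨0, 0⟩, 1, 0⟩, ⟨⟨0, 1⟩, ⟨2, -1⟩, 31, 2, 1, ⟨0, 0⟩, 1, 0⟩]⟩,
    ⟨5, 6, ⟨24, 7⟩, 6, ⟨36, 2⟩, [⟨⟨0, 0⟩, ⟨2, 0⟩, 27, 0, 1, ⟨0, 0⟩, 1, 0⟩]⟩,
    ⟨0, -12, ⟨24, -3⟩, -6, ⟨36, 4⟩, [⟨⟨0, 0⟩, ⟨2, 0⟩, 24, 2, 1, ⟨0, 0⟩, 1, 0⟩]⟩]⟩,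
  ⟨⟨2, 0⟩, 0, [
    ⟨3, 6, ⟨24, 8⟩, -6, ⟨12, -3⟩, [⟨⟨0, 0⟩, ⟨2, 0⟩, 24, 1, 1, ⟨0, 0⟩, 1, 0⟩]⟩,
    ⟨5, -12, ⟨24, -6⟩, 6, ⟨12, 1⟩, [⟨⟨0, 0⟩, ⟨2, 0⟩, 27, 1, 1, ⟨0, 0⟩, 1, 0⟩]⟩,
    ⟨5, 6, ⟨0, 4⟩, 6, ⟨36, 4⟩, [⟨⟨0, 0⟩, ⟨2, -1⟩, 28, 0, 1, ⟨0, 0⟩, 1, 0⟩, ⟨⟨2, -1⟩, ⟨0, 1⟩, 54, 1, 0, ⟨0, 0⟩, 1, 0⟩]⟩]⟩,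
  ⟨⟨2, 0⟩, 0, [
    ⟨0, -6, ⟨24, -1⟩, -6, ⟨36, 3⟩, [⟨⟨0, 0⟩, ⟨2, 0⟩, 25, 1, 1, ⟨0, 0⟩, 1, 0⟩]⟩,
    ⟨5, 12, ⟨24, 12⟩, 6, ⟨36, 3⟩, [⟨⟨0, 0⟩, ⟨2, 0⟩, 26, 1, 1, ⟨0, 0⟩, 1, 0⟩]⟩,
    ⟨5, -6, ⟨48, 1⟩, 6, ⟨12, 2⟩, [⟨⟨0, 0⟩, ⟨2, -1⟩, 29, 0, 1, ⟨0, 0⟩, 1, 0⟩, ⟨⟨2, -1⟩, ⟨0, 1⟩, 55, 0, 0, ⟨0, 0⟩, 1, 0⟩]⟩]⟩,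
  ⟨⟨2, -1⟩, 0, [
    ⟨3, -6, ⟨48, 2⟩, -6, ⟨12, -4⟩, [⟨⟨0, 0⟩, ⟨2, -1⟩, 26, 2, 1, ⟨0, 0⟩, 1, 0⟩]⟩,
    ⟨5, -6, ⟨24, -5⟩, 6, ⟨36, 5⟩, [⟨⟨0, 0⟩, ⟨2, -1⟩, 30, 0, 1, ⟨0, 0⟩, 1, 0⟩]⟩,
    ⟨0, 12, ⟨24, 15⟩, -6, ⟨36, 1⟩, [⟨⟨0, 0⟩, ⟨2, -1⟩, 29, 2, 1, ⟨0, 0⟩, 1, 0⟩]⟩]⟩,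
  ⟨⟨2, -1⟩, 0, [
    ⟨0, 6, ⟨0, 5⟩, -6, ⟨36, 2⟩, [⟨⟨0, 0⟩, ⟨2, -1⟩, 27, 2, 1, ⟨0, 0⟩, 1, 0⟩]⟩,
    ⟨5, 6, ⟨24, 10⟩, 6, ⟨12, 3⟩, [⟨⟨0, 0⟩, ⟨2, -1⟩, 31, 0, 1, ⟨0, 0⟩, 1, 0⟩]⟩,
    ⟨3, -12, ⟨24, -9⟩, -6, ⟨12, -5⟩, [⟨⟨0, 0⟩, ⟨2, -1⟩, 28, 2, 1, ⟨0, 0⟩, 1, 0⟩]⟩]⟩,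
  ⟨⟨2, -1⟩, 0, [
    ⟨0, 6, ⟨24, 11⟩, -6, ⟨36, 0⟩, [⟨⟨0, 0⟩, ⟨2, -1⟩, 28, 1, 1, ⟨0, 0⟩, 1, 0⟩]⟩,
    ⟨5, -12, ⟨24, -12⟩, 6, ⟨36, 6⟩, [⟨⟨0, 0⟩, ⟨2, -1⟩, 31, 1, 1, ⟨0, 0⟩, 1, 0⟩]⟩,
    ⟨5, 6, ⟨0, 7⟩, 6, ⟨12, 5⟩, [⟨⟨0, 0⟩, ⟨2, -1⟩, 24, 0, 1, ⟨0, 1⟩, 1, 0⟩]⟩]⟩,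
  ⟨⟨2, -1⟩, 0, [
    ⟨3, -6, ⟨24, -4⟩, -6, ⟨12, -6⟩, [⟨⟨0, 0⟩, ⟨2, -1⟩, 29, 1, 1, ⟨0, 0⟩, 1, 0⟩]⟩,
    ⟨5, 12, ⟨24, 18⟩, 6, ⟨12, 4⟩, [⟨⟨0, 0⟩, ⟨2, -1⟩, 30, 1, 1, ⟨0, 0⟩, 1, 0⟩]⟩,
    ⟨5, -6, ⟨48, -2⟩, 6, ⟨36, 7⟩, [⟨⟨0, 0⟩, ⟨2, -1⟩, 25, 0, 1, ⟨0, 1⟩, 1, 0⟩]⟩]⟩,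
  ⟨⟨2, 0⟩, 0, [
    ⟨1, -6, ⟨48, 5⟩, -6, ⟨12, -2⟩, [⟨⟨0, 0⟩, ⟨0, 1⟩, 66, 0, 0, ⟨0, 0⟩, 1, 0⟩, ⟨⟨0, 1⟩, ⟨2, -1⟩, 38, 2, 1, ⟨0, 0⟩, 1, 0⟩]⟩,
    ⟨0, -6, ⟨24, -2⟩, 6, ⟨0, 4⟩, [⟨⟨0, 0⟩, ⟨2, 0⟩, 34, 0, 1, ⟨0, 0⟩, 1, 0⟩]⟩,
    ⟨4, 12, ⟨24, 9⟩, -6, ⟨36, 4⟩, [⟨⟨0, 0⟩, ⟨2, 0⟩, 33, 2, 1, ⟨0, 0⟩, 1, 0⟩]⟩]⟩,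
  ⟨⟨2, 0⟩, 0, [
    ⟨4, 6, ⟨0, 2⟩, -6, ⟨36, 5⟩, [⟨⟨0, 0⟩, ⟨0, 1⟩, 65, 0, 0, ⟨0, 0⟩, 1, 0⟩, ⟨⟨0, 1⟩, ⟨2, -1⟩, 39, 2, 1, ⟨0, 0⟩, 1, 0⟩]⟩,
    ⟨0, 6, ⟨24, 7⟩, 6, ⟨36, 7⟩, [⟨⟨0, 0⟩, ⟨2, 0⟩, 35, 0, 1, ⟨0, 0⟩, 1, 0⟩]⟩,
    ⟨1, -12, ⟨24, -3⟩, -6, ⟨12, -3⟩, [⟨⟨0, 0⟩, ⟨2, 0⟩, 32, 2, 1, ⟨0, 0⟩, 1, 0⟩]⟩]⟩,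
  ⟨⟨2, 0⟩, 0, [
    ⟨4, 6, ⟨24, 8⟩, -6, ⟨36, 3⟩, [⟨⟨0, 0⟩, ⟨2, 0⟩, 32, 1, 1, ⟨0, 0⟩, 1, 0⟩]⟩,
    ⟨0, -12, ⟨24, -6⟩, 6, ⟨0, 5⟩, [⟨⟨0, 0⟩, ⟨2, 0⟩, 35, 1, 1, ⟨0, 0⟩, 1, 0⟩]⟩,
    ⟨0, 6, ⟨0, 4⟩, 6, ⟨36, 9⟩, [⟨⟨0, 0⟩, ⟨2, -1⟩, 36, 0, 1, ⟨0, 0⟩, 1, 0⟩, ⟨⟨2, -1⟩, ⟨0, 1⟩, 78, 2, 0, ⟨0, 0⟩, 1, 0⟩]⟩]⟩,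
  ⟨⟨2, 0⟩, 0, [
    ⟨1, -6, ⟨24, -1⟩, -6, ⟨12, -4⟩, [⟨⟨0, 0⟩, ⟨2, 0⟩, 33, 1, 1, ⟨0, 0⟩, 1, 0⟩]⟩,
    ⟨0, 12, ⟨24, 12⟩, 6, ⟨36, 8⟩, [⟨⟨0, 0⟩, ⟨2, 0⟩, 34, 1, 1, ⟨0, 0⟩, 1, 0⟩]⟩,
    ⟨0, -6, ⟨48, 1⟩, 6, ⟨0, 6⟩, [⟨⟨0, 0⟩, ⟨2, -1⟩, 37, 0, 1, ⟨0, 0⟩, 1, 0⟩, ⟨⟨2, -1⟩, ⟨0, 1⟩, 59, 2, 0, ⟨0, 0⟩, 1, 0⟩]⟩]⟩,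
  ⟨⟨2, -1⟩, 0, [
    ⟨4, -6, ⟨48, 2⟩, -6, ⟨36, 2⟩, [⟨⟨0, 0⟩, ⟨2, -1⟩, 34, 2, 1, ⟨0, 0⟩, 1, 0⟩]⟩,
    ⟨0, -6, ⟨24, -5⟩, 6, ⟨36, 10⟩, [⟨⟨0, 0⟩, ⟨2, -1⟩, 38, 0, 1, ⟨0, 0⟩, 1, 0⟩]⟩,
    ⟨1, 12, ⟨24, 15⟩, -6, ⟨12, -6⟩, [⟨⟨0, 0⟩, ⟨2, -1⟩, 37, 2, 1, ⟨0, 0⟩, 1, 0⟩]⟩]⟩,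
  ⟨⟨2, -1⟩, 0, [
    ⟨1, 6, ⟨0, 5⟩, -6, ⟨12, -5⟩, [⟨⟨0, 0⟩, ⟨2, -1⟩, 35, 2, 1, ⟨0, 0⟩, 1, 0⟩]⟩,
    ⟨0, 6, ⟨24, 10⟩, 6, ⟨0, 7⟩, [⟨⟨0, 0⟩, ⟨2, -1⟩, 39, 0, 1, ⟨0, 0⟩, 1, 0⟩]⟩,
    ⟨4, -12, ⟨24, -9⟩, -6, ⟨36, 1⟩, [⟨⟨0, 0⟩, ⟨2, -1⟩, 36, 2, 1, ⟨0, 0⟩, 1, 0⟩]⟩]⟩,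
  ⟨⟨2, -1⟩, 0, [
    ⟨1, 6, ⟨24, 11⟩, -6, ⟨12, -7⟩, [⟨⟨0, 0⟩, ⟨2, -1⟩, 36, 1, 1, ⟨0, 0⟩, 1, 0⟩]⟩,
    ⟨0, -12, ⟨24, -12⟩, 6, ⟨36, 11⟩, [⟨⟨0, 0⟩, ⟨2, -1⟩, 39, 1, 1, ⟨0, 0⟩, 1, 0⟩]⟩,
    ⟨0, 6, ⟨0, 7⟩, 6, ⟨0, 9⟩, [⟨⟨0, 0⟩, ⟨2, -1⟩, 32, 0, 1, ⟨0, 1⟩, 1, 0⟩]⟩]⟩,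
  ⟨⟨2, -1⟩, 0, [
    ⟨4, -6, ⟨24, -4⟩, -6, ⟨36, 0⟩, [⟨⟨0, 0⟩, ⟨2, -1⟩, 37, 1, 1, ⟨0, 0⟩, 1, 0⟩]⟩,
    ⟨0, 12, ⟨24, 18⟩, 6, ⟨0, 8⟩, [⟨⟨0, 0⟩, ⟨2, -1⟩, 38, 1, 1, ⟨0, 0⟩, 1, 0⟩]⟩,
    ⟨0, -6, ⟨48, -2⟩, 6, ⟨36, 12⟩, [⟨⟨0, 0⟩, ⟨2, -1⟩, 33, 0, 1, ⟨0, 1⟩, 1, 0⟩]⟩]⟩,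
  ⟨⟨2, 0⟩, 0, [
    ⟨2, -6, ⟨48, 5⟩, -6, ⟨12, 0⟩, [⟨⟨0, 0⟩, ⟨0, 1⟩, 72, 0, 0, ⟨0, 0⟩, 1, 0⟩, ⟨⟨0, 1⟩, ⟨2, -1⟩, 46, 2, 1, ⟨0, 0⟩, 1, 0⟩]⟩,
    ⟨1, -6, ⟨24, -2⟩, 6, ⟨24, 0⟩, [⟨⟨0, 0⟩, ⟨2, 0⟩, 42, 0, 1, ⟨0, 0⟩, 1, 0⟩]⟩,
    ⟨5, 12, ⟨24, 9⟩, -6, ⟨36, -6⟩, [⟨⟨0, 0⟩, ⟨2, 0⟩, 41, 2, 1, ⟨0, 0⟩, 1, 0⟩]⟩]⟩,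
  ⟨⟨2, 0⟩, 0, [
    ⟨5, 6, ⟨0, 2⟩, -6, ⟨36, -5⟩, [⟨⟨0, 0⟩, ⟨0, 1⟩, 67, 0, 0, ⟨0, 0⟩, 1, 0⟩, ⟨⟨0, 1⟩, ⟨2, -1⟩, 47, 2, 1, ⟨0, 0⟩, 1, 0⟩]⟩,
    ⟨1, 6, ⟨24, 7⟩, 6, ⟨36, 5⟩, [⟨⟨0, 0⟩, ⟨2, 0⟩, 43, 0, 1, ⟨0, 0⟩, 1, 0⟩]⟩,
    ⟨2, -12, ⟨24, -3⟩, -6, ⟨12, -1⟩, [⟨⟨0, 0⟩, ⟨2, 0⟩, 40, 2, 1, ⟨0, 0⟩, 1, 0⟩]⟩]⟩,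
  ⟨⟨2, 0⟩, 0, [
    ⟨5, 6, ⟨24, 8⟩, -6, ⟨36, -7⟩, [⟨⟨0, 0⟩, ⟨2, 0⟩, 40, 1, 1, ⟨0, 0⟩, 1, 0⟩]⟩,
    ⟨1, -12, ⟨24, -6⟩, 6, ⟨24, 1⟩, [⟨⟨0, 0⟩, ⟨2, 0⟩, 43, 1, 1, ⟨0, 0⟩, 1, 0⟩]⟩,
    ⟨1, 6, ⟨0, 4⟩, 6, ⟨36, 7⟩, [⟨⟨0, 0⟩, ⟨2, -1⟩, 44, 0, 1, ⟨0, 0⟩, 1, 0⟩, ⟨⟨2, -1⟩, ⟨0, 1⟩, 71, 2, 0, ⟨0, 0⟩, 1, 0⟩]⟩]⟩,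
  ⟨⟨2, 0⟩, 0, [
    ⟨2, -6, ⟨24, -1⟩, -6, ⟨12, -2⟩, [⟨⟨0, 0⟩, ⟨2, 0⟩, 41, 1, 1, ⟨0, 0⟩, 1, 0⟩]⟩,
    ⟨1, 12, ⟨24, 12⟩, 6, ⟨36, 6⟩, [⟨⟨0, 0⟩, ⟨2, 0⟩, 42, 1, 1, ⟨0, 0⟩, 1, 0⟩]⟩,
    ⟨1, -6, ⟨48, 1⟩, 6, ⟨24, 2⟩, [⟨⟨0, 0⟩, ⟨2, -1⟩, 45, 0, 1, ⟨0, 0⟩, 1, 0⟩, ⟨⟨2, -1⟩, ⟨0, 1⟩, 75, 1, 0, ⟨0, 0⟩, 1, 0⟩]⟩]⟩,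
  ⟨⟨2, -1⟩, 0, [
    ⟨5, -6, ⟨48, 2⟩, -6, ⟨36, -8⟩, [⟨⟨0, 0⟩, ⟨2, -1⟩, 42, 2, 1, ⟨0, 0⟩, 1, 0⟩]⟩,
    ⟨1, -6, ⟨24, -5⟩, 6, ⟨36, 8⟩, [⟨⟨0, 0⟩, ⟨2, -1⟩, 46, 0, 1, ⟨0, 0⟩, 1, 0⟩]⟩,
    ⟨2, 12, ⟨24, 15⟩, -6, ⟨12, -4⟩, [⟨⟨0, 0⟩, ⟨2, -1⟩, 45, 2, 1, ⟨0, 0⟩, 1, 0⟩]⟩]⟩,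
  ⟨⟨2, -1⟩, 0, [
    ⟨2, 6, ⟨0, 5⟩, -6, ⟨12, -3⟩, [⟨⟨0, 0⟩, ⟨2, -1⟩, 43, 2, 1, ⟨0, 0⟩, 1, 0⟩]⟩,
    ⟨1, 6, ⟨24, 10⟩, 6, ⟨24, 3⟩, [⟨⟨0, 0⟩, ⟨2, -1⟩, 47, 0, 1, ⟨0, 0⟩, 1, 0⟩]⟩,
    ⟨5, -12, ⟨24, -9⟩, -6, ⟨36, -9⟩, [⟨⟨0, 0⟩, ⟨2, -1⟩, 44, 2, 1, ⟨0, 0⟩, 1, 0⟩]⟩]⟩,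
  ⟨⟨2, -1⟩, 0, [
    ⟨2, 6, ⟨24, 11⟩, -6, ⟨12, -5⟩, [⟨⟨0, 0⟩, ⟨2, -1⟩, 44, 1, 1, ⟨0, 0⟩, 1, 0⟩]⟩,
    ⟨1, -12, ⟨24, -12⟩, 6, ⟨36, 9⟩, [⟨⟨0, 0⟩, ⟨2, -1⟩, 47, 1, 1, ⟨0, 0⟩, 1, 0⟩]⟩,
    ⟨1, 6, ⟨0, 7⟩, 6, ⟨24, 5⟩, [⟨⟨0, 0⟩, ⟨2, -1⟩, 40, 0, 1, ⟨0, 1⟩, 1, 0⟩]⟩]⟩,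
  ⟨⟨2, -1⟩, 0, [
    ⟨5, -6, ⟨24, -4⟩, -6, ⟨36, -10⟩, [⟨⟨0, 0⟩, ⟨2, -1⟩, 45, 1, 1, ⟨0, 0⟩, 1, 0⟩]⟩,
    ⟨1, 12, ⟨24, 18⟩, 6, ⟨24, 4⟩, [⟨⟨0, 0⟩, ⟨2, -1⟩, 46, 1, 1, ⟨0, 0⟩, 1, 0⟩]⟩,
    ⟨1, -6, ⟨48, -2⟩, 6, ⟨36, 10⟩, [⟨⟨0, 0⟩, ⟨2, -1⟩, 41, 0, 1, ⟨0, 1⟩, 1, 0⟩]⟩]⟩,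
  ⟨⟨0, 1⟩, 3, [
    ⟨0, 0, ⟨12, 1⟩, 0, ⟨0, 0⟩, [⟨⟨0, 0⟩, ⟨0, 1⟩, 60, 2, 0, ⟨0, 0⟩, 1, 0⟩]⟩,
    ⟨1, 0, ⟨12, 2⟩, 0, ⟨0, 0⟩, [⟨⟨0, 0⟩, ⟨0, 1⟩, 59, 1, 0, ⟨0, 0⟩, 1, 0⟩]⟩,
    ⟨3, 0, ⟨24, 5⟩, 0, ⟨0, 0⟩, [⟨⟨0, 0⟩, ⟨0, 1⟩, 49, 0, 0, ⟨0, 0⟩, 1, 0⟩]⟩,
    ⟨2, 0, ⟨0, 3⟩, 0, ⟨0, 0⟩, [⟨⟨0, 0⟩, ⟨0, 1⟩, 69, 1, 0, ⟨0, 0⟩, 1, 0⟩]⟩,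
    ⟨5, 0, ⟨36, 5⟩, 0, ⟨0, 0⟩, [⟨⟨0, 0⟩, ⟨0, 1⟩, 50, 0, 0, ⟨0, 0⟩, 1, 0⟩]⟩,
    ⟨4, 0, ⟨12, 2⟩, 0, ⟨0, 0⟩, [⟨⟨0, 0⟩, ⟨0, 1⟩, 78, 0, 0, ⟨0, 0⟩, 1, 0⟩]⟩]⟩,
  ⟨⟨0, 1⟩, 1, [
    ⟨2, 0, ⟨24, 1⟩, 0, ⟨48, 4⟩, [⟨⟨0, 0⟩, ⟨0, 1⟩, 48, 2, 0, ⟨0, 0⟩, 1, 1⟩]⟩,
    ⟨3, 0, ⟨0, 3⟩, 0, ⟨0, 1⟩, [⟨⟨0, 0⟩, ⟨0, 1⟩, 54, 0, 0, ⟨0, 0⟩, 1, 0⟩]⟩,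
    ⟨0, 0, ⟨24, 1⟩, 0, ⟨24, 7⟩, [⟨⟨0, 0⟩, ⟨0, 1⟩, 55, 2, 0, ⟨0, 0⟩, 1, 0⟩]⟩,
    ⟨1, 0, ⟨24, 1⟩, 0, ⟨36, 0⟩, [⟨⟨0, 0⟩, ⟨0, 1⟩, 74, 2, 0, ⟨0, 0⟩, 1, 0⟩]⟩]⟩,
  ⟨⟨0, 1⟩, 2, [
    ⟨4, 0, ⟨12, 1⟩, 0, ⟨48, 4⟩, [⟨⟨0, 0⟩, ⟨0, 1⟩, 48, 4, 0, ⟨0, 0⟩, 1, 1⟩]⟩,
    ⟨5, 0, ⟨12, -1⟩, 0, ⟨0, 1⟩, [⟨⟨0, 0⟩, ⟨0, 1⟩, 19, 2, 0, ⟨2, -1⟩, 1, 0⟩]⟩]⟩,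
  ⟨⟨0, 1⟩, 0, [
    ⟨0, 0, ⟨36, 5⟩, 0, ⟨24, 5⟩, [⟨⟨0, 0⟩, ⟨0, 1⟩, 54, 2, 0, ⟨0, 0⟩, 1, 0⟩]⟩,
    ⟨5, 0, ⟨36, 4⟩, 0, ⟨48, 0⟩, [⟨⟨0, 0⟩, ⟨0, 1⟩, 62, 0, 0, ⟨0, 0⟩, 1, 0⟩]⟩,
    ⟨3, 0, ⟨24, 3⟩, 0, ⟨48, 2⟩, [⟨⟨0, 0⟩, ⟨0, 1⟩, 57, 0, 0, ⟨0, 0⟩, 1, 0⟩]⟩]⟩,
  ⟨⟨0, 1⟩, 0, [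
    ⟨2, 0, ⟨24, 6⟩, 0, ⟨36, 4⟩, [⟨⟨0, 0⟩, ⟨0, 1⟩, 79, 0, 0, ⟨0, 0⟩, 1, 0⟩]⟩,
    ⟨2, 0, ⟨48, 3⟩, 0, ⟨36, 2⟩, [⟨⟨0, 0⟩, ⟨0, 1⟩, 70, 2, 0, ⟨0, 0⟩, 1, 0⟩]⟩,
    ⟨5, 0, ⟨24, 3⟩, 0, ⟨36, -1⟩, [⟨⟨0, 0⟩, ⟨0, 1⟩, 70, 0, 0, ⟨0, 0⟩, 1, 0⟩]⟩]⟩,
  ⟨⟨0, 1⟩, 0, [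
    ⟨1, 0, ⟨36, 8⟩, 0, ⟨12, 1⟩, [⟨⟨0, 0⟩, ⟨0, 1⟩, 10, 2, 0, ⟨2, -1⟩, 1, 0⟩]⟩,
    ⟨3, 0, ⟨12, 1⟩, 0, ⟨36, 0⟩, [⟨⟨0, 0⟩, ⟨0, 1⟩, 61, 1, 0, ⟨0, 0⟩, 1, 0⟩]⟩,
    ⟨4, 0, ⟨48, 3⟩, 0, ⟨12, 5⟩, [⟨⟨0, 0⟩, ⟨0, 1⟩, 64, 0, 0, ⟨0, 0⟩, 1, 0⟩]⟩]⟩,
  ⟨⟨0, 1⟩, 0, [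
    ⟨0, 0, ⟨48, 3⟩, 0, ⟨24, 6⟩, [⟨⟨0, 0⟩, ⟨0, 1⟩, 49, 1, 0, ⟨0, 0⟩, 1, 0⟩]⟩,
    ⟨3, 0, ⟨36, 8⟩, 0, ⟨0, 2⟩, [⟨⟨0, 0⟩, ⟨0, 1⟩, 26, 2, 0, ⟨2, -1⟩, 1, 0⟩]⟩,
    ⟨5, 0, ⟨12, 1⟩, 0, ⟨48, -1⟩, [⟨⟨0, 0⟩, ⟨0, 1⟩, 51, 0, 0, ⟨0, 0⟩, 1, 0⟩]⟩]⟩,
  ⟨⟨0, 1⟩, 0, [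
    ⟨0, 0, ⟨12, -1⟩, 0, ⟨24, 8⟩, [⟨⟨0, 0⟩, ⟨0, 1⟩, 27, 2, 0, ⟨2, -1⟩, 1, 0⟩]⟩,
    ⟨5, 0, ⟨12, 2⟩, 0, ⟨24, -3⟩, [⟨⟨0, 0⟩, ⟨0, 1⟩, 71, 1, 0, ⟨0, 0⟩, 1, 0⟩]⟩,
    ⟨1, 0, ⟨24, 5⟩, 0, ⟨36, -1⟩, [⟨⟨0, 0⟩, ⟨0, 1⟩, 49, 2, 0, ⟨0, 0⟩, 1, 0⟩]⟩]⟩,
  ⟨⟨0, 1⟩, 0, [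
    ⟨0, 0, ⟨12, 2⟩, 0, ⟨24, 2⟩, [⟨⟨0, 0⟩, ⟨0, 1⟩, 77, 2, 0, ⟨0, 0⟩, 1, 0⟩]⟩,
    ⟨2, 0, ⟨12, 2⟩, 0, ⟨36, 0⟩, [⟨⟨0, 0⟩, ⟨0, 1⟩, 79, 2, 0, ⟨0, 0⟩, 1, 0⟩]⟩,
    ⟨4, 0, ⟨24, 2⟩, 0, ⟨12, 2⟩, [⟨⟨0, 0⟩, ⟨0, 1⟩, 68, 0, 0, ⟨0, 0⟩, 1, 0⟩]⟩]⟩,
  ⟨⟨0, 1⟩, 0, [
    ⟨0, 0, ⟨24, 3⟩, 0, ⟨24, 4⟩, [⟨⟨0, 0⟩, ⟨0, 1⟩, 51, 2, 0, ⟨0, 0⟩, 1, 0⟩]⟩,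
    ⟨3, 0, ⟨48, 3⟩, 0, ⟨48, 3⟩, [⟨⟨0, 0⟩, ⟨0, 1⟩, 59, 0, 0, ⟨0, 0⟩, 1, 0⟩]⟩,
    ⟨0, 0, ⟨24, 6⟩, 0, ⟨12, 2⟩, [⟨⟨0, 0⟩, ⟨0, 1⟩, 77, 0, 0, ⟨0, 0⟩, 1, 0⟩]⟩]⟩,
  ⟨⟨0, 1⟩, 0, [
    ⟨3, 0, ⟨24, 2⟩, 0, ⟨12, 0⟩, [⟨⟨0, 0⟩, ⟨0, 1⟩, 67, 1, 0, ⟨0, 0⟩, 1, 0⟩]⟩,
    ⟨5, 0, ⟨24, 6⟩, 0, ⟨36, -3⟩, [⟨⟨0, 0⟩, ⟨0, 1⟩, 70, 1, 0, ⟨0, 0⟩, 1, 0⟩]⟩,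
    ⟨5, 0, ⟨48, 4⟩, 0, ⟨36, 1⟩, [⟨⟨0, 0⟩, ⟨0, 1⟩, 25, 0, 0, ⟨0, 0⟩, 1, 0⟩]⟩]⟩,
  ⟨⟨0, 1⟩, 0, [
    ⟨0, 0, ⟨0, 3⟩, 0, ⟨12, 1⟩, [⟨⟨0, 0⟩, ⟨0, 1⟩, 57, 1, 0, ⟨0, 0⟩, 1, 0⟩]⟩,
    ⟨3, 0, ⟨36, 4⟩, 0, ⟨48, 4⟩, [⟨⟨0, 0⟩, ⟨0, 1⟩, 48, 1, 0, ⟨0, 0⟩, 1, 1⟩]⟩,
    ⟨1, 0, ⟨12, -1⟩, 0, ⟨0, 1⟩, [⟨⟨0, 0⟩, ⟨0, 1⟩, 35, 2, 0, ⟨2, -1⟩, 1, 0⟩]⟩]⟩,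
  ⟨⟨0, 1⟩, 0, [
    ⟨0, 0, ⟨24, 2⟩, 0, ⟨0, 1⟩, [⟨⟨0, 0⟩, ⟨0, 1⟩, 69, 2, 0, ⟨0, 0⟩, 1, 0⟩]⟩,
    ⟨2, 0, ⟨36, 5⟩, 0, ⟨0, 2⟩, [⟨⟨0, 0⟩, ⟨0, 1⟩, 75, 0, 0, ⟨0, 0⟩, 1, 0⟩]⟩,
    ⟨1, 0, ⟨36, 5⟩, 0, ⟨48, 4⟩, [⟨⟨0, 0⟩, ⟨0, 1⟩, 48, 0, 0, ⟨0, 0⟩, 1, 1⟩]⟩]⟩,
  ⟨⟨0, 1⟩, 0, [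
    ⟨2, 0, ⟨24, 2⟩, 0, ⟨24, 0⟩, [⟨⟨0, 0⟩, ⟨0, 1⟩, 68, 1, 0, ⟨0, 0⟩, 1, 0⟩]⟩,
    ⟨4, 0, ⟨36, 5⟩, 0, ⟨12, 4⟩, [⟨⟨0, 0⟩, ⟨0, 1⟩, 53, 1, 0, ⟨0, 0⟩, 1, 0⟩]⟩,
    ⟨3, 0, ⟨36, 5⟩, 0, ⟨36, 1⟩, [⟨⟨0, 0⟩, ⟨0, 1⟩, 76, 0, 0, ⟨0, 0⟩, 1, 0⟩]⟩]⟩,
  ⟨⟨0, 1⟩, 0, [
    ⟨3, 0, ⟨12, 2⟩, 0, ⟨48, 1⟩, [⟨⟨0, 0⟩, ⟨0, 1⟩, 51, 1, 0, ⟨0, 0⟩, 1, 0⟩]⟩,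
    ⟨5, 0, ⟨24, 5⟩, 0, ⟨48, 1⟩, [⟨⟨0, 0⟩, ⟨0, 1⟩, 64, 1, 0, ⟨0, 0⟩, 1, 0⟩]⟩,
    ⟨4, 0, ⟨12, -1⟩, 0, ⟨12, 7⟩, [⟨⟨0, 0⟩, ⟨0, 1⟩, 11, 2, 0, ⟨2, -1⟩, 1, 0⟩]⟩]⟩,
  ⟨⟨0, 1⟩, 0, [
    ⟨1, 0, ⟨48, 3⟩, 0, ⟨36, 2⟩, [⟨⟨0, 0⟩, ⟨0, 1⟩, 73, 2, 0, ⟨0, 0⟩, 1, 0⟩]⟩,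
    ⟨4, 0, ⟨24, 6⟩, 0, ⟨24, 7⟩, [⟨⟨0, 0⟩, ⟨0, 1⟩, 78, 1, 0, ⟨0, 0⟩, 1, 0⟩]⟩,
    ⟨4, 0, ⟨24, 3⟩, 0, ⟨0, 2⟩, [⟨⟨0, 0⟩, ⟨0, 1⟩, 74, 0, 0, ⟨0, 0⟩, 1, 0⟩]⟩]⟩,
  ⟨⟨0, 1⟩, 0, [
    ⟨1, 0, ⟨0, 3⟩, 0, ⟨12, 0⟩, [⟨⟨0, 0⟩, ⟨0, 1⟩, 53, 2, 0, ⟨0, 0⟩, 1, 0⟩]⟩,
    ⟨4, 0, ⟨24, 1⟩, 0, ⟨12, 6⟩, [⟨⟨0, 0⟩, ⟨0, 1⟩, 62, 1, 0, ⟨0, 0⟩, 1, 0⟩]⟩,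
    ⟨5, 0, ⟨24, 2⟩, 0, ⟨48, 2⟩, [⟨⟨0, 0⟩, ⟨0, 1⟩, 66, 1, 0, ⟨0, 0⟩, 1, 0⟩]⟩]⟩,
  ⟨⟨0, 1⟩, 0, [
    ⟨0, 0, ⟨48, 4⟩, 0, ⟨36, 6⟩, [⟨⟨0, 0⟩, ⟨0, 1⟩, 33, 0, 0, ⟨0, 0⟩, 1, 0⟩]⟩,
    ⟨4, 0, ⟨0, 1⟩, 0, ⟨36, 6⟩, [⟨⟨0, 0⟩, ⟨0, 1⟩, 16, 0, 0, ⟨0, 0⟩, 1, 0⟩]⟩,
    ⟨5, 0, ⟨0, 1⟩, 0, ⟨12, -1⟩, [⟨⟨0, 0⟩, ⟨0, 1⟩, 24, 0, 0, ⟨0, 0⟩, 1, 0⟩]⟩]⟩,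
  ⟨⟨0, 1⟩, 0, [
    ⟨0, 0, ⟨0, 1⟩, 0, ⟨0, 3⟩, [⟨⟨0, 0⟩, ⟨0, 1⟩, 32, 0, 0, ⟨0, 0⟩, 1, 0⟩]⟩,
    ⟨1, 0, ⟨24, 4⟩, 0, ⟨12, -1⟩, [⟨⟨0, 0⟩, ⟨0, 1⟩, 64, 2, 0, ⟨0, 0⟩, 1, 0⟩]⟩,
    ⟨5, 0, ⟨24, 1⟩, 0, ⟨48, 3⟩, [⟨⟨0, 0⟩, ⟨0, 1⟩, 69, 0, 0, ⟨0, 0⟩, 1, 0⟩]⟩]⟩,
  ⟨⟨0, 1⟩, 0, [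
    ⟨1, 0, ⟨48, 4⟩, 0, ⟨36, 4⟩, [⟨⟨0, 0⟩, ⟨0, 1⟩, 41, 0, 0, ⟨0, 0⟩, 1, 0⟩]⟩,
    ⟨5, 0, ⟨24, 4⟩, 0, ⟨36, -4⟩, [⟨⟨0, 0⟩, ⟨0, 1⟩, 58, 0, 0, ⟨0, 0⟩, 1, 0⟩]⟩,
    ⟨3, 0, ⟨24, 4⟩, 0, ⟨12, 1⟩, [⟨⟨0, 0⟩, ⟨0, 1⟩, 73, 0, 0, ⟨0, 0⟩, 1, 0⟩]⟩]⟩,
  ⟨⟨0, 1⟩, 0, [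
    ⟨0, 0, ⟨24, 4⟩, 0, ⟨24, 1⟩, [⟨⟨0, 0⟩, ⟨0, 1⟩, 56, 2, 0, ⟨0, 0⟩, 1, 0⟩]⟩,
    ⟨4, 0, ⟨24, 4⟩, 0, ⟨12, 3⟩, [⟨⟨0, 0⟩, ⟨0, 1⟩, 61, 0, 0, ⟨0, 0⟩, 1, 0⟩]⟩,
    ⟨2, 0, ⟨48, 4⟩, 0, ⟨24, 1⟩, [⟨⟨0, 0⟩, ⟨0, 1⟩, 1, 0, 0, ⟨0, 0⟩, 1, 0⟩]⟩]⟩,
  ⟨⟨0, 1⟩, 0, [
    ⟨0, 0, ⟨24, 5⟩, 0, ⟨0, 2⟩, [⟨⟨0, 0⟩, ⟨0, 1⟩, 66, 2, 0, ⟨0, 0⟩, 1, 0⟩]⟩,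
    ⟨5, 0, ⟨48, 3⟩, 0, ⟨48, 4⟩, [⟨⟨0, 0⟩, ⟨0, 1⟩, 48, 3, 0, ⟨0, 0⟩, 1, 1⟩]⟩,
    ⟨2, 0, ⟨24, 4⟩, 0, ⟨0, 1⟩, [⟨⟨0, 0⟩, ⟨0, 1⟩, 60, 0, 0, ⟨0, 0⟩, 1, 0⟩]⟩]⟩,
  ⟨⟨0, 1⟩, 0, [
    ⟨2, 0, ⟨24, 3⟩, 0, ⟨36, 3⟩, [⟨⟨0, 0⟩, ⟨0, 1⟩, 52, 2, 0, ⟨0, 0⟩, 1, 0⟩]⟩,
    ⟨5, 0, ⟨24, 0⟩, 0, ⟨36, 0⟩, [⟨⟨0, 0⟩, ⟨0, 1⟩, 58, 1, 0, ⟨0, 0⟩, 1, 0⟩]⟩,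
    ⟨5, 0, ⟨0, 3⟩, 0, ⟨36, -2⟩, [⟨⟨0, 0⟩, ⟨0, 1⟩, 52, 1, 0, ⟨0, 0⟩, 1, 0⟩]⟩]⟩,
  ⟨⟨0, 1⟩, 0, [
    ⟨1, 0, ⟨24, 0⟩, 0, ⟨48, 2⟩, [⟨⟨0, 0⟩, ⟨0, 1⟩, 75, 2, 0, ⟨0, 0⟩, 1, 0⟩]⟩,
    ⟨1, 0, ⟨36, 4⟩, 0, ⟨36, -2⟩, [⟨⟨0, 0⟩, ⟨0, 1⟩, 55, 1, 0, ⟨0, 0⟩, 1, 0⟩]⟩,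
    ⟨5, 0, ⟨36, 8⟩, 0, ⟨24, -2⟩, [⟨⟨0, 0⟩, ⟨0, 1⟩, 42, 2, 0, ⟨2, -1⟩, 1, 0⟩]⟩]⟩,
  ⟨⟨0, 1⟩, 0, [
    ⟨1, 0, ⟨0, 1⟩, 0, ⟨24, -1⟩, [⟨⟨0, 0⟩, ⟨0, 1⟩, 40, 0, 0, ⟨0, 0⟩, 1, 0⟩]⟩,
    ⟨2, 0, ⟨0, 1⟩, 0, ⟨12, 1⟩, [⟨⟨0, 0⟩, ⟨0, 1⟩, 0, 0, 0, ⟨0, 0⟩, 1, 0⟩]⟩,
    ⟨3, 0, ⟨48, 4⟩, 0, ⟨24, 2⟩, [⟨⟨0, 0⟩, ⟨0, 1⟩, 9, 0, 0, ⟨0, 0⟩, 1, 0⟩]⟩]⟩,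
  ⟨⟨0, 1⟩, 0, [
    ⟨1, 0, ⟨24, 2⟩, 0, ⟨36, 3⟩, [⟨⟨0, 0⟩, ⟨0, 1⟩, 67, 2, 0, ⟨0, 0⟩, 1, 0⟩]⟩,
    ⟨3, 0, ⟨24, 1⟩, 0, ⟨12, 2⟩, [⟨⟨0, 0⟩, ⟨0, 1⟩, 80, 1, 0, ⟨0, 0⟩, 1, 0⟩]⟩,
    ⟨4, 0, ⟨0, 3⟩, 0, ⟨24, 6⟩, [⟨⟨0, 0⟩, ⟨0, 1⟩, 63, 0, 0, ⟨0, 0⟩, 1, 0⟩]⟩]⟩,
  ⟨⟨0, 1⟩, 0, [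
    ⟨1, 0, ⟨24, 3⟩, 0, ⟨36, 1⟩, [⟨⟨0, 0⟩, ⟨0, 1⟩, 63, 2, 0, ⟨0, 0⟩, 1, 0⟩]⟩,
    ⟨4, 0, ⟨48, 4⟩, 0, ⟨0, 3⟩, [⟨⟨0, 0⟩, ⟨0, 1⟩, 17, 0, 0, ⟨0, 0⟩, 1, 0⟩]⟩,
    ⟨2, 0, ⟨24, 5⟩, 0, ⟨48, 3⟩, [⟨⟨0, 0⟩, ⟨0, 1⟩, 49, 3, 0, ⟨0, 0⟩, 1, 0⟩]⟩]⟩,
  ⟨⟨0, 1⟩, 0, [
    ⟨1, 0, ⟨12, 1⟩, 0, ⟨48, 3⟩, [⟨⟨0, 0⟩, ⟨0, 1⟩, 60, 1, 0, ⟨0, 0⟩, 1, 0⟩]⟩,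
    ⟨2, 0, ⟨12, -1⟩, 0, ⟨0, 3⟩, [⟨⟨0, 0⟩, ⟨0, 1⟩, 43, 2, 0, ⟨2, -1⟩, 1, 0⟩]⟩,
    ⟨1, 0, ⟨24, 6⟩, 0, ⟨36, -3⟩, [⟨⟨0, 0⟩, ⟨0, 1⟩, 71, 0, 0, ⟨0, 0⟩, 1, 0⟩]⟩]⟩,
  ⟨⟨0, 1⟩, 0, [
    ⟨2, 0, ⟨12, 1⟩, 0, ⟨24, -1⟩, [⟨⟨0, 0⟩, ⟨0, 1⟩, 61, 2, 0, ⟨0, 0⟩, 1, 0⟩]⟩,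
    ⟨3, 0, ⟨24, 6⟩, 0, ⟨36, 2⟩, [⟨⟨0, 0⟩, ⟨0, 1⟩, 80, 2, 0, ⟨0, 0⟩, 1, 0⟩]⟩,
    ⟨3, 0, ⟨12, -1⟩, 0, ⟨12, 4⟩, [⟨⟨0, 0⟩, ⟨0, 1⟩, 3, 2, 0, ⟨2, -1⟩, 1, 0⟩]⟩]⟩,
  ⟨⟨0, 1⟩, 0, [
    ⟨0, 0, ⟨24, 0⟩, 0, ⟨24, 3⟩, [⟨⟨0, 0⟩, ⟨0, 1⟩, 57, 2, 0, ⟨0, 0⟩, 1, 0⟩]⟩,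
    ⟨0, 0, ⟨36, 8⟩, 0, ⟨12, 3⟩, [⟨⟨0, 0⟩, ⟨0, 1⟩, 2, 2, 0, ⟨2, -1⟩, 1, 0⟩]⟩,
    ⟨2, 0, ⟨36, 4⟩, 0, ⟨36, -1⟩, [⟨⟨0, 0⟩, ⟨0, 1⟩, 56, 0, 0, ⟨0, 0⟩, 1, 0⟩]⟩]⟩,
  ⟨⟨0, 1⟩, 0, [
    ⟨0, 0, ⟨36, 4⟩, 0, ⟨48, 4⟩, [⟨⟨0, 0⟩, ⟨0, 1⟩, 48, 5, 0, ⟨0, 0⟩, 1, 1⟩]⟩,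
    ⟨4, 0, ⟨24, 0⟩, 0, ⟨0, 1⟩, [⟨⟨0, 0⟩, ⟨0, 1⟩, 63, 1, 0, ⟨0, 0⟩, 1, 0⟩]⟩,
    ⟨4, 0, ⟨36, 8⟩, 0, ⟨24, 8⟩, [⟨⟨0, 0⟩, ⟨0, 1⟩, 34, 2, 0, ⟨2, -1⟩, 1, 0⟩]⟩]⟩,
  ⟨⟨0, 1⟩, 0, [
    ⟨2, 0, ⟨24, 0⟩, 0, ⟨36, 1⟩, [⟨⟨0, 0⟩, ⟨0, 1⟩, 52, 0, 0, ⟨0, 0⟩, 1, 0⟩]⟩,
    ⟨2, 0, ⟨36, 8⟩, 0, ⟨36, 5⟩, [⟨⟨0, 0⟩, ⟨0, 1⟩, 18, 2, 0, ⟨2, -1⟩, 1, 0⟩]⟩,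
    ⟨4, 0, ⟨36, 4⟩, 0, ⟨12, 1⟩, [⟨⟨0, 0⟩, ⟨0, 1⟩, 56, 1, 0, ⟨0, 0⟩, 1, 0⟩]⟩]⟩,
  ⟨⟨0, 1⟩, 0, [
    ⟨3, 0, ⟨0, 1⟩, 0, ⟨36, 3⟩, [⟨⟨0, 0⟩, ⟨0, 1⟩, 8, 0, 0, ⟨0, 0⟩, 1, 0⟩]⟩,
    ⟨4, 0, ⟨24, 5⟩, 0, ⟨24, 5⟩, [⟨⟨0, 0⟩, ⟨0, 1⟩, 73, 1, 0, ⟨0, 0⟩, 1, 0⟩]⟩,
    ⟨3, 0, ⟨24, 0⟩, 0, ⟨12, 3⟩, [⟨⟨0, 0⟩, ⟨0, 1⟩, 76, 1, 0, ⟨0, 0⟩, 1, 0⟩]⟩]⟩]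
  tracks := [
  [⟨⟨0, 1⟩, ⟨48, 6⟩, 12, [
      ⟨12, ⟨0, 6⟩, ⟨48, 6⟩, [(34, 1), (57, 2), (39, 1)]⟩,
      ⟨12, ⟨0, 12⟩, ⟨48, 12⟩, [(38, 1), (77, 0), (35, 1)]⟩]⟩],
  [⟨⟨0, 1⟩, ⟨48, 6⟩, 6, [
      ⟨6, ⟨0, 1⟩, ⟨48, 7⟩, [(66, 0), (38, 2), (48, 0), (36, 1), (49, 2), (33, 1), (35, 2)]⟩]⟩],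
  [⟨⟨0, 1⟩, ⟨48, 6⟩, 6, [
      ⟨6, ⟨0, 2⟩, ⟨48, 8⟩, [(1, 0), (56, 0), (7, 0), (60, 0), (2, 0), (77, 1), (4, 0)]⟩]⟩],
  [⟨⟨0, 1⟩, ⟨48, 6⟩, 12, [
      ⟨12, ⟨0, 3⟩, ⟨48, 15⟩, [(59, 0), (5, 2), (57, 0), (28, 2), (54, 0)]⟩,
      ⟨12, ⟨0, 9⟩, ⟨48, 9⟩, [(25, 2), (0, 2)]⟩]⟩],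
  [⟨⟨0, 1⟩, ⟨48, 6⟩, 6, [
      ⟨6, ⟨0, 4⟩, ⟨48, 10⟩, [(34, 2), (32, 1), (68, 0), (37, 1), (78, 0), (39, 2), (65, 0)]⟩]⟩],
  [⟨⟨0, 1⟩, ⟨48, 6⟩, 6, [
      ⟨6, ⟨0, 5⟩, ⟨48, 11⟩, [(29, 0), (55, 0), (27, 0), (69, 0), (30, 0), (51, 0), (24, 0)]⟩]⟩],
  [⟨⟨0, 1⟩, ⟨48, 6⟩, 12, [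
      ⟨12, ⟨0, 6⟩, ⟨48, 6⟩, [(42, 1), (75, 2), (47, 1)]⟩,
      ⟨12, ⟨0, 12⟩, ⟨48, 12⟩, [(46, 1), (71, 0), (43, 1)]⟩]⟩],
  [⟨⟨0, 1⟩, ⟨48, 6⟩, 6, [
      ⟨6, ⟨0, 1⟩, ⟨48, 7⟩, [(72, 0), (46, 2), (75, 0), (44, 1), (49, 3), (41, 1), (43, 2)]⟩]⟩],
  [⟨⟨0, 1⟩, ⟨48, 6⟩, 6, [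
      ⟨6, ⟨0, 2⟩, ⟨48, 8⟩, [(9, 0), (48, 1), (15, 0), (73, 0), (10, 0), (53, 0), (12, 0)]⟩]⟩],
  [⟨⟨0, 1⟩, ⟨48, 6⟩, 12, [
      ⟨12, ⟨0, 3⟩, ⟨48, 15⟩, [(64, 0), (13, 2), (74, 0), (36, 2), (63, 0)]⟩,
      ⟨12, ⟨0, 9⟩, ⟨48, 9⟩, [(33, 2), (8, 2)]⟩]⟩],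
  [⟨⟨0, 1⟩, ⟨48, 6⟩, 6, [
      ⟨6, ⟨0, 4⟩, ⟨48, 10⟩, [(42, 2), (40, 1), (66, 1), (45, 1), (71, 1), (47, 2), (67, 0)]⟩]⟩],
  [⟨⟨0, 1⟩, ⟨48, 6⟩, 6, [
      ⟨6, ⟨0, 5⟩, ⟨48, 11⟩, [(37, 0), (59, 2), (35, 0), (55, 2), (38, 0), (60, 2), (32, 0)]⟩]⟩],
  [⟨⟨0, 1⟩, ⟨48, 6⟩, 12, [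
      ⟨12, ⟨0, 6⟩, ⟨48, 6⟩, [(2, 1), (52, 0), (7, 1)]⟩,
      ⟨12, ⟨0, 12⟩, ⟨48, 12⟩, [(6, 1), (79, 0), (3, 1)]⟩]⟩],
  [⟨⟨0, 1⟩, ⟨48, 6⟩, 6, [
      ⟨6, ⟨0, 1⟩, ⟨48, 7⟩, [(72, 1), (6, 2), (76, 0), (4, 1), (49, 0), (1, 1), (3, 2)]⟩]⟩],
  [⟨⟨0, 1⟩, ⟨48, 6⟩, 6, [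
      ⟨6, ⟨0, 2⟩, ⟨48, 8⟩, [(17, 0), (56, 1), (23, 0), (61, 0), (18, 0), (79, 1), (20, 0)]⟩]⟩],
  [⟨⟨0, 1⟩, ⟨48, 6⟩, 12, [
      ⟨12, ⟨0, 3⟩, ⟨48, 15⟩, [(48, 3), (21, 2), (70, 0), (44, 2), (52, 1)]⟩,
      ⟨12, ⟨0, 9⟩, ⟨48, 9⟩, [(41, 2), (16, 2)]⟩]⟩],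
  [⟨⟨0, 1⟩, ⟨48, 6⟩, 6, [
      ⟨6, ⟨0, 4⟩, ⟨48, 10⟩, [(2, 2), (0, 1), (69, 2), (5, 1), (77, 2), (7, 2), (68, 2)]⟩]⟩],
  [⟨⟨0, 1⟩, ⟨48, 6⟩, 6, [
      ⟨6, ⟨0, 5⟩, ⟨48, 11⟩, [(45, 0), (75, 1), (43, 0), (74, 2), (46, 0), (60, 1), (40, 0)]⟩]⟩],
  [⟨⟨0, 1⟩, ⟨48, 6⟩, 12, [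
      ⟨12, ⟨0, 6⟩, ⟨48, 6⟩, [(10, 1), (76, 1), (15, 1)]⟩,
      ⟨12, ⟨0, 12⟩, ⟨48, 12⟩, [(14, 1), (80, 2), (11, 1)]⟩]⟩],
  [⟨⟨0, 1⟩, ⟨48, 6⟩, 6, [
      ⟨6, ⟨0, 1⟩, ⟨48, 7⟩, [(80, 0), (14, 2), (53, 1), (12, 1), (73, 1), (9, 1), (11, 2)]⟩]⟩],
  [⟨⟨0, 1⟩, ⟨48, 6⟩, 6, [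
      ⟨6, ⟨0, 2⟩, ⟨48, 8⟩, [(25, 0), (62, 0), (31, 0), (58, 0), (26, 0), (54, 1), (28, 0)]⟩]⟩],
  [⟨⟨0, 1⟩, ⟨48, 6⟩, 12, [
      ⟨12, ⟨0, 3⟩, ⟨48, 15⟩, [(49, 1), (29, 2), (51, 2), (4, 2), (57, 1)]⟩,
      ⟨12, ⟨0, 9⟩, ⟨48, 9⟩, [(1, 2), (24, 2)]⟩]⟩],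
  [⟨⟨0, 1⟩, ⟨48, 6⟩, 6, [
      ⟨6, ⟨0, 4⟩, ⟨48, 10⟩, [(10, 2), (8, 1), (67, 2), (13, 1), (59, 1), (15, 2), (72, 2)]⟩]⟩],
  [⟨⟨0, 1⟩, ⟨48, 6⟩, 6, [
      ⟨6, ⟨0, 5⟩, ⟨48, 11⟩, [(5, 0), (76, 2), (3, 0), (48, 2), (6, 0), (61, 2), (0, 0)]⟩]⟩],
  [⟨⟨0, 1⟩, ⟨48, 6⟩, 12, [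
      ⟨12, ⟨0, 6⟩, ⟨48, 6⟩, [(18, 1), (63, 1), (23, 1)]⟩,
      ⟨12, ⟨0, 12⟩, ⟨48, 12⟩, [(22, 1), (78, 1), (19, 1)]⟩]⟩],
  [⟨⟨0, 1⟩, ⟨48, 6⟩, 6, [
      ⟨6, ⟨0, 1⟩, ⟨48, 7⟩, [(65, 1), (22, 2), (50, 0), (20, 1), (64, 1), (17, 1), (19, 2)]⟩]⟩],
  [⟨⟨0, 1⟩, ⟨48, 6⟩, 6, [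
      ⟨6, ⟨0, 2⟩, ⟨48, 8⟩, [(33, 0), (48, 5), (39, 0), (56, 2), (34, 0), (78, 2), (36, 0)]⟩]⟩],
  [⟨⟨0, 1⟩, ⟨48, 6⟩, 12, [
      ⟨12, ⟨0, 3⟩, ⟨48, 15⟩, [(73, 2), (37, 2), (63, 2), (12, 2), (53, 2)]⟩,
      ⟨12, ⟨0, 9⟩, ⟨48, 9⟩, [(9, 2), (32, 2)]⟩]⟩],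
  [⟨⟨0, 1⟩, ⟨48, 6⟩, 6, [
      ⟨6, ⟨0, 4⟩, ⟨48, 10⟩, [(18, 2), (16, 1), (68, 1), (21, 1), (79, 2), (23, 2), (74, 1)]⟩]⟩],
  [⟨⟨0, 1⟩, ⟨48, 6⟩, 6, [
      ⟨6, ⟨0, 5⟩, ⟨48, 11⟩, [(13, 0), (62, 2), (11, 0), (80, 1), (14, 0), (61, 1), (8, 0)]⟩]⟩],
  [⟨⟨0, 1⟩, ⟨48, 6⟩, 12, [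
      ⟨12, ⟨0, 6⟩, ⟨48, 6⟩, [(26, 1), (58, 1), (31, 1)]⟩,
      ⟨12, ⟨0, 12⟩, ⟨48, 12⟩, [(30, 1), (70, 1), (27, 1)]⟩]⟩],
  [⟨⟨0, 1⟩, ⟨48, 6⟩, 6, [
      ⟨6, ⟨0, 1⟩, ⟨48, 7⟩, [(65, 2), (30, 2), (54, 2), (28, 1), (66, 2), (25, 1), (27, 2)]⟩]⟩],
  [⟨⟨0, 1⟩, ⟨48, 6⟩, 6, [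
      ⟨6, ⟨0, 2⟩, ⟨48, 8⟩, [(41, 0), (55, 1), (47, 0), (64, 2), (42, 0), (71, 2), (44, 0)]⟩]⟩],
  [⟨⟨0, 1⟩, ⟨48, 6⟩, 12, [
      ⟨12, ⟨0, 3⟩, ⟨48, 15⟩, [(70, 2), (45, 2), (52, 2), (20, 2), (69, 1)]⟩,
      ⟨12, ⟨0, 9⟩, ⟨48, 9⟩, [(17, 2), (40, 2)]⟩]⟩],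
  [⟨⟨0, 1⟩, ⟨48, 6⟩, 6, [
      ⟨6, ⟨0, 4⟩, ⟨48, 10⟩, [(26, 2), (24, 1), (67, 1), (29, 1), (51, 1), (31, 2), (58, 2)]⟩]⟩],
  [⟨⟨0, 1⟩, ⟨48, 6⟩, 6, [
      ⟨6, ⟨0, 5⟩, ⟨48, 11⟩, [(21, 0), (50, 1), (19, 0), (62, 1), (22, 0), (48, 4), (16, 0)]⟩]⟩]]
  vorts := [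
  ⟨49, ⟨72, 6⟩, ⟨0, -2⟩, ⟨0, 3⟩⟩,
  ⟨50, ⟨24, 0⟩, ⟨0, -2⟩, ⟨0, 1⟩⟩,
  ⟨48, ⟨96, 18⟩, ⟨0, 1⟩, ⟨0, -2⟩⟩]

theorem fam_w8b_ok : fam_w8b.OK := by decide +kernel

def path_w8b : Path 12 where
  verts := ![Sum.inr 0, Sum.inr 1, Sum.inr 2, Sum.inl ⟨0, 3⟩, Sum.inl ⟨24, 8⟩, Sum.inl ⟨24, 5⟩, Sum.inl ⟨0, 5⟩, Sum.inl ⟨12, 4⟩, Sum.inl ⟨12, 2⟩, Sum.inl ⟨36, 7⟩, Sum.inl ⟨36, 6⟩, Sum.inl ⟨12, 5⟩]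
  tris := [(3, 4, 2, 48, 2, ⟨0, 0⟩),
    (4, 3, 0, 49, 0, ⟨0, 0⟩),
    (5, 6, 3, 58, 1, ⟨0, 0⟩),
    (6, 5, 4, 70, 1, ⟨0, 0⟩),
    (7, 5, 1, 50, 0, ⟨0, 0⟩),
    (6, 7, 1, 50, 1, ⟨0, 0⟩),
    (8, 9, 7, 74, 2, ⟨0, 0⟩),
    (9, 8, 0, 49, 3, ⟨0, 0⟩),
    (10, 11, 8, 69, 0, ⟨0, 0⟩),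
    (11, 10, 9, 66, 2, ⟨0, 0⟩)]
  flips := [(3, 4, 2, 0), (5, 6, 3, 4), (1, 7, 5, 6), (8, 9, 7, 0), (10, 11, 8, 9)]

theorem fam_w8b_block {u : ℤ} (hu : 1 ≤ u) {N : ℕ} (hN : (N : ℤ) = 48 * u + 6) :
    WBlock (N + 2) :=
  wblock_of_path (n := 9) fam_w8b_ok rfl (by decide +kernel) (by decide +kernel) path_w8b (by decide +kernel)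
    ⟨rfl, rfl, rfl⟩ 10 11 (by decide +kernel) hu hN

end Pd97
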