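import Mathlib
import Pool.Agent.Lib.Pd97.FlipBlocks

/-!
# MP_d97cc3_co : table of the family w8o
-/

namespace Pd97

open Pool.Agent.Lib.CurP.Table

def fam_w8o : Data where
  k := 6
  nf := ⟨24, 18⟩
  u₀ := 2
  J := 3
  M0 := 6
  cells := [
  ⟨⟨1, 0⟩, 0, [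
    ⟨4, 6, ⟨0, 2⟩, -6, ⟨18, 7⟩, [⟨⟨0, 0⟩, ⟨0, 1⟩, 58, 0, 0, ⟨0, 0⟩, 1, 0⟩, ⟨⟨0, 1⟩, ⟨1, -1⟩, 6, 1, 1, ⟨0, 0⟩, 1, 0⟩]⟩,
    ⟨0, -12, ⟨12, 3⟩, 6, ⟨12, 13⟩, [⟨⟨0, 0⟩, ⟨1, 0⟩, 1, 1, 1, ⟨0, 0⟩, 1, 0⟩]⟩,
    ⟨3, 6, ⟨12, 13⟩, 6, ⟨6, 3⟩, [⟨⟨0, 0⟩, ⟨1, 0⟩, 2, 0, 1, ⟨0, 0⟩, 1, 0⟩]⟩]⟩,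
  ⟨⟨1, 0⟩, 0, [
    ⟨4, -6, ⟨24, 17⟩, -6, ⟨6, 1⟩, [⟨⟨0, 0⟩, ⟨0, 1⟩, 65, 0, 0, ⟨0, 0⟩, 1, 0⟩, ⟨⟨0, 1⟩, ⟨1, -1⟩, 7, 1, 1, ⟨0, 0⟩, 1, 0⟩]⟩,
    ⟨3, 12, ⟨12, 15⟩, 6, ⟨6, 2⟩, [⟨⟨0, 0⟩, ⟨1, 0⟩, 0, 1, 1, ⟨0, 0⟩, 1, 0⟩]⟩,
    ⟨0, -6, ⟨12, 4⟩, 6, ⟨12, 14⟩, [⟨⟨0, 0⟩, ⟨1, 0⟩, 3, 0, 1, ⟨0, 0⟩, 1, 0⟩]⟩]⟩,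
  ⟨⟨1, 0⟩, 0, [
    ⟨4, -6, ⟨12, 5⟩, -6, ⟨18, 6⟩, [⟨⟨0, 0⟩, ⟨1, 0⟩, 0, 2, 1, ⟨0, 0⟩, 1, 0⟩]⟩,
    ⟨3, -6, ⟨24, 13⟩, 6, ⟨6, 4⟩, [⟨⟨0, 0⟩, ⟨1, 0⟩, 4, 0, 1, ⟨0, 0⟩, 1, 0⟩]⟩,
    ⟨4, 12, ⟨12, 18⟩, -6, ⟨6, -1⟩, [⟨⟨0, 0⟩, ⟨1, 0⟩, 3, 2, 1, ⟨0, 0⟩, 1, 0⟩]⟩]⟩,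
  ⟨⟨1, 0⟩, 0, [
    ⟨4, 6, ⟨12, 14⟩, -6, ⟨6, 0⟩, [⟨⟨0, 0⟩, ⟨1, 0⟩, 1, 2, 1, ⟨0, 0⟩, 1, 0⟩]⟩,
    ⟨0, 6, ⟨0, 4⟩, 6, ⟨12, 15⟩, [⟨⟨0, 0⟩, ⟨1, 0⟩, 5, 0, 1, ⟨0, 0⟩, 1, 0⟩]⟩,
    ⟨4, -12, ⟨12, 0⟩, -6, ⟨18, 5⟩, [⟨⟨0, 0⟩, ⟨1, 0⟩, 2, 2, 1, ⟨0, 0⟩, 1, 0⟩]⟩]⟩,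
  ⟨⟨1, 0⟩, 0, [
    ⟨4, 6, ⟨0, 5⟩, -6, ⟨6, -2⟩, [⟨⟨0, 0⟩, ⟨1, 0⟩, 2, 1, 1, ⟨0, 0⟩, 1, 0⟩]⟩,
    ⟨3, -12, ⟨12, -3⟩, 6, ⟨6, 5⟩, [⟨⟨0, 0⟩, ⟨1, 0⟩, 5, 1, 1, ⟨0, 0⟩, 1, 0⟩]⟩,
    ⟨0, 6, ⟨12, 16⟩, 6, ⟨12, 17⟩, [⟨⟨0, 0⟩, ⟨1, 0⟩, 6, 0, 1, ⟨0, 0⟩, 1, 0⟩]⟩]⟩,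
  ⟨⟨1, 0⟩, 0, [
    ⟨4, -6, ⟨24, 14⟩, -6, ⟨18, 4⟩, [⟨⟨0, 0⟩, ⟨1, 0⟩, 3, 1, 1, ⟨0, 0⟩, 1, 0⟩]⟩,
    ⟨0, 12, ⟨12, 21⟩, 6, ⟨12, 16⟩, [⟨⟨0, 0⟩, ⟨1, 0⟩, 4, 1, 1, ⟨0, 0⟩, 1, 0⟩]⟩,
    ⟨3, -6, ⟨12, 1⟩, 6, ⟨6, 6⟩, [⟨⟨0, 0⟩, ⟨1, 0⟩, 7, 0, 1, ⟨0, 0⟩, 1, 0⟩]⟩]⟩,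
  ⟨⟨1, 0⟩, 0, [
    ⟨4, -6, ⟨12, 2⟩, -6, ⟨6, -3⟩, [⟨⟨0, 0⟩, ⟨1, 0⟩, 4, 2, 1, ⟨0, 0⟩, 1, 0⟩]⟩,
    ⟨0, -6, ⟨24, 10⟩, 6, ⟨12, 18⟩, [⟨⟨0, 0⟩, ⟨1, -1⟩, 0, 0, 1, ⟨0, 1⟩, 1, 0⟩, ⟨⟨1, -1⟩, ⟨0, 1⟩, 72, 2, 0, ⟨0, 0⟩, 1, 0⟩]⟩,
    ⟨4, 12, ⟨12, 24⟩, -6, ⟨18, 2⟩, [⟨⟨0, 0⟩, ⟨1, 0⟩, 7, 2, 1, ⟨0, 0⟩, 1, 0⟩]⟩]⟩,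
  ⟨⟨1, 0⟩, 0, [
    ⟨4, 6, ⟨12, 17⟩, -6, ⟨18, 3⟩, [⟨⟨0, 0⟩, ⟨1, 0⟩, 5, 2, 1, ⟨0, 0⟩, 1, 0⟩]⟩,
    ⟨3, 6, ⟨0, 7⟩, 6, ⟨6, 7⟩, [⟨⟨0, 0⟩, ⟨1, -1⟩, 1, 0, 1, ⟨0, 1⟩, 1, 0⟩, ⟨⟨1, -1⟩, ⟨0, 1⟩, 69, 1, 0, ⟨0, 0⟩, 1, 0⟩]⟩,
    ⟨4, -12, ⟨12, -6⟩, -6, ⟨6, -4⟩, [⟨⟨0, 0⟩, ⟨1, 0⟩, 6, 2, 1, ⟨0, 0⟩, 1, 0⟩]⟩]⟩,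
  ⟨⟨1, 0⟩, 0, [
    ⟨5, 6, ⟨0, 2⟩, -6, ⟨6, 1⟩, [⟨⟨0, 0⟩, ⟨0, 1⟩, 56, 0, 0, ⟨0, 0⟩, 1, 0⟩, ⟨⟨0, 1⟩, ⟨1, -1⟩, 14, 1, 1, ⟨0, 0⟩, 1, 0⟩]⟩,
    ⟨1, -12, ⟨12, 3⟩, 6, ⟨12, 8⟩, [⟨⟨0, 0⟩, ⟨1, 0⟩, 9, 1, 1, ⟨0, 0⟩, 1, 0⟩]⟩,
    ⟨4, 6, ⟨12, 13⟩, 6, ⟨6, 4⟩, [⟨⟨0, 0⟩, ⟨1, 0⟩, 10, 0, 1, ⟨0, 0⟩, 1, 0⟩]⟩]⟩,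
  ⟨⟨1, 0⟩, 0, [
    ⟨5, -6, ⟨24, 17⟩, -6, ⟨18, 15⟩, [⟨⟨0, 0⟩, ⟨0, 1⟩, 65, 1, 0, ⟨0, 0⟩, 1, 0⟩, ⟨⟨0, 1⟩, ⟨1, -1⟩, 15, 1, 1, ⟨0, 0⟩, 1, 0⟩]⟩,
    ⟨4, 12, ⟨12, 15⟩, 6, ⟨6, 3⟩, [⟨⟨0, 0⟩, ⟨1, 0⟩, 8, 1, 1, ⟨0, 0⟩, 1, 0⟩]⟩,
    ⟨1, -6, ⟨12, 4⟩, 6, ⟨12, 9⟩, [⟨⟨0, 0⟩, ⟨1, 0⟩, 11, 0, 1, ⟨0, 0⟩, 1, 0⟩]⟩]⟩,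
  ⟨⟨1, 0⟩, 0, [
    ⟨5, -6, ⟨12, 5⟩, -6, ⟨6, 0⟩, [⟨⟨0, 0⟩, ⟨1, 0⟩, 8, 2, 1, ⟨0, 0⟩, 1, 0⟩]⟩,
    ⟨4, -6, ⟨24, 13⟩, 6, ⟨6, 5⟩, [⟨⟨0, 0⟩, ⟨1, 0⟩, 12, 0, 1, ⟨0, 0⟩, 1, 0⟩]⟩,
    ⟨5, 12, ⟨12, 18⟩, -6, ⟨18, 13⟩, [⟨⟨0, 0⟩, ⟨1, 0⟩, 11, 2, 1, ⟨0, 0⟩, 1, 0⟩]⟩]⟩,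
  ⟨⟨1, 0⟩, 0, [
    ⟨5, 6, ⟨12, 14⟩, -6, ⟨18, 14⟩, [⟨⟨0, 0⟩, ⟨1, 0⟩, 9, 2, 1, ⟨0, 0⟩, 1, 0⟩]⟩,
    ⟨1, 6, ⟨0, 4⟩, 6, ⟨12, 10⟩, [⟨⟨0, 0⟩, ⟨1, 0⟩, 13, 0, 1, ⟨0, 0⟩, 1, 0⟩]⟩,
    ⟨5, -12, ⟨12, 0⟩, -6, ⟨6, -1⟩, [⟨⟨0, 0⟩, ⟨1, 0⟩, 10, 2, 1, ⟨0, 0⟩, 1, 0⟩]⟩]⟩,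
  ⟨⟨1, 0⟩, 0, [
    ⟨5, 6, ⟨0, 5⟩, -6, ⟨18, 12⟩, [⟨⟨0, 0⟩, ⟨1, 0⟩, 10, 1, 1, ⟨0, 0⟩, 1, 0⟩]⟩,
    ⟨4, -12, ⟨12, -3⟩, 6, ⟨6, 6⟩, [⟨⟨0, 0⟩, ⟨1, 0⟩, 13, 1, 1, ⟨0, 0⟩, 1, 0⟩]⟩,
    ⟨1, 6, ⟨12, 16⟩, 6, ⟨12, 12⟩, [⟨⟨0, 0⟩, ⟨1, 0⟩, 14, 0, 1, ⟨0, 0⟩, 1, 0⟩]⟩]⟩,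
  ⟨⟨1, 0⟩, 0, [
    ⟨5, -6, ⟨24, 14⟩, -6, ⟨6, -2⟩, [⟨⟨0, 0⟩, ⟨1, 0⟩, 11, 1, 1, ⟨0, 0⟩, 1, 0⟩]⟩,
    ⟨1, 12, ⟨12, 21⟩, 6, ⟨12, 11⟩, [⟨⟨0, 0⟩, ⟨1, 0⟩, 12, 1, 1, ⟨0, 0⟩, 1, 0⟩]⟩,
    ⟨4, -6, ⟨12, 1⟩, 6, ⟨6, 7⟩, [⟨⟨0, 0⟩, ⟨1, 0⟩, 15, 0, 1, ⟨0, 0⟩, 1, 0⟩]⟩]⟩,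
  ⟨⟨1, 0⟩, 0, [
    ⟨5, -6, ⟨12, 2⟩, -6, ⟨18, 11⟩, [⟨⟨0, 0⟩, ⟨1, 0⟩, 12, 2, 1, ⟨0, 0⟩, 1, 0⟩]⟩,
    ⟨1, -6, ⟨24, 10⟩, 6, ⟨12, 13⟩, [⟨⟨0, 0⟩, ⟨1, -1⟩, 8, 0, 1, ⟨0, 1⟩, 1, 0⟩, ⟨⟨1, -1⟩, ⟨0, 1⟩, 74, 1, 0, ⟨0, 0⟩, 1, 0⟩]⟩,
    ⟨5, 12, ⟨12, 24⟩, -6, ⟨6, -4⟩, [⟨⟨0, 0⟩, ⟨1, 0⟩, 15, 2, 1, ⟨0, 0⟩, 1, 0⟩]⟩]⟩,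
  ⟨⟨1, 0⟩, 0, [
    ⟨5, 6, ⟨12, 17⟩, -6, ⟨6, -3⟩, [⟨⟨0, 0⟩, ⟨1, 0⟩, 13, 2, 1, ⟨0, 0⟩, 1, 0⟩]⟩,
    ⟨4, 6, ⟨0, 7⟩, 6, ⟨6, 8⟩, [⟨⟨0, 0⟩, ⟨1, -1⟩, 9, 0, 1, ⟨0, 1⟩, 1, 0⟩, ⟨⟨1, -1⟩, ⟨0, 1⟩, 64, 2, 0, ⟨0, 0⟩, 1, 0⟩]⟩,
    ⟨5, -12, ⟨12, -6⟩, -6, ⟨18, 10⟩, [⟨⟨0, 0⟩, ⟨1, 0⟩, 14, 2, 1, ⟨0, 0⟩, 1, 0⟩]⟩]⟩,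
  ⟨⟨1, 0⟩, 0, [
    ⟨0, 6, ⟨0, 2⟩, -6, ⟨12, 9⟩, [⟨⟨0, 0⟩, ⟨0, 1⟩, 62, 1, 0, ⟨0, 0⟩, 1, 0⟩, ⟨⟨0, 1⟩, ⟨1, -1⟩, 22, 1, 1, ⟨0, 0⟩, 1, 0⟩]⟩,
    ⟨2, -12, ⟨12, 3⟩, 6, ⟨12, 7⟩, [⟨⟨0, 0⟩, ⟨1, 0⟩, 17, 1, 1, ⟨0, 0⟩, 1, 0⟩]⟩,
    ⟨5, 6, ⟨12, 13⟩, 6, ⟨6, 10⟩, [⟨⟨0, 0⟩, ⟨1, 0⟩, 18, 0, 1, ⟨0, 0⟩, 1, 0⟩]⟩]⟩,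
  ⟨⟨1, 0⟩, 0, [
    ⟨0, -6, ⟨24, 17⟩, -6, ⟨6, 7⟩, [⟨⟨0, 0⟩, ⟨0, 1⟩, 51, 2, 0, ⟨0, 0⟩, 1, 0⟩, ⟨⟨0, 1⟩, ⟨1, -1⟩, 23, 1, 1, ⟨0, 0⟩, 1, 0⟩]⟩,
    ⟨5, 12, ⟨12, 15⟩, 6, ⟨6, 9⟩, [⟨⟨0, 0⟩, ⟨1, 0⟩, 16, 1, 1, ⟨0, 0⟩, 1, 0⟩]⟩,
    ⟨2, -6, ⟨12, 4⟩, 6, ⟨12, 8⟩, [⟨⟨0, 0⟩, ⟨1, 0⟩, 19, 0, 1, ⟨0, 0⟩, 1, 0⟩]⟩]⟩,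
  ⟨⟨1, 0⟩, 0, [
    ⟨0, -6, ⟨12, 5⟩, -6, ⟨12, 8⟩, [⟨⟨0, 0⟩, ⟨1, 0⟩, 16, 2, 1, ⟨0, 0⟩, 1, 0⟩]⟩,
    ⟨5, -6, ⟨24, 13⟩, 6, ⟨6, 11⟩, [⟨⟨0, 0⟩, ⟨1, 0⟩, 20, 0, 1, ⟨0, 0⟩, 1, 0⟩]⟩,
    ⟨0, 12, ⟨12, 18⟩, -6, ⟨6, 5⟩, [⟨⟨0, 0⟩, ⟨1, 0⟩, 19, 2, 1, ⟨0, 0⟩, 1, 0⟩]⟩]⟩,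
  ⟨⟨1, 0⟩, 0, [
    ⟨0, 6, ⟨12, 14⟩, -6, ⟨6, 6⟩, [⟨⟨0, 0⟩, ⟨1, 0⟩, 17, 2, 1, ⟨0, 0⟩, 1, 0⟩]⟩,
    ⟨2, 6, ⟨0, 4⟩, 6, ⟨12, 9⟩, [⟨⟨0, 0⟩, ⟨1, 0⟩, 21, 0, 1, ⟨0, 0⟩, 1, 0⟩]⟩,
    ⟨0, -12, ⟨12, 0⟩, -6, ⟨12, 7⟩, [⟨⟨0, 0⟩, ⟨1, 0⟩, 18, 2, 1, ⟨0, 0⟩, 1, 0⟩]⟩]⟩,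
  ⟨⟨1, 0⟩, 0, [
    ⟨0, 6, ⟨0, 5⟩, -6, ⟨6, 4⟩, [⟨⟨0, 0⟩, ⟨1, 0⟩, 18, 1, 1, ⟨0, 0⟩, 1, 0⟩]⟩,
    ⟨5, -12, ⟨12, -3⟩, 6, ⟨6, 12⟩, [⟨⟨0, 0⟩, ⟨1, 0⟩, 21, 1, 1, ⟨0, 0⟩, 1, 0⟩]⟩,
    ⟨2, 6, ⟨12, 16⟩, 6, ⟨12, 11⟩, [⟨⟨0, 0⟩, ⟨1, 0⟩, 22, 0, 1, ⟨0, 0⟩, 1, 0⟩]⟩]⟩,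
  ⟨⟨1, 0⟩, 0, [
    ⟨0, -6, ⟨24, 14⟩, -6, ⟨12, 6⟩, [⟨⟨0, 0⟩, ⟨1, 0⟩, 19, 1, 1, ⟨0, 0⟩, 1, 0⟩]⟩,
    ⟨2, 12, ⟨12, 21⟩, 6, ⟨12, 10⟩, [⟨⟨0, 0⟩, ⟨1, 0⟩, 20, 1, 1, ⟨0, 0⟩, 1, 0⟩]⟩,
    ⟨5, -6, ⟨12, 1⟩, 6, ⟨6, 13⟩, [⟨⟨0, 0⟩, ⟨1, 0⟩, 23, 0, 1, ⟨0, 0⟩, 1, 0⟩]⟩]⟩,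
  ⟨⟨1, 0⟩, 0, [
    ⟨0, -6, ⟨12, 2⟩, -6, ⟨6, 3⟩, [⟨⟨0, 0⟩, ⟨1, 0⟩, 20, 2, 1, ⟨0, 0⟩, 1, 0⟩]⟩,
    ⟨2, -6, ⟨24, 10⟩, 6, ⟨12, 12⟩, [⟨⟨0, 0⟩, ⟨1, -1⟩, 16, 0, 1, ⟨0, 1⟩, 1, 0⟩, ⟨⟨1, -1⟩, ⟨0, 1⟩, 71, 0, 0, ⟨0, 0⟩, 1, 0⟩]⟩,
    ⟨0, 12, ⟨12, 24⟩, -6, ⟨12, 4⟩, [⟨⟨0, 0⟩, ⟨1, 0⟩, 23, 2, 1, ⟨0, 0⟩, 1, 0⟩]⟩]⟩,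
  ⟨⟨1, 0⟩, 0, [
    ⟨0, 6, ⟨12, 17⟩, -6, ⟨12, 5⟩, [⟨⟨0, 0⟩, ⟨1, 0⟩, 21, 2, 1, ⟨0, 0⟩, 1, 0⟩]⟩,
    ⟨5, 6, ⟨0, 7⟩, 6, ⟨6, 14⟩, [⟨⟨0, 0⟩, ⟨1, -1⟩, 17, 0, 1, ⟨0, 1⟩, 1, 0⟩, ⟨⟨1, -1⟩, ⟨0, 1⟩, 63, 0, 0, ⟨0, 0⟩, 1, 0⟩]⟩,
    ⟨0, -12, ⟨12, -6⟩, -6, ⟨6, 2⟩, [⟨⟨0, 0⟩, ⟨1, 0⟩, 22, 2, 1, ⟨0, 0⟩, 1, 0⟩]⟩]⟩,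
  ⟨⟨1, 0⟩, 0, [
    ⟨1, 6, ⟨0, 2⟩, -6, ⟨12, 5⟩, [⟨⟨0, 0⟩, ⟨0, 1⟩, 76, 2, 0, ⟨0, 0⟩, 1, 0⟩, ⟨⟨0, 1⟩, ⟨1, -1⟩, 30, 1, 1, ⟨0, 0⟩, 1, 0⟩]⟩,
    ⟨3, -12, ⟨12, 3⟩, 6, ⟨18, 11⟩, [⟨⟨0, 0⟩, ⟨1, 0⟩, 25, 1, 1, ⟨0, 0⟩, 1, 0⟩]⟩,
    ⟨0, 6, ⟨12, 13⟩, 6, ⟨18, 16⟩, [⟨⟨0, 0⟩, ⟨1, 0⟩, 26, 0, 1, ⟨0, 0⟩, 1, 0⟩]⟩]⟩,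
  ⟨⟨1, 0⟩, 0, [
    ⟨1, -6, ⟨24, 17⟩, -6, ⟨24, 13⟩, [⟨⟨0, 0⟩, ⟨0, 1⟩, 60, 0, 0, ⟨0, 0⟩, 1, 0⟩, ⟨⟨0, 1⟩, ⟨1, -1⟩, 31, 1, 1, ⟨0, 0⟩, 1, 0⟩]⟩,
    ⟨0, 12, ⟨12, 15⟩, 6, ⟨18, 15⟩, [⟨⟨0, 0⟩, ⟨1, 0⟩, 24, 1, 1, ⟨0, 0⟩, 1, 0⟩]⟩,
    ⟨3, -6, ⟨12, 4⟩, 6, ⟨18, 12⟩, [⟨⟨0, 0⟩, ⟨1, 0⟩, 27, 0, 1, ⟨0, 0⟩, 1, 0⟩]⟩]⟩,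
  ⟨⟨1, 0⟩, 0, [
    ⟨1, -6, ⟨12, 5⟩, -6, ⟨12, 4⟩, [⟨⟨0, 0⟩, ⟨1, 0⟩, 24, 2, 1, ⟨0, 0⟩, 1, 0⟩]⟩,
    ⟨0, -6, ⟨24, 13⟩, 6, ⟨18, 17⟩, [⟨⟨0, 0⟩, ⟨1, 0⟩, 28, 0, 1, ⟨0, 0⟩, 1, 0⟩]⟩,
    ⟨1, 12, ⟨12, 18⟩, -6, ⟨24, 11⟩, [⟨⟨0, 0⟩, ⟨1, 0⟩, 27, 2, 1, ⟨0, 0⟩, 1, 0⟩]⟩]⟩,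
  ⟨⟨1, 0⟩, 0, [
    ⟨1, 6, ⟨12, 14⟩, -6, ⟨24, 12⟩, [⟨⟨0, 0⟩, ⟨1, 0⟩, 25, 2, 1, ⟨0, 0⟩, 1, 0⟩]⟩,
    ⟨3, 6, ⟨0, 4⟩, 6, ⟨18, 13⟩, [⟨⟨0, 0⟩, ⟨1, 0⟩, 29, 0, 1, ⟨0, 0⟩, 1, 0⟩]⟩,
    ⟨1, -12, ⟨12, 0⟩, -6, ⟨12, 3⟩, [⟨⟨0, 0⟩, ⟨1, 0⟩, 26, 2, 1, ⟨0, 0⟩, 1, 0⟩]⟩]⟩,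
  ⟨⟨1, 0⟩, 0, [
    ⟨1, 6, ⟨0, 5⟩, -6, ⟨24, 10⟩, [⟨⟨0, 0⟩, ⟨1, 0⟩, 26, 1, 1, ⟨0, 0⟩, 1, 0⟩]⟩,
    ⟨0, -12, ⟨12, -3⟩, 6, ⟨18, 18⟩, [⟨⟨0, 0⟩, ⟨1, 0⟩, 29, 1, 1, ⟨0, 0⟩, 1, 0⟩]⟩,
    ⟨3, 6, ⟨12, 16⟩, 6, ⟨18, 15⟩, [⟨⟨0, 0⟩, ⟨1, 0⟩, 30, 0, 1, ⟨0, 0⟩, 1, 0⟩]⟩]⟩,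
  ⟨⟨1, 0⟩, 0, [
    ⟨1, -6, ⟨24, 14⟩, -6, ⟨12, 2⟩, [⟨⟨0, 0⟩, ⟨1, 0⟩, 27, 1, 1, ⟨0, 0⟩, 1, 0⟩]⟩,
    ⟨3, 12, ⟨12, 21⟩, 6, ⟨18, 14⟩, [⟨⟨0, 0⟩, ⟨1, 0⟩, 28, 1, 1, ⟨0, 0⟩, 1, 0⟩]⟩,
    ⟨0, -6, ⟨12, 1⟩, 6, ⟨18, 19⟩, [⟨⟨0, 0⟩, ⟨1, 0⟩, 31, 0, 1, ⟨0, 0⟩, 1, 0⟩]⟩]⟩,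
  ⟨⟨1, 0⟩, 0, [
    ⟨1, -6, ⟨12, 2⟩, -6, ⟨24, 9⟩, [⟨⟨0, 0⟩, ⟨1, 0⟩, 28, 2, 1, ⟨0, 0⟩, 1, 0⟩]⟩,
    ⟨3, -6, ⟨24, 10⟩, 6, ⟨18, 16⟩, [⟨⟨0, 0⟩, ⟨1, -1⟩, 24, 0, 1, ⟨0, 1⟩, 1, 0⟩, ⟨⟨1, -1⟩, ⟨0, 1⟩, 70, 0, 0, ⟨0, 0⟩, 1, 0⟩]⟩,
    ⟨1, 12, ⟨12, 24⟩, -6, ⟨12, 0⟩, [⟨⟨0, 0⟩, ⟨1, 0⟩, 31, 2, 1, ⟨0, 0⟩, 1, 0⟩]⟩]⟩,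
  ⟨⟨1, 0⟩, 0, [
    ⟨1, 6, ⟨12, 17⟩, -6, ⟨12, 1⟩, [⟨⟨0, 0⟩, ⟨1, 0⟩, 29, 2, 1, ⟨0, 0⟩, 1, 0⟩]⟩,
    ⟨0, 6, ⟨0, 7⟩, 6, ⟨18, 20⟩, [⟨⟨0, 0⟩, ⟨1, -1⟩, 25, 0, 1, ⟨0, 1⟩, 1, 0⟩, ⟨⟨1, -1⟩, ⟨0, 1⟩, 54, 2, 0, ⟨0, 0⟩, 1, 0⟩]⟩,
    ⟨1, -12, ⟨12, -6⟩, -6, ⟨24, 8⟩, [⟨⟨0, 0⟩, ⟨1, 0⟩, 30, 2, 1, ⟨0, 0⟩, 1, 0⟩]⟩]⟩,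
  ⟨⟨1, 0⟩, 0, [
    ⟨2, 6, ⟨0, 2⟩, -6, ⟨12, 4⟩, [⟨⟨0, 0⟩, ⟨0, 1⟩, 73, 1, 0, ⟨0, 0⟩, 1, 0⟩, ⟨⟨0, 1⟩, ⟨1, -1⟩, 38, 1, 1, ⟨0, 0⟩, 1, 0⟩]⟩,
    ⟨4, -12, ⟨12, 3⟩, 6, ⟨18, 11⟩, [⟨⟨0, 0⟩, ⟨1, 0⟩, 33, 1, 1, ⟨0, 0⟩, 1, 0⟩]⟩,
    ⟨1, 6, ⟨12, 13⟩, 6, ⟨0, 2⟩, [⟨⟨0, 0⟩, ⟨1, 0⟩, 34, 0, 1, ⟨0, 0⟩, 1, 0⟩]⟩]⟩,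
  ⟨⟨1, 0⟩, 0, [
    ⟨2, -6, ⟨24, 17⟩, -6, ⟨24, 16⟩, [⟨⟨0, 0⟩, ⟨0, 1⟩, 48, 2, 0, ⟨0, 0⟩, 1, 1⟩, ⟨⟨0, 1⟩, ⟨1, -1⟩, 39, 1, 1, ⟨0, 0⟩, 1, 0⟩]⟩,
    ⟨1, 12, ⟨12, 15⟩, 6, ⟨0, 1⟩, [⟨⟨0, 0⟩, ⟨1, 0⟩, 32, 1, 1, ⟨0, 0⟩, 1, 0⟩]⟩,
    ⟨4, -6, ⟨12, 4⟩, 6, ⟨18, 12⟩, [⟨⟨0, 0⟩, ⟨1, 0⟩, 35, 0, 1, ⟨0, 0⟩, 1, 0⟩]⟩]⟩,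
  ⟨⟨1, 0⟩, 0, [
    ⟨2, -6, ⟨12, 5⟩, -6, ⟨12, 3⟩, [⟨⟨0, 0⟩, ⟨1, 0⟩, 32, 2, 1, ⟨0, 0⟩, 1, 0⟩]⟩,
    ⟨1, -6, ⟨24, 13⟩, 6, ⟨0, 3⟩, [⟨⟨0, 0⟩, ⟨1, 0⟩, 36, 0, 1, ⟨0, 0⟩, 1, 0⟩]⟩,
    ⟨2, 12, ⟨12, 18⟩, -6, ⟨24, 14⟩, [⟨⟨0, 0⟩, ⟨1, 0⟩, 35, 2, 1, ⟨0, 0⟩, 1, 0⟩]⟩]⟩,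
  ⟨⟨1, 0⟩, 0, [
    ⟨2, 6, ⟨12, 14⟩, -6, ⟨24, 15⟩, [⟨⟨0, 0⟩, ⟨1, 0⟩, 33, 2, 1, ⟨0, 0⟩, 1, 0⟩]⟩,
    ⟨4, 6, ⟨0, 4⟩, 6, ⟨18, 13⟩, [⟨⟨0, 0⟩, ⟨1, 0⟩, 37, 0, 1, ⟨0, 0⟩, 1, 0⟩]⟩,
    ⟨2, -12, ⟨12, 0⟩, -6, ⟨12, 2⟩, [⟨⟨0, 0⟩, ⟨1, 0⟩, 34, 2, 1, ⟨0, 0⟩, 1, 0⟩]⟩]⟩,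
  ⟨⟨1, 0⟩, 0, [
    ⟨2, 6, ⟨0, 5⟩, -6, ⟨24, 13⟩, [⟨⟨0, 0⟩, ⟨1, 0⟩, 34, 1, 1, ⟨0, 0⟩, 1, 0⟩]⟩,
    ⟨1, -12, ⟨12, -3⟩, 6, ⟨0, 4⟩, [⟨⟨0, 0⟩, ⟨1, 0⟩, 37, 1, 1, ⟨0, 0⟩, 1, 0⟩]⟩,
    ⟨4, 6, ⟨12, 16⟩, 6, ⟨18, 15⟩, [⟨⟨0, 0⟩, ⟨1, 0⟩, 38, 0, 1, ⟨0, 0⟩, 1, 0⟩]⟩]⟩,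
  ⟨⟨1, 0⟩, 0, [
    ⟨2, -6, ⟨24, 14⟩, -6, ⟨12, 1⟩, [⟨⟨0, 0⟩, ⟨1, 0⟩, 35, 1, 1, ⟨0, 0⟩, 1, 0⟩]⟩,
    ⟨4, 12, ⟨12, 21⟩, 6, ⟨18, 14⟩, [⟨⟨0, 0⟩, ⟨1, 0⟩, 36, 1, 1, ⟨0, 0⟩, 1, 0⟩]⟩,
    ⟨1, -6, ⟨12, 1⟩, 6, ⟨0, 5⟩, [⟨⟨0, 0⟩, ⟨1, 0⟩, 39, 0, 1, ⟨0, 0⟩, 1, 0⟩]⟩]⟩,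
  ⟨⟨1, 0⟩, 0, [
    ⟨2, -6, ⟨12, 2⟩, -6, ⟨24, 12⟩, [⟨⟨0, 0⟩, ⟨1, 0⟩, 36, 2, 1, ⟨0, 0⟩, 1, 0⟩]⟩,
    ⟨4, -6, ⟨24, 10⟩, 6, ⟨18, 16⟩, [⟨⟨0, 0⟩, ⟨1, -1⟩, 32, 0, 1, ⟨0, 1⟩, 1, 0⟩, ⟨⟨1, -1⟩, ⟨0, 1⟩, 78, 0, 0, ⟨0, 0⟩, 1, 0⟩]⟩,
    ⟨2, 12, ⟨12, 24⟩, -6, ⟨12, -1⟩, [⟨⟨0, 0⟩, ⟨1, 0⟩, 39, 2, 1, ⟨0, 0⟩, 1, 0⟩]⟩]⟩,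
  ⟨⟨1, 0⟩, 0, [
    ⟨2, 6, ⟨12, 17⟩, -6, ⟨12, 0⟩, [⟨⟨0, 0⟩, ⟨1, 0⟩, 37, 2, 1, ⟨0, 0⟩, 1, 0⟩]⟩,
    ⟨1, 6, ⟨0, 7⟩, 6, ⟨0, 6⟩, [⟨⟨0, 0⟩, ⟨1, -1⟩, 33, 0, 1, ⟨0, 1⟩, 1, 0⟩, ⟨⟨1, -1⟩, ⟨0, 1⟩, 68, 2, 0, ⟨0, 0⟩, 1, 0⟩]⟩,
    ⟨2, -12, ⟨12, -6⟩, -6, ⟨24, 11⟩, [⟨⟨0, 0⟩, ⟨1, 0⟩, 38, 2, 1, ⟨0, 0⟩, 1, 0⟩]⟩]⟩,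
  ⟨⟨1, 0⟩, 0, [
    ⟨3, 6, ⟨0, 2⟩, -6, ⟨6, 0⟩, [⟨⟨0, 0⟩, ⟨0, 1⟩, 65, 2, 0, ⟨0, 0⟩, 1, 0⟩, ⟨⟨0, 1⟩, ⟨1, -1⟩, 46, 1, 1, ⟨0, 0⟩, 1, 0⟩]⟩,
    ⟨5, -12, ⟨12, 3⟩, 6, ⟨18, 17⟩, [⟨⟨0, 0⟩, ⟨1, 0⟩, 41, 1, 1, ⟨0, 0⟩, 1, 0⟩]⟩,
    ⟨2, 6, ⟨12, 13⟩, 6, ⟨0, 3⟩, [⟨⟨0, 0⟩, ⟨1, 0⟩, 42, 0, 1, ⟨0, 0⟩, 1, 0⟩]⟩]⟩,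
  ⟨⟨1, 0⟩, 0, [
    ⟨3, -6, ⟨24, 17⟩, -6, ⟨18, 8⟩, [⟨⟨0, 0⟩, ⟨0, 1⟩, 67, 0, 0, ⟨0, 0⟩, 1, 0⟩, ⟨⟨0, 1⟩, ⟨1, -1⟩, 47, 1, 1, ⟨0, 0⟩, 1, 0⟩]⟩,
    ⟨2, 12, ⟨12, 15⟩, 6, ⟨0, 2⟩, [⟨⟨0, 0⟩, ⟨1, 0⟩, 40, 1, 1, ⟨0, 0⟩, 1, 0⟩]⟩,
    ⟨5, -6, ⟨12, 4⟩, 6, ⟨18, 18⟩, [⟨⟨0, 0⟩, ⟨1, 0⟩, 43, 0, 1, ⟨0, 0⟩, 1, 0⟩]⟩]⟩,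
  ⟨⟨1, 0⟩, 0, [
    ⟨3, -6, ⟨12, 5⟩, -6, ⟨6, -1⟩, [⟨⟨0, 0⟩, ⟨1, 0⟩, 40, 2, 1, ⟨0, 0⟩, 1, 0⟩]⟩,
    ⟨2, -6, ⟨24, 13⟩, 6, ⟨0, 4⟩, [⟨⟨0, 0⟩, ⟨1, 0⟩, 44, 0, 1, ⟨0, 0⟩, 1, 0⟩]⟩,
    ⟨3, 12, ⟨12, 18⟩, -6, ⟨18, 6⟩, [⟨⟨0, 0⟩, ⟨1, 0⟩, 43, 2, 1, ⟨0, 0⟩, 1, 0⟩]⟩]⟩,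
  ⟨⟨1, 0⟩, 0, [
    ⟨3, 6, ⟨12, 14⟩, -6, ⟨18, 7⟩, [⟨⟨0, 0⟩, ⟨1, 0⟩, 41, 2, 1, ⟨0, 0⟩, 1, 0⟩]⟩,
    ⟨5, 6, ⟨0, 4⟩, 6, ⟨18, 19⟩, [⟨⟨0, 0⟩, ⟨1, 0⟩, 45, 0, 1, ⟨0, 0⟩, 1, 0⟩]⟩,
    ⟨3, -12, ⟨12, 0⟩, -6, ⟨6, -2⟩, [⟨⟨0, 0⟩, ⟨1, 0⟩, 42, 2, 1, ⟨0, 0⟩, 1, 0⟩]⟩]⟩,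
  ⟨⟨1, 0⟩, 0, [
    ⟨3, 6, ⟨0, 5⟩, -6, ⟨18, 5⟩, [⟨⟨0, 0⟩, ⟨1, 0⟩, 42, 1, 1, ⟨0, 0⟩, 1, 0⟩]⟩,
    ⟨2, -12, ⟨12, -3⟩, 6, ⟨0, 5⟩, [⟨⟨0, 0⟩, ⟨1, 0⟩, 45, 1, 1, ⟨0, 0⟩, 1, 0⟩]⟩,
    ⟨5, 6, ⟨12, 16⟩, 6, ⟨18, 21⟩, [⟨⟨0, 0⟩, ⟨1, 0⟩, 46, 0, 1, ⟨0, 0⟩, 1, 0⟩]⟩]⟩,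
  ⟨⟨1, 0⟩, 0, [
    ⟨3, -6, ⟨24, 14⟩, -6, ⟨6, -3⟩, [⟨⟨0, 0⟩, ⟨1, 0⟩, 43, 1, 1, ⟨0, 0⟩, 1, 0⟩]⟩,
    ⟨5, 12, ⟨12, 21⟩, 6, ⟨18, 20⟩, [⟨⟨0, 0⟩, ⟨1, 0⟩, 44, 1, 1, ⟨0, 0⟩, 1, 0⟩]⟩,
    ⟨2, -6, ⟨12, 1⟩, 6, ⟨0, 6⟩, [⟨⟨0, 0⟩, ⟨1, 0⟩, 47, 0, 1, ⟨0, 0⟩, 1, 0⟩]⟩]⟩,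
  ⟨⟨1, 0⟩, 0, [
    ⟨3, -6, ⟨12, 2⟩, -6, ⟨18, 4⟩, [⟨⟨0, 0⟩, ⟨1, 0⟩, 44, 2, 1, ⟨0, 0⟩, 1, 0⟩]⟩,
    ⟨5, -6, ⟨24, 10⟩, 6, ⟨18, 22⟩, [⟨⟨0, 0⟩, ⟨1, -1⟩, 40, 0, 1, ⟨0, 1⟩, 1, 0⟩, ⟨⟨1, -1⟩, ⟨0, 1⟩, 48, 4, 0, ⟨0, 0⟩, 1, 1⟩]⟩,
    ⟨3, 12, ⟨12, 24⟩, -6, ⟨6, -5⟩, [⟨⟨0, 0⟩, ⟨1, 0⟩, 47, 2, 1, ⟨0, 0⟩, 1, 0⟩]⟩]⟩,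
  ⟨⟨1, 0⟩, 0, [
    ⟨3, 6, ⟨12, 17⟩, -6, ⟨6, -4⟩, [⟨⟨0, 0⟩, ⟨1, 0⟩, 45, 2, 1, ⟨0, 0⟩, 1, 0⟩]⟩,
    ⟨2, 6, ⟨0, 7⟩, 6, ⟨0, 7⟩, [⟨⟨0, 0⟩, ⟨1, -1⟩, 41, 0, 1, ⟨0, 1⟩, 1, 0⟩, ⟨⟨1, -1⟩, ⟨0, 1⟩, 59, 1, 0, ⟨0, 0⟩, 1, 0⟩]⟩,
    ⟨3, -12, ⟨12, -6⟩, -6, ⟨18, 3⟩, [⟨⟨0, 0⟩, ⟨1, 0⟩, 46, 2, 1, ⟨0, 0⟩, 1, 0⟩]⟩]⟩,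
  ⟨⟨0, 1⟩, 3, [
    ⟨0, 0, ⟨6, 4⟩, 0, ⟨0, 0⟩, [⟨⟨0, 0⟩, ⟨0, 1⟩, 49, 2, 0, ⟨0, 0⟩, 1, 0⟩]⟩,
    ⟨4, 0, ⟨0, 3⟩, 0, ⟨0, 0⟩, [⟨⟨0, 0⟩, ⟨0, 1⟩, 69, 0, 0, ⟨0, 0⟩, 1, 0⟩]⟩,
    ⟨1, 0, ⟨0, 1⟩, 0, ⟨0, 0⟩, [⟨⟨0, 0⟩, ⟨0, 1⟩, 33, 0, 0, ⟨0, 0⟩, 1, 0⟩]⟩,
    ⟨2, 0, ⟨12, 7⟩, 0, ⟨0, 0⟩, [⟨⟨0, 0⟩, ⟨0, 1⟩, 67, 2, 0, ⟨0, 0⟩, 1, 0⟩]⟩,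
    ⟨3, 0, ⟨6, 2⟩, 0, ⟨0, 0⟩, [⟨⟨0, 0⟩, ⟨0, 1⟩, 46, 1, 0, ⟨1, -1⟩, 1, 0⟩]⟩,
    ⟨5, 0, ⟨12, 7⟩, 0, ⟨0, 0⟩, [⟨⟨0, 0⟩, ⟨0, 1⟩, 74, 0, 0, ⟨0, 0⟩, 1, 0⟩]⟩]⟩,
  ⟨⟨0, 1⟩, 1, [
    ⟨0, 0, ⟨18, 14⟩, 0, ⟨0, 1⟩, [⟨⟨0, 0⟩, ⟨0, 1⟩, 59, 2, 0, ⟨0, 0⟩, 1, 0⟩]⟩,
    ⟨2, 0, ⟨18, 14⟩, 0, ⟨6, 3⟩, [⟨⟨0, 0⟩, ⟨0, 1⟩, 78, 2, 0, ⟨0, 0⟩, 1, 0⟩]⟩,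
    ⟨4, 0, ⟨18, 14⟩, 0, ⟨24, 16⟩, [⟨⟨0, 0⟩, ⟨0, 1⟩, 48, 0, 0, ⟨0, 0⟩, 1, 1⟩]⟩]⟩,
  ⟨⟨0, 1⟩, 2, [
    ⟨1, 0, ⟨18, 14⟩, 0, ⟨24, 15⟩, [⟨⟨0, 0⟩, ⟨0, 1⟩, 69, 2, 0, ⟨0, 0⟩, 1, 0⟩]⟩,
    ⟨3, 0, ⟨18, 14⟩, 0, ⟨12, 3⟩, [⟨⟨0, 0⟩, ⟨0, 1⟩, 63, 1, 0, ⟨0, 0⟩, 1, 0⟩]⟩,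
    ⟨5, 0, ⟨18, 14⟩, 0, ⟨12, 10⟩, [⟨⟨0, 0⟩, ⟨0, 1⟩, 60, 1, 0, ⟨0, 0⟩, 1, 0⟩]⟩]⟩,
  ⟨⟨0, 1⟩, 0, [
    ⟨0, 0, ⟨12, 7⟩, 0, ⟨6, 8⟩, [⟨⟨0, 0⟩, ⟨0, 1⟩, 71, 2, 0, ⟨0, 0⟩, 1, 0⟩]⟩,
    ⟨1, 0, ⟨12, 10⟩, 0, ⟨6, 3⟩, [⟨⟨0, 0⟩, ⟨0, 1⟩, 52, 2, 0, ⟨0, 0⟩, 1, 0⟩]⟩,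
    ⟨5, 0, ⟨0, 1⟩, 0, ⟨6, 8⟩, [⟨⟨0, 0⟩, ⟨0, 1⟩, 17, 0, 0, ⟨0, 0⟩, 1, 0⟩]⟩]⟩,
  ⟨⟨0, 1⟩, 0, [
    ⟨1, 0, ⟨12, 7⟩, 0, ⟨6, 4⟩, [⟨⟨0, 0⟩, ⟨0, 1⟩, 70, 2, 0, ⟨0, 0⟩, 1, 0⟩]⟩,
    ⟨2, 0, ⟨0, 3⟩, 0, ⟨18, 14⟩, [⟨⟨0, 0⟩, ⟨0, 1⟩, 79, 1, 0, ⟨0, 0⟩, 1, 0⟩]⟩,
    ⟨5, 0, ⟨12, 8⟩, 0, ⟨6, 7⟩, [⟨⟨0, 0⟩, ⟨0, 1⟩, 51, 1, 0, ⟨0, 0⟩, 1, 0⟩]⟩]⟩,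
  ⟨⟨0, 1⟩, 0, [
    ⟨2, 0, ⟨12, 8⟩, 0, ⟨18, 11⟩, [⟨⟨0, 0⟩, ⟨0, 1⟩, 66, 2, 0, ⟨0, 0⟩, 1, 0⟩]⟩,
    ⟨4, 0, ⟨12, 7⟩, 0, ⟨12, 6⟩, [⟨⟨0, 0⟩, ⟨0, 1⟩, 72, 1, 0, ⟨0, 0⟩, 1, 0⟩]⟩,
    ⟨5, 0, ⟨0, 3⟩, 0, ⟨12, 13⟩, [⟨⟨0, 0⟩, ⟨0, 1⟩, 80, 0, 0, ⟨0, 0⟩, 1, 0⟩]⟩]⟩,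
  ⟨⟨0, 1⟩, 0, [
    ⟨0, 0, ⟨18, 13⟩, 0, ⟨24, 15⟩, [⟨⟨0, 0⟩, ⟨0, 1⟩, 74, 2, 0, ⟨0, 0⟩, 1, 0⟩]⟩,
    ⟨1, 0, ⟨12, 6⟩, 0, ⟨18, 9⟩, [⟨⟨0, 0⟩, ⟨0, 1⟩, 77, 2, 0, ⟨0, 0⟩, 1, 0⟩]⟩,
    ⟨1, 0, ⟨18, 17⟩, 0, ⟨18, 13⟩, [⟨⟨0, 0⟩, ⟨0, 1⟩, 31, 1, 0, ⟨1, -1⟩, 1, 0⟩]⟩]⟩,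
  ⟨⟨0, 1⟩, 0, [
    ⟨1, 0, ⟨0, 3⟩, 0, ⟨18, 11⟩, [⟨⟨0, 0⟩, ⟨0, 1⟩, 77, 1, 0, ⟨0, 0⟩, 1, 0⟩]⟩,
    ⟨4, 0, ⟨12, 6⟩, 0, ⟨24, 14⟩, [⟨⟨0, 0⟩, ⟨0, 1⟩, 78, 1, 0, ⟨0, 0⟩, 1, 0⟩]⟩,
    ⟨4, 0, ⟨12, 9⟩, 0, ⟨24, 12⟩, [⟨⟨0, 0⟩, ⟨0, 1⟩, 77, 0, 0, ⟨0, 0⟩, 1, 0⟩]⟩]⟩,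
  ⟨⟨0, 1⟩, 0, [
    ⟨1, 0, ⟨24, 16⟩, 0, ⟨12, 7⟩, [⟨⟨0, 0⟩, ⟨0, 1⟩, 8, 0, 0, ⟨0, 0⟩, 1, 0⟩]⟩,
    ⟨5, 0, ⟨12, 10⟩, 0, ⟨6, 2⟩, [⟨⟨0, 0⟩, ⟨0, 1⟩, 75, 0, 0, ⟨0, 0⟩, 1, 0⟩]⟩,
    ⟨3, 0, ⟨12, 10⟩, 0, ⟨24, 14⟩, [⟨⟨0, 0⟩, ⟨0, 1⟩, 76, 0, 0, ⟨0, 0⟩, 1, 0⟩]⟩]⟩,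
  ⟨⟨0, 1⟩, 0, [
    ⟨0, 0, ⟨0, 3⟩, 0, ⟨0, 6⟩, [⟨⟨0, 0⟩, ⟨0, 1⟩, 63, 2, 0, ⟨0, 0⟩, 1, 0⟩]⟩,
    ⟨3, 0, ⟨12, 7⟩, 0, ⟨12, 5⟩, [⟨⟨0, 0⟩, ⟨0, 1⟩, 58, 1, 0, ⟨0, 0⟩, 1, 0⟩]⟩,
    ⟨4, 0, ⟨12, 8⟩, 0, ⟨18, 9⟩, [⟨⟨0, 0⟩, ⟨0, 1⟩, 73, 0, 0, ⟨0, 0⟩, 1, 0⟩]⟩]⟩,
  ⟨⟨0, 1⟩, 0, [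
    ⟨0, 0, ⟨24, 16⟩, 0, ⟨12, 12⟩, [⟨⟨0, 0⟩, ⟨0, 1⟩, 0, 0, 0, ⟨0, 0⟩, 1, 0⟩]⟩,
    ⟨4, 0, ⟨12, 11⟩, 0, ⟨18, 8⟩, [⟨⟨0, 0⟩, ⟨0, 1⟩, 57, 1, 0, ⟨0, 0⟩, 1, 0⟩]⟩,
    ⟨3, 0, ⟨12, 9⟩, 0, ⟨12, 6⟩, [⟨⟨0, 0⟩, ⟨0, 1⟩, 61, 1, 0, ⟨0, 0⟩, 1, 0⟩]⟩]⟩,
  ⟨⟨0, 1⟩, 0, [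
    ⟨0, 0, ⟨24, 15⟩, 0, ⟨0, 2⟩, [⟨⟨0, 0⟩, ⟨0, 1⟩, 61, 2, 0, ⟨0, 0⟩, 1, 0⟩]⟩,
    ⟨3, 0, ⟨18, 17⟩, 0, ⟨12, 8⟩, [⟨⟨0, 0⟩, ⟨0, 1⟩, 47, 1, 0, ⟨1, -1⟩, 1, 0⟩]⟩,
    ⟨2, 0, ⟨6, 4⟩, 0, ⟨6, 2⟩, [⟨⟨0, 0⟩, ⟨0, 1⟩, 49, 0, 0, ⟨0, 0⟩, 1, 0⟩]⟩]⟩,
  ⟨⟨0, 1⟩, 0, [
    ⟨0, 0, ⟨0, 1⟩, 0, ⟨18, 14⟩, [⟨⟨0, 0⟩, ⟨0, 1⟩, 25, 0, 0, ⟨0, 0⟩, 1, 0⟩]⟩,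
    ⟨1, 0, ⟨6, 4⟩, 0, ⟨24, 14⟩, [⟨⟨0, 0⟩, ⟨0, 1⟩, 50, 2, 0, ⟨0, 0⟩, 1, 0⟩]⟩,
    ⟨5, 0, ⟨18, 13⟩, 0, ⟨12, 11⟩, [⟨⟨0, 0⟩, ⟨0, 1⟩, 72, 0, 0, ⟨0, 0⟩, 1, 0⟩]⟩]⟩,
  ⟨⟨0, 1⟩, 0, [
    ⟨0, 0, ⟨12, 6⟩, 0, ⟨0, 3⟩, [⟨⟨0, 0⟩, ⟨0, 1⟩, 62, 2, 0, ⟨0, 0⟩, 1, 0⟩]⟩,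
    ⟨0, 0, ⟨12, 9⟩, 0, ⟨12, 11⟩, [⟨⟨0, 0⟩, ⟨0, 1⟩, 58, 2, 0, ⟨0, 0⟩, 1, 0⟩]⟩,
    ⟨3, 0, ⟨0, 3⟩, 0, ⟨12, 7⟩, [⟨⟨0, 0⟩, ⟨0, 1⟩, 59, 0, 0, ⟨0, 0⟩, 1, 0⟩]⟩]⟩,
  ⟨⟨0, 1⟩, 0, [
    ⟨0, 0, ⟨12, 8⟩, 0, ⟨0, 4⟩, [⟨⟨0, 0⟩, ⟨0, 1⟩, 73, 2, 0, ⟨0, 0⟩, 1, 0⟩]⟩,
    ⟨2, 0, ⟨24, 16⟩, 0, ⟨12, 6⟩, [⟨⟨0, 0⟩, ⟨0, 1⟩, 16, 0, 0, ⟨0, 0⟩, 1, 0⟩]⟩,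
    ⟨0, 0, ⟨12, 12⟩, 0, ⟨12, 10⟩, [⟨⟨0, 0⟩, ⟨0, 1⟩, 61, 0, 0, ⟨0, 0⟩, 1, 0⟩]⟩]⟩,
  ⟨⟨0, 1⟩, 0, [
    ⟨0, 0, ⟨18, 17⟩, 0, ⟨0, 7⟩, [⟨⟨0, 0⟩, ⟨0, 1⟩, 23, 1, 0, ⟨1, -1⟩, 1, 0⟩]⟩,
    ⟨5, 0, ⟨6, 4⟩, 0, ⟨12, 9⟩, [⟨⟨0, 0⟩, ⟨0, 1⟩, 50, 1, 0, ⟨0, 0⟩, 1, 0⟩]⟩,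
    ⟨3, 0, ⟨24, 15⟩, 0, ⟨12, 4⟩, [⟨⟨0, 0⟩, ⟨0, 1⟩, 57, 0, 0, ⟨0, 0⟩, 1, 0⟩]⟩]⟩,
  ⟨⟨0, 1⟩, 0, [
    ⟨4, 0, ⟨18, 13⟩, 0, ⟨12, 3⟩, [⟨⟨0, 0⟩, ⟨0, 1⟩, 75, 1, 0, ⟨0, 0⟩, 1, 0⟩]⟩,
    ⟨5, 0, ⟨12, 6⟩, 0, ⟨6, 4⟩, [⟨⟨0, 0⟩, ⟨0, 1⟩, 80, 1, 0, ⟨0, 0⟩, 1, 0⟩]⟩,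
    ⟨5, 0, ⟨18, 17⟩, 0, ⟨12, 15⟩, [⟨⟨0, 0⟩, ⟨0, 1⟩, 15, 1, 0, ⟨1, -1⟩, 1, 0⟩]⟩]⟩,
  ⟨⟨0, 1⟩, 0, [
    ⟨3, 0, ⟨0, 1⟩, 0, ⟨6, 1⟩, [⟨⟨0, 0⟩, ⟨0, 1⟩, 1, 0, 0, ⟨0, 0⟩, 1, 0⟩]⟩,
    ⟨4, 0, ⟨0, 1⟩, 0, ⟨6, 2⟩, [⟨⟨0, 0⟩, ⟨0, 1⟩, 9, 0, 0, ⟨0, 0⟩, 1, 0⟩]⟩,
    ⟨5, 0, ⟨24, 16⟩, 0, ⟨18, 16⟩, [⟨⟨0, 0⟩, ⟨0, 1⟩, 40, 0, 0, ⟨0, 0⟩, 1, 0⟩]⟩]⟩,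
  ⟨⟨0, 1⟩, 0, [
    ⟨2, 0, ⟨18, 13⟩, 0, ⟨18, 12⟩, [⟨⟨0, 0⟩, ⟨0, 1⟩, 70, 1, 0, ⟨0, 0⟩, 1, 0⟩]⟩,
    ⟨3, 0, ⟨18, 13⟩, 0, ⟨24, 12⟩, [⟨⟨0, 0⟩, ⟨0, 1⟩, 75, 2, 0, ⟨0, 0⟩, 1, 0⟩]⟩,
    ⟨4, 0, ⟨12, 10⟩, 0, ⟨12, 5⟩, [⟨⟨0, 0⟩, ⟨0, 1⟩, 53, 0, 0, ⟨0, 0⟩, 1, 0⟩]⟩]⟩,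
  ⟨⟨0, 1⟩, 0, [
    ⟨2, 0, ⟨0, 1⟩, 0, ⟨0, 1⟩, [⟨⟨0, 0⟩, ⟨0, 1⟩, 41, 0, 0, ⟨0, 0⟩, 1, 0⟩]⟩,
    ⟨3, 0, ⟨12, 6⟩, 0, ⟨18, 9⟩, [⟨⟨0, 0⟩, ⟨0, 1⟩, 76, 1, 0, ⟨0, 0⟩, 1, 0⟩]⟩,
    ⟨3, 0, ⟨12, 11⟩, 0, ⟨24, 16⟩, [⟨⟨0, 0⟩, ⟨0, 1⟩, 48, 3, 0, ⟨0, 0⟩, 1, 1⟩]⟩]⟩,
  ⟨⟨0, 1⟩, 0, [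
    ⟨1, 0, ⟨18, 13⟩, 0, ⟨6, 1⟩, [⟨⟨0, 0⟩, ⟨0, 1⟩, 71, 1, 0, ⟨0, 0⟩, 1, 0⟩]⟩,
    ⟨2, 0, ⟨12, 6⟩, 0, ⟨18, 8⟩, [⟨⟨0, 0⟩, ⟨0, 1⟩, 79, 2, 0, ⟨0, 0⟩, 1, 0⟩]⟩,
    ⟨2, 0, ⟨18, 17⟩, 0, ⟨18, 16⟩, [⟨⟨0, 0⟩, ⟨0, 1⟩, 39, 1, 0, ⟨1, -1⟩, 1, 0⟩]⟩]⟩,
  ⟨⟨0, 1⟩, 0, [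
    ⟨1, 0, ⟨24, 15⟩, 0, ⟨24, 16⟩, [⟨⟨0, 0⟩, ⟨0, 1⟩, 48, 1, 0, ⟨0, 0⟩, 1, 1⟩]⟩,
    ⟨4, 0, ⟨18, 17⟩, 0, ⟨0, 1⟩, [⟨⟨0, 0⟩, ⟨0, 1⟩, 7, 1, 0, ⟨1, -1⟩, 1, 0⟩]⟩,
    ⟨3, 0, ⟨6, 4⟩, 0, ⟨12, 2⟩, [⟨⟨0, 0⟩, ⟨0, 1⟩, 50, 0, 0, ⟨0, 0⟩, 1, 0⟩]⟩]⟩,
  ⟨⟨0, 1⟩, 0, [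
    ⟨1, 0, ⟨6, 2⟩, 0, ⟨6, 5⟩, [⟨⟨0, 0⟩, ⟨0, 1⟩, 30, 1, 0, ⟨1, -1⟩, 1, 0⟩]⟩,
    ⟨3, 0, ⟨6, 5⟩, 0, ⟨24, 11⟩, [⟨⟨0, 0⟩, ⟨0, 1⟩, 66, 0, 0, ⟨0, 0⟩, 1, 0⟩]⟩,
    ⟨2, 0, ⟨12, 11⟩, 0, ⟨18, 13⟩, [⟨⟨0, 0⟩, ⟨0, 1⟩, 52, 0, 0, ⟨0, 0⟩, 1, 0⟩]⟩]⟩,
  ⟨⟨0, 1⟩, 0, [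
    ⟨0, 0, ⟨6, 2⟩, 0, ⟨6, 9⟩, [⟨⟨0, 0⟩, ⟨0, 1⟩, 22, 1, 0, ⟨1, -1⟩, 1, 0⟩]⟩,
    ⟨2, 0, ⟨6, 5⟩, 0, ⟨18, 7⟩, [⟨⟨0, 0⟩, ⟨0, 1⟩, 68, 0, 0, ⟨0, 0⟩, 1, 0⟩]⟩,
    ⟨1, 0, ⟨12, 11⟩, 0, ⟨6, 2⟩, [⟨⟨0, 0⟩, ⟨0, 1⟩, 51, 0, 0, ⟨0, 0⟩, 1, 0⟩]⟩]⟩,
  ⟨⟨0, 1⟩, 0, [
    ⟨0, 0, ⟨6, 5⟩, 0, ⟨18, 13⟩, [⟨⟨0, 0⟩, ⟨0, 1⟩, 60, 2, 0, ⟨0, 0⟩, 1, 0⟩]⟩,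
    ⟨5, 0, ⟨12, 11⟩, 0, ⟨12, 12⟩, [⟨⟨0, 0⟩, ⟨0, 1⟩, 53, 1, 0, ⟨0, 0⟩, 1, 0⟩]⟩,
    ⟨4, 0, ⟨6, 2⟩, 0, ⟨12, 7⟩, [⟨⟨0, 0⟩, ⟨0, 1⟩, 6, 1, 0, ⟨1, -1⟩, 1, 0⟩]⟩]⟩,
  ⟨⟨0, 1⟩, 0, [
    ⟨0, 0, ⟨12, 10⟩, 0, ⟨0, 5⟩, [⟨⟨0, 0⟩, ⟨0, 1⟩, 57, 2, 0, ⟨0, 0⟩, 1, 0⟩]⟩,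
    ⟨4, 0, ⟨24, 16⟩, 0, ⟨18, 10⟩, [⟨⟨0, 0⟩, ⟨0, 1⟩, 32, 0, 0, ⟨0, 0⟩, 1, 0⟩]⟩,
    ⟨2, 0, ⟨12, 10⟩, 0, ⟨12, 5⟩, [⟨⟨0, 0⟩, ⟨0, 1⟩, 62, 0, 0, ⟨0, 0⟩, 1, 0⟩]⟩]⟩,
  ⟨⟨0, 1⟩, 0, [
    ⟨0, 0, ⟨12, 11⟩, 0, ⟨24, 16⟩, [⟨⟨0, 0⟩, ⟨0, 1⟩, 48, 5, 0, ⟨0, 0⟩, 1, 1⟩]⟩,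
    ⟨5, 0, ⟨6, 2⟩, 0, ⟨0, 1⟩, [⟨⟨0, 0⟩, ⟨0, 1⟩, 14, 1, 0, ⟨1, -1⟩, 1, 0⟩]⟩,
    ⟨1, 0, ⟨6, 5⟩, 0, ⟨18, 8⟩, [⟨⟨0, 0⟩, ⟨0, 1⟩, 54, 0, 0, ⟨0, 0⟩, 1, 0⟩]⟩]⟩,
  ⟨⟨0, 1⟩, 0, [
    ⟨3, 0, ⟨12, 8⟩, 0, ⟨24, 13⟩, [⟨⟨0, 0⟩, ⟨0, 1⟩, 56, 1, 0, ⟨0, 0⟩, 1, 0⟩]⟩,
    ⟨5, 0, ⟨6, 5⟩, 0, ⟨6, 3⟩, [⟨⟨0, 0⟩, ⟨0, 1⟩, 64, 0, 0, ⟨0, 0⟩, 1, 0⟩]⟩,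
    ⟨4, 0, ⟨6, 5⟩, 0, ⟨12, 4⟩, [⟨⟨0, 0⟩, ⟨0, 1⟩, 66, 1, 0, ⟨0, 0⟩, 1, 0⟩]⟩]⟩,
  ⟨⟨0, 1⟩, 0, [
    ⟨1, 0, ⟨12, 8⟩, 0, ⟨12, 6⟩, [⟨⟨0, 0⟩, ⟨0, 1⟩, 56, 2, 0, ⟨0, 0⟩, 1, 0⟩]⟩,
    ⟨3, 0, ⟨12, 12⟩, 0, ⟨24, 15⟩, [⟨⟨0, 0⟩, ⟨0, 1⟩, 67, 1, 0, ⟨0, 0⟩, 1, 0⟩]⟩,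
    ⟨3, 0, ⟨24, 16⟩, 0, ⟨18, 10⟩, [⟨⟨0, 0⟩, ⟨0, 1⟩, 24, 0, 0, ⟨0, 0⟩, 1, 0⟩]⟩]⟩,
  ⟨⟨0, 1⟩, 0, [
    ⟨1, 0, ⟨12, 9⟩, 0, ⟨18, 10⟩, [⟨⟨0, 0⟩, ⟨0, 1⟩, 55, 2, 0, ⟨0, 0⟩, 1, 0⟩]⟩,
    ⟨4, 0, ⟨24, 15⟩, 0, ⟨24, 13⟩, [⟨⟨0, 0⟩, ⟨0, 1⟩, 55, 0, 0, ⟨0, 0⟩, 1, 0⟩]⟩,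
    ⟨1, 0, ⟨12, 12⟩, 0, ⟨18, 12⟩, [⟨⟨0, 0⟩, ⟨0, 1⟩, 54, 1, 0, ⟨0, 0⟩, 1, 0⟩]⟩]⟩,
  ⟨⟨0, 1⟩, 0, [
    ⟨2, 0, ⟨6, 2⟩, 0, ⟨6, 4⟩, [⟨⟨0, 0⟩, ⟨0, 1⟩, 38, 1, 0, ⟨1, -1⟩, 1, 0⟩]⟩,
    ⟨4, 0, ⟨12, 12⟩, 0, ⟨24, 11⟩, [⟨⟨0, 0⟩, ⟨0, 1⟩, 55, 1, 0, ⟨0, 0⟩, 1, 0⟩]⟩,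
    ⟨4, 0, ⟨6, 4⟩, 0, ⟨24, 15⟩, [⟨⟨0, 0⟩, ⟨0, 1⟩, 49, 1, 0, ⟨0, 0⟩, 1, 0⟩]⟩]⟩,
  ⟨⟨0, 1⟩, 0, [
    ⟨2, 0, ⟨12, 9⟩, 0, ⟨18, 9⟩, [⟨⟨0, 0⟩, ⟨0, 1⟩, 80, 2, 0, ⟨0, 0⟩, 1, 0⟩]⟩,
    ⟨5, 0, ⟨24, 15⟩, 0, ⟨6, 6⟩, [⟨⟨0, 0⟩, ⟨0, 1⟩, 52, 1, 0, ⟨0, 0⟩, 1, 0⟩]⟩,
    ⟨2, 0, ⟨12, 12⟩, 0, ⟨18, 15⟩, [⟨⟨0, 0⟩, ⟨0, 1⟩, 68, 1, 0, ⟨0, 0⟩, 1, 0⟩]⟩]⟩,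
  ⟨⟨0, 1⟩, 0, [
    ⟨2, 0, ⟨24, 15⟩, 0, ⟨18, 10⟩, [⟨⟨0, 0⟩, ⟨0, 1⟩, 53, 2, 0, ⟨0, 0⟩, 1, 0⟩]⟩,
    ⟨5, 0, ⟨12, 12⟩, 0, ⟨12, 14⟩, [⟨⟨0, 0⟩, ⟨0, 1⟩, 64, 1, 0, ⟨0, 0⟩, 1, 0⟩]⟩,
    ⟨5, 0, ⟨12, 9⟩, 0, ⟨6, 5⟩, [⟨⟨0, 0⟩, ⟨0, 1⟩, 79, 0, 0, ⟨0, 0⟩, 1, 0⟩]⟩]⟩]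
  tracks := [
  [⟨⟨0, 1⟩, ⟨24, 18⟩, 12, [
      ⟨12, ⟨0, 6⟩, ⟨24, 18⟩, [(23, 2), (61, 0), (18, 2)]⟩,
      ⟨12, ⟨0, 12⟩, ⟨24, 24⟩, [(19, 2), (62, 2), (22, 2)]⟩]⟩],
  [⟨⟨0, 1⟩, ⟨24, 18⟩, 6, [
      ⟨6, ⟨0, 1⟩, ⟨24, 19⟩, [(60, 0), (31, 1), (29, 2), (51, 0), (24, 2), (54, 0), (26, 1)]⟩]⟩],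
  [⟨⟨0, 1⟩, ⟨24, 18⟩, 6, [
      ⟨6, ⟨0, 2⟩, ⟨24, 20⟩, [(16, 0), (71, 0), (22, 0), (62, 0), (19, 0), (49, 0), (21, 0)]⟩]⟩],
  [⟨⟨0, 1⟩, ⟨24, 18⟩, 12, [
      ⟨12, ⟨0, 3⟩, ⟨24, 27⟩, [(57, 0), (0, 1), (25, 1), (59, 0)]⟩,
      ⟨12, ⟨0, 9⟩, ⟨24, 21⟩, [(28, 1), (61, 1), (5, 1)]⟩]⟩],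
  [⟨⟨0, 1⟩, ⟨24, 18⟩, 6, [
      ⟨6, ⟨0, 4⟩, ⟨24, 22⟩, [(3, 1), (48, 0), (1, 2), (73, 0), (4, 2), (6, 1), (58, 0)]⟩]⟩],
  [⟨⟨0, 1⟩, ⟨24, 18⟩, 6, [
      ⟨6, ⟨0, 5⟩, ⟨24, 23⟩, [(20, 0), (72, 0), (18, 0), (74, 0), (23, 0), (63, 0), (17, 0)]⟩]⟩],
  [⟨⟨0, 1⟩, ⟨24, 18⟩, 12, [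
      ⟨12, ⟨0, 6⟩, ⟨24, 18⟩, [(31, 2), (54, 1), (26, 2)]⟩,
      ⟨12, ⟨0, 12⟩, ⟨24, 24⟩, [(27, 2), (77, 2), (30, 2)]⟩]⟩],
  [⟨⟨0, 1⟩, ⟨24, 18⟩, 6, [
      ⟨6, ⟨0, 1⟩, ⟨24, 19⟩, [(48, 2), (39, 1), (37, 2), (52, 0), (32, 2), (68, 0), (34, 1)]⟩]⟩],
  [⟨⟨0, 1⟩, ⟨24, 18⟩, 6, [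
      ⟨6, ⟨0, 2⟩, ⟨24, 20⟩, [(24, 0), (70, 0), (30, 0), (76, 0), (27, 0), (50, 0), (29, 0)]⟩]⟩],
  [⟨⟨0, 1⟩, ⟨24, 18⟩, 12, [
      ⟨12, ⟨0, 3⟩, ⟨24, 27⟩, [(55, 0), (8, 1), (33, 1), (69, 0)]⟩,
      ⟨12, ⟨0, 9⟩, ⟨24, 21⟩, [(36, 1), (77, 0), (13, 1)]⟩]⟩],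
  [⟨⟨0, 1⟩, ⟨24, 18⟩, 6, [
      ⟨6, ⟨0, 4⟩, ⟨24, 22⟩, [(11, 1), (60, 1), (9, 2), (51, 1), (12, 2), (14, 1), (56, 0)]⟩]⟩],
  [⟨⟨0, 1⟩, ⟨24, 18⟩, 6, [
      ⟨6, ⟨0, 5⟩, ⟨24, 23⟩, [(28, 0), (74, 2), (26, 0), (71, 2), (31, 0), (54, 2), (25, 0)]⟩]⟩],
  [⟨⟨0, 1⟩, ⟨24, 18⟩, 12, [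
      ⟨12, ⟨0, 6⟩, ⟨24, 18⟩, [(39, 2), (68, 1), (34, 2)]⟩,
      ⟨12, ⟨0, 12⟩, ⟨24, 24⟩, [(35, 2), (79, 2), (38, 2)]⟩]⟩],
  [⟨⟨0, 1⟩, ⟨24, 18⟩, 6, [
      ⟨6, ⟨0, 1⟩, ⟨24, 19⟩, [(67, 0), (47, 1), (45, 2), (48, 3), (40, 2), (66, 0), (42, 1)]⟩]⟩],
  [⟨⟨0, 1⟩, ⟨24, 18⟩, 6, [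
      ⟨6, ⟨0, 2⟩, ⟨24, 20⟩, [(32, 0), (78, 0), (38, 0), (53, 0), (35, 0), (49, 1), (37, 0)]⟩]⟩],
  [⟨⟨0, 1⟩, ⟨24, 18⟩, 12, [
      ⟨12, ⟨0, 3⟩, ⟨24, 27⟩, [(52, 1), (16, 1), (41, 1), (80, 0)]⟩,
      ⟨12, ⟨0, 9⟩, ⟨24, 21⟩, [(44, 1), (79, 0), (21, 1)]⟩]⟩],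
  [⟨⟨0, 1⟩, ⟨24, 18⟩, 6, [
      ⟨6, ⟨0, 4⟩, ⟨24, 22⟩, [(19, 1), (59, 2), (17, 2), (73, 2), (20, 2), (22, 1), (62, 1)]⟩]⟩],
  [⟨⟨0, 1⟩, ⟨24, 18⟩, 6, [
      ⟨6, ⟨0, 5⟩, ⟨24, 23⟩, [(36, 0), (71, 1), (34, 0), (70, 2), (39, 0), (68, 2), (33, 0)]⟩]⟩],
  [⟨⟨0, 1⟩, ⟨24, 18⟩, 12, [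
      ⟨12, ⟨0, 6⟩, ⟨24, 18⟩, [(47, 2), (67, 1), (42, 2)]⟩,
      ⟨12, ⟨0, 12⟩, ⟨24, 24⟩, [(43, 2), (76, 1), (46, 2)]⟩]⟩],
  [⟨⟨0, 1⟩, ⟨24, 18⟩, 6, [
      ⟨6, ⟨0, 1⟩, ⟨24, 19⟩, [(65, 0), (7, 1), (5, 2), (57, 1), (0, 2), (66, 1), (2, 1)]⟩]⟩],
  [⟨⟨0, 1⟩, ⟨24, 18⟩, 6, [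
      ⟨6, ⟨0, 2⟩, ⟨24, 20⟩, [(40, 0), (48, 4), (46, 0), (75, 0), (43, 0), (50, 1), (45, 0)]⟩]⟩],
  [⟨⟨0, 1⟩, ⟨24, 18⟩, 12, [
      ⟨12, ⟨0, 3⟩, ⟨24, 27⟩, [(61, 2), (24, 1), (1, 1), (63, 2)]⟩,
      ⟨12, ⟨0, 9⟩, ⟨24, 21⟩, [(4, 1), (58, 2), (29, 1)]⟩]⟩],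
  [⟨⟨0, 1⟩, ⟨24, 18⟩, 6, [
      ⟨6, ⟨0, 4⟩, ⟨24, 22⟩, [(27, 1), (69, 2), (25, 2), (56, 2), (28, 2), (30, 1), (76, 2)]⟩]⟩],
  [⟨⟨0, 1⟩, ⟨24, 18⟩, 6, [
      ⟨6, ⟨0, 5⟩, ⟨24, 23⟩, [(44, 0), (70, 1), (42, 0), (67, 2), (47, 0), (59, 1), (41, 0)]⟩]⟩],
  [⟨⟨0, 1⟩, ⟨24, 18⟩, 12, [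
      ⟨12, ⟨0, 6⟩, ⟨24, 18⟩, [(7, 2), (55, 1), (2, 2)]⟩,
      ⟨12, ⟨0, 12⟩, ⟨24, 24⟩, [(3, 2), (78, 1), (6, 2)]⟩]⟩],
  [⟨⟨0, 1⟩, ⟨24, 18⟩, 6, [
      ⟨6, ⟨0, 1⟩, ⟨24, 19⟩, [(65, 1), (15, 1), (13, 2), (53, 1), (8, 2), (64, 0), (10, 1)]⟩]⟩],
  [⟨⟨0, 1⟩, ⟨24, 18⟩, 6, [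
      ⟨6, ⟨0, 2⟩, ⟨24, 20⟩, [(0, 0), (72, 2), (6, 0), (57, 2), (3, 0), (49, 2), (5, 0)]⟩]⟩],
  [⟨⟨0, 1⟩, ⟨24, 18⟩, 12, [
      ⟨12, ⟨0, 3⟩, ⟨24, 27⟩, [(48, 1), (32, 1), (9, 1), (77, 1)]⟩,
      ⟨12, ⟨0, 9⟩, ⟨24, 21⟩, [(12, 1), (55, 2), (37, 1)]⟩]⟩],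
  [⟨⟨0, 1⟩, ⟨24, 18⟩, 6, [
      ⟨6, ⟨0, 4⟩, ⟨24, 22⟩, [(35, 1), (78, 2), (33, 2), (66, 2), (36, 2), (38, 1), (73, 1)]⟩]⟩],
  [⟨⟨0, 1⟩, ⟨24, 18⟩, 6, [
      ⟨6, ⟨0, 5⟩, ⟨24, 23⟩, [(4, 0), (75, 2), (2, 0), (58, 1), (7, 0), (69, 1), (1, 0)]⟩]⟩],
  [⟨⟨0, 1⟩, ⟨24, 18⟩, 12, [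
      ⟨12, ⟨0, 6⟩, ⟨24, 18⟩, [(15, 2), (64, 1), (10, 2)]⟩,
      ⟨12, ⟨0, 12⟩, ⟨24, 24⟩, [(11, 2), (80, 1), (14, 2)]⟩]⟩],
  [⟨⟨0, 1⟩, ⟨24, 18⟩, 6, [
      ⟨6, ⟨0, 1⟩, ⟨24, 19⟩, [(51, 2), (23, 1), (21, 2), (48, 5), (16, 2), (60, 2), (18, 1)]⟩]⟩],
  [⟨⟨0, 1⟩, ⟨24, 18⟩, 6, [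
      ⟨6, ⟨0, 2⟩, ⟨24, 20⟩, [(8, 0), (74, 1), (14, 0), (52, 2), (11, 0), (50, 2), (13, 0)]⟩]⟩],
  [⟨⟨0, 1⟩, ⟨24, 18⟩, 12, [
      ⟨12, ⟨0, 3⟩, ⟨24, 27⟩, [(53, 2), (40, 1), (17, 1), (79, 1)]⟩,
      ⟨12, ⟨0, 9⟩, ⟨24, 21⟩, [(20, 1), (80, 2), (45, 1)]⟩]⟩],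
  [⟨⟨0, 1⟩, ⟨24, 18⟩, 6, [
      ⟨6, ⟨0, 4⟩, ⟨24, 22⟩, [(43, 1), (63, 1), (41, 2), (56, 1), (44, 2), (46, 1), (65, 2)]⟩]⟩],
  [⟨⟨0, 1⟩, ⟨24, 18⟩, 6, [
      ⟨6, ⟨0, 5⟩, ⟨24, 23⟩, [(12, 0), (75, 1), (10, 0), (72, 1), (15, 0), (64, 2), (9, 0)]⟩]⟩]]
  vorts := [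
  ⟨49, ⟨54, 42⟩, ⟨0, 4⟩, ⟨0, -9⟩⟩,
  ⟨50, ⟨54, 42⟩, ⟨0, 4⟩, ⟨0, -9⟩⟩,
  ⟨48, ⟨36, 24⟩, ⟨0, -2⟩, ⟨0, 3⟩⟩]

theorem fam_w8o_ok : fam_w8o.OK := by decide +kernel

def path_w8o : Path 9 where
  verts := ![Sum.inr 0, Sum.inr 1, Sum.inr 2, Sum.inl ⟨0, 0⟩, Sum.inl ⟨6, 4⟩, Sum.inl ⟨18, 13⟩, Sum.inl ⟨6, 1⟩, Sum.inl ⟨12, 6⟩, Sum.inl ⟨18, 7⟩]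
  tris := [(3, 4, 2, 48, 0, ⟨0, 0⟩),
    (4, 3, 0, 49, 2, ⟨0, 0⟩),
    (5, 6, 3, 54, 1, ⟨0, 0⟩),
    (6, 5, 4, 77, 2, ⟨0, 0⟩),
    (7, 8, 5, 31, 1, ⟨1, -1⟩),
    (8, 7, 6, 54, 2, ⟨0, 0⟩)]
  flips := [(3, 4, 2, 0), (5, 6, 3, 4), (7, 8, 5, 6)]

theorem fam_w8o_block {u : ℤ} (hu : 2 ≤ u) {N : ℕ} (hN : (N : ℤ) = 24 * u + 18) :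
    WBlock (N + 2) :=
  wblock_of_path (n := 6) fam_w8o_ok rfl (by decide +kernel) (by decide +kernel) path_w8o (by decide +kernel)
    ⟨rfl, rfl, rfl⟩ 7 8 (by decide +kernel) hu hN

end Pd97
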