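import Mathlib
import Pool.Agent.Lib.Pd97.TabBlocks

/-!
# MP_d97cc3_co : table of the family z0e
-/

namespace Pd97

open Pool.Agent.Lib.CurP.Table

def fam_z0e : Data where
  k := 6
  nf := ⟨24, 0⟩
  u₀ := 2
  J := 0
  M0 := 6
  cells := [
  ⟨⟨1, 0⟩, 0, [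
    ⟨3, -6, ⟨18, -1⟩, -6, ⟨24, -2⟩, [⟨⟨0, 0⟩, ⟨0, 1⟩, 51, 1, 0, ⟨0, 0⟩, 1, 1⟩, ⟨⟨0, 1⟩, ⟨1, -1⟩, 6, 2, 1, ⟨0, 0⟩, 1, 0⟩]⟩,
    ⟨2, -6, ⟨18, -2⟩, 6, ⟨12, -3⟩, [⟨⟨0, 0⟩, ⟨1, -1⟩, 2, 0, 1, ⟨0, 0⟩, 1, 0⟩, ⟨⟨1, -1⟩, ⟨0, 1⟩, 62, 0, 0, ⟨0, 0⟩, 1, 0⟩]⟩,
    ⟨0, 12, ⟨12, 3⟩, -6, ⟨18, -2⟩, [⟨⟨0, 0⟩, ⟨1, 0⟩, 1, 2, 1, ⟨0, 0⟩, 1, 0⟩]⟩]⟩,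
  ⟨⟨1, 0⟩, 0, [
    ⟨0, 6, ⟨18, 2⟩, -6, ⟨18, -1⟩, [⟨⟨0, 0⟩, ⟨0, 1⟩, 50, 2, 0, ⟨0, 0⟩, 1, 0⟩, ⟨⟨0, 1⟩, ⟨1, -1⟩, 7, 2, 1, ⟨0, 0⟩, 1, 0⟩]⟩,
    ⟨2, 6, ⟨18, 1⟩, 6, ⟨0, 1⟩, [⟨⟨0, 0⟩, ⟨1, -1⟩, 3, 0, 1, ⟨0, 0⟩, 1, 0⟩, ⟨⟨1, -1⟩, ⟨0, 1⟩, 65, 1, 0, ⟨0, 0⟩, 1, 0⟩]⟩,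
    ⟨3, -12, ⟨12, -3⟩, -6, ⟨24, -3⟩, [⟨⟨0, 0⟩, ⟨1, 0⟩, 0, 2, 1, ⟨0, 0⟩, 1, 0⟩]⟩]⟩,
  ⟨⟨1, -1⟩, 0, [
    ⟨0, 6, ⟨6, 2⟩, -6, ⟨18, -3⟩, [⟨⟨0, 0⟩, ⟨1, -1⟩, 0, 1, 1, ⟨0, 0⟩, 1, 0⟩]⟩,
    ⟨2, -12, ⟨12, -6⟩, 6, ⟨12, -2⟩, [⟨⟨0, 0⟩, ⟨1, -1⟩, 3, 1, 1, ⟨0, 0⟩, 1, 0⟩]⟩,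
    ⟨2, 6, ⟨6, 4⟩, 6, ⟨0, 3⟩, [⟨⟨0, 0⟩, ⟨1, -1⟩, 4, 0, 1, ⟨0, 0⟩, 1, 0⟩]⟩]⟩,
  ⟨⟨1, -1⟩, 0, [
    ⟨3, -6, ⟨6, -1⟩, -6, ⟨24, -4⟩, [⟨⟨0, 0⟩, ⟨1, -1⟩, 1, 1, 1, ⟨0, 0⟩, 1, 0⟩]⟩,
    ⟨2, 12, ⟨12, 6⟩, 6, ⟨0, 2⟩, [⟨⟨0, 0⟩, ⟨1, -1⟩, 2, 1, 1, ⟨0, 0⟩, 1, 0⟩]⟩,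
    ⟨2, -6, ⟨6, -5⟩, 6, ⟨12, -1⟩, [⟨⟨0, 0⟩, ⟨1, -1⟩, 5, 0, 1, ⟨0, 0⟩, 1, 0⟩]⟩]⟩,
  ⟨⟨1, -1⟩, 0, [
    ⟨0, -6, ⟨18, -4⟩, -6, ⟨18, -4⟩, [⟨⟨0, 0⟩, ⟨1, -1⟩, 2, 2, 1, ⟨0, 0⟩, 1, 0⟩]⟩,
    ⟨2, -6, ⟨18, -5⟩, 6, ⟨0, 4⟩, [⟨⟨0, 0⟩, ⟨1, -1⟩, 6, 0, 1, ⟨0, 0⟩, 1, 0⟩]⟩,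
    ⟨3, 12, ⟨12, 9⟩, -6, ⟨24, -6⟩, [⟨⟨0, 0⟩, ⟨1, -1⟩, 5, 2, 1, ⟨0, 0⟩, 1, 0⟩]⟩]⟩,
  ⟨⟨1, -1⟩, 0, [
    ⟨3, 6, ⟨18, 5⟩, -6, ⟨24, -5⟩, [⟨⟨0, 0⟩, ⟨1, -1⟩, 3, 2, 1, ⟨0, 0⟩, 1, 0⟩]⟩,
    ⟨2, 6, ⟨18, 4⟩, 6, ⟨12, 0⟩, [⟨⟨0, 0⟩, ⟨1, -1⟩, 7, 0, 1, ⟨0, 0⟩, 1, 0⟩]⟩,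
    ⟨0, -12, ⟨12, -9⟩, -6, ⟨18, -5⟩, [⟨⟨0, 0⟩, ⟨1, -1⟩, 4, 2, 1, ⟨0, 0⟩, 1, 0⟩]⟩]⟩,
  ⟨⟨1, -1⟩, 0, [
    ⟨3, 6, ⟨6, 5⟩, -6, ⟨24, -7⟩, [⟨⟨0, 0⟩, ⟨1, -1⟩, 4, 1, 1, ⟨0, 0⟩, 1, 0⟩]⟩,
    ⟨2, -12, ⟨12, -12⟩, 6, ⟨0, 5⟩, [⟨⟨0, 0⟩, ⟨1, -1⟩, 7, 1, 1, ⟨0, 0⟩, 1, 0⟩]⟩,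
    ⟨2, 6, ⟨6, 7⟩, 6, ⟨12, 2⟩, [⟨⟨0, 0⟩, ⟨1, -1⟩, 0, 0, 1, ⟨0, 1⟩, 1, 0⟩]⟩]⟩,
  ⟨⟨1, -1⟩, 0, [
    ⟨0, -6, ⟨6, -4⟩, -6, ⟨18, -6⟩, [⟨⟨0, 0⟩, ⟨1, -1⟩, 5, 1, 1, ⟨0, 0⟩, 1, 0⟩]⟩,
    ⟨2, 12, ⟨12, 12⟩, 6, ⟨12, 1⟩, [⟨⟨0, 0⟩, ⟨1, -1⟩, 6, 1, 1, ⟨0, 0⟩, 1, 0⟩]⟩,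
    ⟨2, -6, ⟨6, -8⟩, 6, ⟨0, 6⟩, [⟨⟨0, 0⟩, ⟨1, -1⟩, 1, 0, 1, ⟨0, 1⟩, 1, 0⟩]⟩]⟩,
  ⟨⟨1, 0⟩, 0, [
    ⟨4, -6, ⟨18, -1⟩, -6, ⟨12, 3⟩, [⟨⟨0, 0⟩, ⟨0, 1⟩, 52, 1, 0, ⟨0, 0⟩, 1, 0⟩, ⟨⟨0, 1⟩, ⟨1, -1⟩, 14, 2, 1, ⟨0, 0⟩, 1, 0⟩]⟩,
    ⟨3, -6, ⟨18, -2⟩, 6, ⟨6, -1⟩, [⟨⟨0, 0⟩, ⟨1, -1⟩, 10, 0, 1, ⟨0, 0⟩, 1, 0⟩, ⟨⟨1, -1⟩, ⟨0, 1⟩, 69, 1, 0, ⟨0, 0⟩, 1, 0⟩]⟩,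
    ⟨1, 12, ⟨12, 3⟩, -6, ⟨12, -8⟩, [⟨⟨0, 0⟩, ⟨1, 0⟩, 9, 2, 1, ⟨0, 0⟩, 1, 0⟩]⟩]⟩,
  ⟨⟨1, 0⟩, 0, [
    ⟨1, 6, ⟨18, 2⟩, -6, ⟨12, -7⟩, [⟨⟨0, 0⟩, ⟨0, 1⟩, 51, 2, 0, ⟨0, 0⟩, 1, 0⟩, ⟨⟨0, 1⟩, ⟨1, -1⟩, 15, 2, 1, ⟨0, 0⟩, 1, 0⟩]⟩,
    ⟨3, 6, ⟨18, 1⟩, 6, ⟨0, 1⟩, [⟨⟨0, 0⟩, ⟨1, -1⟩, 11, 0, 1, ⟨0, 0⟩, 1, 0⟩, ⟨⟨1, -1⟩, ⟨0, 1⟩, 73, 1, 0, ⟨0, 0⟩, 1, 0⟩]⟩,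
    ⟨4, -12, ⟨12, -3⟩, -6, ⟨12, 2⟩, [⟨⟨0, 0⟩, ⟨1, 0⟩, 8, 2, 1, ⟨0, 0⟩, 1, 0⟩]⟩]⟩,
  ⟨⟨1, -1⟩, 0, [
    ⟨1, 6, ⟨6, 2⟩, -6, ⟨12, -9⟩, [⟨⟨0, 0⟩, ⟨1, -1⟩, 8, 1, 1, ⟨0, 0⟩, 1, 0⟩]⟩,
    ⟨3, -12, ⟨12, -6⟩, 6, ⟨6, 0⟩, [⟨⟨0, 0⟩, ⟨1, -1⟩, 11, 1, 1, ⟨0, 0⟩, 1, 0⟩]⟩,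
    ⟨3, 6, ⟨6, 4⟩, 6, ⟨0, 3⟩, [⟨⟨0, 0⟩, ⟨1, -1⟩, 12, 0, 1, ⟨0, 0⟩, 1, 0⟩]⟩]⟩,
  ⟨⟨1, -1⟩, 0, [
    ⟨4, -6, ⟨6, -1⟩, -6, ⟨12, 1⟩, [⟨⟨0, 0⟩, ⟨1, -1⟩, 9, 1, 1, ⟨0, 0⟩, 1, 0⟩]⟩,
    ⟨3, 12, ⟨12, 6⟩, 6, ⟨0, 2⟩, [⟨⟨0, 0⟩, ⟨1, -1⟩, 10, 1, 1, ⟨0, 0⟩, 1, 0⟩]⟩,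
    ⟨3, -6, ⟨6, -5⟩, 6, ⟨6, 1⟩, [⟨⟨0, 0⟩, ⟨1, -1⟩, 13, 0, 1, ⟨0, 0⟩, 1, 0⟩]⟩]⟩,
  ⟨⟨1, -1⟩, 0, [
    ⟨1, -6, ⟨18, -4⟩, -6, ⟨12, -10⟩, [⟨⟨0, 0⟩, ⟨1, -1⟩, 10, 2, 1, ⟨0, 0⟩, 1, 0⟩]⟩,
    ⟨3, -6, ⟨18, -5⟩, 6, ⟨0, 4⟩, [⟨⟨0, 0⟩, ⟨1, -1⟩, 14, 0, 1, ⟨0, 0⟩, 1, 0⟩]⟩,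
    ⟨4, 12, ⟨12, 9⟩, -6, ⟨12, -1⟩, [⟨⟨0, 0⟩, ⟨1, -1⟩, 13, 2, 1, ⟨0, 0⟩, 1, 0⟩]⟩]⟩,
  ⟨⟨1, -1⟩, 0, [
    ⟨4, 6, ⟨18, 5⟩, -6, ⟨12, 0⟩, [⟨⟨0, 0⟩, ⟨1, -1⟩, 11, 2, 1, ⟨0, 0⟩, 1, 0⟩]⟩,
    ⟨3, 6, ⟨18, 4⟩, 6, ⟨6, 2⟩, [⟨⟨0, 0⟩, ⟨1, -1⟩, 15, 0, 1, ⟨0, 0⟩, 1, 0⟩]⟩,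
    ⟨1, -12, ⟨12, -9⟩, -6, ⟨12, -11⟩, [⟨⟨0, 0⟩, ⟨1, -1⟩, 12, 2, 1, ⟨0, 0⟩, 1, 0⟩]⟩]⟩,
  ⟨⟨1, -1⟩, 0, [
    ⟨4, 6, ⟨6, 5⟩, -6, ⟨12, -2⟩, [⟨⟨0, 0⟩, ⟨1, -1⟩, 12, 1, 1, ⟨0, 0⟩, 1, 0⟩]⟩,
    ⟨3, -12, ⟨12, -12⟩, 6, ⟨0, 5⟩, [⟨⟨0, 0⟩, ⟨1, -1⟩, 15, 1, 1, ⟨0, 0⟩, 1, 0⟩]⟩,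
    ⟨3, 6, ⟨6, 7⟩, 6, ⟨6, 4⟩, [⟨⟨0, 0⟩, ⟨1, -1⟩, 8, 0, 1, ⟨0, 1⟩, 1, 0⟩]⟩]⟩,
  ⟨⟨1, -1⟩, 0, [
    ⟨1, -6, ⟨6, -4⟩, -6, ⟨12, -12⟩, [⟨⟨0, 0⟩, ⟨1, -1⟩, 13, 1, 1, ⟨0, 0⟩, 1, 0⟩]⟩,
    ⟨3, 12, ⟨12, 12⟩, 6, ⟨6, 3⟩, [⟨⟨0, 0⟩, ⟨1, -1⟩, 14, 1, 1, ⟨0, 0⟩, 1, 0⟩]⟩,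
    ⟨3, -6, ⟨6, -8⟩, 6, ⟨0, 6⟩, [⟨⟨0, 0⟩, ⟨1, -1⟩, 9, 0, 1, ⟨0, 1⟩, 1, 0⟩]⟩]⟩,
  ⟨⟨1, 0⟩, 0, [
    ⟨5, -6, ⟨18, -1⟩, -6, ⟨18, -3⟩, [⟨⟨0, 0⟩, ⟨0, 1⟩, 53, 1, 0, ⟨0, 0⟩, 1, 0⟩, ⟨⟨0, 1⟩, ⟨1, -1⟩, 22, 2, 1, ⟨0, 0⟩, 1, 0⟩]⟩,
    ⟨4, -6, ⟨18, -2⟩, 6, ⟨0, 7⟩, [⟨⟨0, 0⟩, ⟨1, -1⟩, 18, 0, 1, ⟨0, 0⟩, 1, 0⟩, ⟨⟨1, -1⟩, ⟨0, 1⟩, 57, 1, 0, ⟨0, 0⟩, 1, 0⟩]⟩,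
    ⟨2, 12, ⟨12, 3⟩, -6, ⟨12, -8⟩, [⟨⟨0, 0⟩, ⟨1, 0⟩, 17, 2, 1, ⟨0, 0⟩, 1, 0⟩]⟩]⟩,
  ⟨⟨1, 0⟩, 0, [
    ⟨2, 6, ⟨18, 2⟩, -6, ⟨12, -7⟩, [⟨⟨0, 0⟩, ⟨0, 1⟩, 52, 2, 0, ⟨0, 0⟩, 1, 0⟩, ⟨⟨0, 1⟩, ⟨1, -1⟩, 23, 2, 1, ⟨0, 0⟩, 1, 0⟩]⟩,
    ⟨4, 6, ⟨18, 1⟩, 6, ⟨12, 5⟩, [⟨⟨0, 0⟩, ⟨1, -1⟩, 19, 0, 1, ⟨0, 0⟩, 1, 0⟩, ⟨⟨1, -1⟩, ⟨0, 1⟩, 67, 1, 0, ⟨0, 0⟩, 1, 0⟩]⟩,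
    ⟨5, -12, ⟨12, -3⟩, -6, ⟨18, -4⟩, [⟨⟨0, 0⟩, ⟨1, 0⟩, 16, 2, 1, ⟨0, 0⟩, 1, 0⟩]⟩]⟩,
  ⟨⟨1, -1⟩, 0, [
    ⟨2, 6, ⟨6, 2⟩, -6, ⟨12, -9⟩, [⟨⟨0, 0⟩, ⟨1, -1⟩, 16, 1, 1, ⟨0, 0⟩, 1, 0⟩]⟩,
    ⟨4, -12, ⟨12, -6⟩, 6, ⟨0, 8⟩, [⟨⟨0, 0⟩, ⟨1, -1⟩, 19, 1, 1, ⟨0, 0⟩, 1, 0⟩]⟩,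
    ⟨4, 6, ⟨6, 4⟩, 6, ⟨12, 7⟩, [⟨⟨0, 0⟩, ⟨1, -1⟩, 20, 0, 1, ⟨0, 0⟩, 1, 0⟩]⟩]⟩,
  ⟨⟨1, -1⟩, 0, [
    ⟨5, -6, ⟨6, -1⟩, -6, ⟨18, -5⟩, [⟨⟨0, 0⟩, ⟨1, -1⟩, 17, 1, 1, ⟨0, 0⟩, 1, 0⟩]⟩,
    ⟨4, 12, ⟨12, 6⟩, 6, ⟨12, 6⟩, [⟨⟨0, 0⟩, ⟨1, -1⟩, 18, 1, 1, ⟨0, 0⟩, 1, 0⟩]⟩,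
    ⟨4, -6, ⟨6, -5⟩, 6, ⟨0, 9⟩, [⟨⟨0, 0⟩, ⟨1, -1⟩, 21, 0, 1, ⟨0, 0⟩, 1, 0⟩]⟩]⟩,
  ⟨⟨1, -1⟩, 0, [
    ⟨2, -6, ⟨18, -4⟩, -6, ⟨12, -10⟩, [⟨⟨0, 0⟩, ⟨1, -1⟩, 18, 2, 1, ⟨0, 0⟩, 1, 0⟩]⟩,
    ⟨4, -6, ⟨18, -5⟩, 6, ⟨12, 8⟩, [⟨⟨0, 0⟩, ⟨1, -1⟩, 22, 0, 1, ⟨0, 0⟩, 1, 0⟩]⟩,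
    ⟨5, 12, ⟨12, 9⟩, -6, ⟨18, -7⟩, [⟨⟨0, 0⟩, ⟨1, -1⟩, 21, 2, 1, ⟨0, 0⟩, 1, 0⟩]⟩]⟩,
  ⟨⟨1, -1⟩, 0, [
    ⟨5, 6, ⟨18, 5⟩, -6, ⟨18, -6⟩, [⟨⟨0, 0⟩, ⟨1, -1⟩, 19, 2, 1, ⟨0, 0⟩, 1, 0⟩]⟩,
    ⟨4, 6, ⟨18, 4⟩, 6, ⟨0, 10⟩, [⟨⟨0, 0⟩, ⟨1, -1⟩, 23, 0, 1, ⟨0, 0⟩, 1, 0⟩]⟩,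
    ⟨2, -12, ⟨12, -9⟩, -6, ⟨12, -11⟩, [⟨⟨0, 0⟩, ⟨1, -1⟩, 20, 2, 1, ⟨0, 0⟩, 1, 0⟩]⟩]⟩,
  ⟨⟨1, -1⟩, 0, [
    ⟨5, 6, ⟨6, 5⟩, -6, ⟨18, -8⟩, [⟨⟨0, 0⟩, ⟨1, -1⟩, 20, 1, 1, ⟨0, 0⟩, 1, 0⟩]⟩,
    ⟨4, -12, ⟨12, -12⟩, 6, ⟨12, 9⟩, [⟨⟨0, 0⟩, ⟨1, -1⟩, 23, 1, 1, ⟨0, 0⟩, 1, 0⟩]⟩,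
    ⟨4, 6, ⟨6, 7⟩, 6, ⟨0, 12⟩, [⟨⟨0, 0⟩, ⟨1, -1⟩, 16, 0, 1, ⟨0, 1⟩, 1, 0⟩]⟩]⟩,
  ⟨⟨1, -1⟩, 0, [
    ⟨2, -6, ⟨6, -4⟩, -6, ⟨12, -12⟩, [⟨⟨0, 0⟩, ⟨1, -1⟩, 21, 1, 1, ⟨0, 0⟩, 1, 0⟩]⟩,
    ⟨4, 12, ⟨12, 12⟩, 6, ⟨0, 11⟩, [⟨⟨0, 0⟩, ⟨1, -1⟩, 22, 1, 1, ⟨0, 0⟩, 1, 0⟩]⟩,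
    ⟨4, -6, ⟨6, -8⟩, 6, ⟨12, 10⟩, [⟨⟨0, 0⟩, ⟨1, -1⟩, 17, 0, 1, ⟨0, 1⟩, 1, 0⟩]⟩]⟩,
  ⟨⟨1, 0⟩, 0, [
    ⟨0, -6, ⟨18, -1⟩, -6, ⟨24, -2⟩, [⟨⟨0, 0⟩, ⟨0, 1⟩, 48, 2, 0, ⟨0, 0⟩, 1, 1⟩, ⟨⟨0, 1⟩, ⟨1, -1⟩, 30, 2, 1, ⟨0, 0⟩, 1, 0⟩]⟩,
    ⟨5, -6, ⟨18, -2⟩, 6, ⟨0, 1⟩, [⟨⟨0, 0⟩, ⟨1, -1⟩, 26, 0, 1, ⟨0, 0⟩, 1, 0⟩, ⟨⟨1, -1⟩, ⟨0, 1⟩, 55, 1, 0, ⟨0, 0⟩, 1, 0⟩]⟩,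
    ⟨3, 12, ⟨12, 3⟩, -6, ⟨18, -3⟩, [⟨⟨0, 0⟩, ⟨1, 0⟩, 25, 2, 1, ⟨0, 0⟩, 1, 0⟩]⟩]⟩,
  ⟨⟨1, 0⟩, 0, [
    ⟨3, 6, ⟨18, 2⟩, -6, ⟨18, -2⟩, [⟨⟨0, 0⟩, ⟨0, 1⟩, 53, 2, 0, ⟨0, 0⟩, 1, 0⟩, ⟨⟨0, 1⟩, ⟨1, -1⟩, 31, 2, 1, ⟨0, 0⟩, 1, 0⟩]⟩,
    ⟨5, 6, ⟨18, 1⟩, 6, ⟨18, -1⟩, [⟨⟨0, 0⟩, ⟨1, -1⟩, 27, 0, 1, ⟨0, 0⟩, 1, 0⟩, ⟨⟨1, -1⟩, ⟨0, 1⟩, 59, 0, 0, ⟨0, 0⟩, 1, 0⟩]⟩,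
    ⟨0, -12, ⟨12, -3⟩, -6, ⟨24, -3⟩, [⟨⟨0, 0⟩, ⟨1, 0⟩, 24, 2, 1, ⟨0, 0⟩, 1, 0⟩]⟩]⟩,
  ⟨⟨1, -1⟩, 0, [
    ⟨3, 6, ⟨6, 2⟩, -6, ⟨18, -4⟩, [⟨⟨0, 0⟩, ⟨1, -1⟩, 24, 1, 1, ⟨0, 0⟩, 1, 0⟩]⟩,
    ⟨5, -12, ⟨12, -6⟩, 6, ⟨0, 2⟩, [⟨⟨0, 0⟩, ⟨1, -1⟩, 27, 1, 1, ⟨0, 0⟩, 1, 0⟩]⟩,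
    ⟨5, 6, ⟨6, 4⟩, 6, ⟨18, 1⟩, [⟨⟨0, 0⟩, ⟨1, -1⟩, 28, 0, 1, ⟨0, 0⟩, 1, 0⟩]⟩]⟩,
  ⟨⟨1, -1⟩, 0, [
    ⟨0, -6, ⟨6, -1⟩, -6, ⟨24, -4⟩, [⟨⟨0, 0⟩, ⟨1, -1⟩, 25, 1, 1, ⟨0, 0⟩, 1, 0⟩]⟩,
    ⟨5, 12, ⟨12, 6⟩, 6, ⟨18, 0⟩, [⟨⟨0, 0⟩, ⟨1, -1⟩, 26, 1, 1, ⟨0, 0⟩, 1, 0⟩]⟩,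
    ⟨5, -6, ⟨6, -5⟩, 6, ⟨0, 3⟩, [⟨⟨0, 0⟩, ⟨1, -1⟩, 29, 0, 1, ⟨0, 0⟩, 1, 0⟩]⟩]⟩,
  ⟨⟨1, -1⟩, 0, [
    ⟨3, -6, ⟨18, -4⟩, -6, ⟨18, -5⟩, [⟨⟨0, 0⟩, ⟨1, -1⟩, 26, 2, 1, ⟨0, 0⟩, 1, 0⟩]⟩,
    ⟨5, -6, ⟨18, -5⟩, 6, ⟨18, 2⟩, [⟨⟨0, 0⟩, ⟨1, -1⟩, 30, 0, 1, ⟨0, 0⟩, 1, 0⟩]⟩,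
    ⟨0, 12, ⟨12, 9⟩, -6, ⟨24, -6⟩, [⟨⟨0, 0⟩, ⟨1, -1⟩, 29, 2, 1, ⟨0, 0⟩, 1, 0⟩]⟩]⟩,
  ⟨⟨1, -1⟩, 0, [
    ⟨0, 6, ⟨18, 5⟩, -6, ⟨24, -5⟩, [⟨⟨0, 0⟩, ⟨1, -1⟩, 27, 2, 1, ⟨0, 0⟩, 1, 0⟩]⟩,
    ⟨5, 6, ⟨18, 4⟩, 6, ⟨0, 4⟩, [⟨⟨0, 0⟩, ⟨1, -1⟩, 31, 0, 1, ⟨0, 0⟩, 1, 0⟩]⟩,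
    ⟨3, -12, ⟨12, -9⟩, -6, ⟨18, -6⟩, [⟨⟨0, 0⟩, ⟨1, -1⟩, 28, 2, 1, ⟨0, 0⟩, 1, 0⟩]⟩]⟩,
  ⟨⟨1, -1⟩, 0, [
    ⟨0, 6, ⟨6, 5⟩, -6, ⟨24, -7⟩, [⟨⟨0, 0⟩, ⟨1, -1⟩, 28, 1, 1, ⟨0, 0⟩, 1, 0⟩]⟩,
    ⟨5, -12, ⟨12, -12⟩, 6, ⟨18, 3⟩, [⟨⟨0, 0⟩, ⟨1, -1⟩, 31, 1, 1, ⟨0, 0⟩, 1, 0⟩]⟩,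
    ⟨5, 6, ⟨6, 7⟩, 6, ⟨0, 6⟩, [⟨⟨0, 0⟩, ⟨1, -1⟩, 24, 0, 1, ⟨0, 1⟩, 1, 0⟩]⟩]⟩,
  ⟨⟨1, -1⟩, 0, [
    ⟨3, -6, ⟨6, -4⟩, -6, ⟨18, -7⟩, [⟨⟨0, 0⟩, ⟨1, -1⟩, 29, 1, 1, ⟨0, 0⟩, 1, 0⟩]⟩,
    ⟨5, 12, ⟨12, 12⟩, 6, ⟨0, 5⟩, [⟨⟨0, 0⟩, ⟨1, -1⟩, 30, 1, 1, ⟨0, 0⟩, 1, 0⟩]⟩,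
    ⟨5, -6, ⟨6, -8⟩, 6, ⟨18, 4⟩, [⟨⟨0, 0⟩, ⟨1, -1⟩, 25, 0, 1, ⟨0, 1⟩, 1, 0⟩]⟩]⟩,
  ⟨⟨1, 0⟩, 0, [
    ⟨1, -6, ⟨18, -1⟩, -6, ⟨24, -2⟩, [⟨⟨0, 0⟩, ⟨0, 1⟩, 49, 0, 0, ⟨0, 0⟩, 1, 1⟩, ⟨⟨0, 1⟩, ⟨1, -1⟩, 38, 2, 1, ⟨0, 0⟩, 1, 0⟩]⟩,
    ⟨0, -6, ⟨18, -2⟩, 6, ⟨6, 5⟩, [⟨⟨0, 0⟩, ⟨1, -1⟩, 34, 0, 1, ⟨0, 0⟩, 1, 0⟩, ⟨⟨1, -1⟩, ⟨0, 1⟩, 58, 2, 0, ⟨0, 0⟩, 1, 0⟩]⟩,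
    ⟨4, 12, ⟨12, 3⟩, -6, ⟨24, -3⟩, [⟨⟨0, 0⟩, ⟨1, 0⟩, 33, 2, 1, ⟨0, 0⟩, 1, 0⟩]⟩]⟩,
  ⟨⟨1, 0⟩, 0, [
    ⟨4, 6, ⟨18, 2⟩, -6, ⟨24, -2⟩, [⟨⟨0, 0⟩, ⟨0, 1⟩, 48, 0, 0, ⟨0, 0⟩, 1, 1⟩, ⟨⟨0, 1⟩, ⟨1, -1⟩, 39, 2, 1, ⟨0, 0⟩, 1, 0⟩]⟩,
    ⟨0, 6, ⟨18, 1⟩, 6, ⟨0, 1⟩, [⟨⟨0, 0⟩, ⟨1, -1⟩, 35, 0, 1, ⟨0, 0⟩, 1, 0⟩, ⟨⟨1, -1⟩, ⟨0, 1⟩, 60, 1, 0, ⟨0, 0⟩, 1, 0⟩]⟩,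
    ⟨1, -12, ⟨12, -3⟩, -6, ⟨24, -3⟩, [⟨⟨0, 0⟩, ⟨1, 0⟩, 32, 2, 1, ⟨0, 0⟩, 1, 0⟩]⟩]⟩,
  ⟨⟨1, -1⟩, 0, [
    ⟨4, 6, ⟨6, 2⟩, -6, ⟨24, -4⟩, [⟨⟨0, 0⟩, ⟨1, -1⟩, 32, 1, 1, ⟨0, 0⟩, 1, 0⟩]⟩,
    ⟨0, -12, ⟨12, -6⟩, 6, ⟨6, 6⟩, [⟨⟨0, 0⟩, ⟨1, -1⟩, 35, 1, 1, ⟨0, 0⟩, 1, 0⟩]⟩,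
    ⟨0, 6, ⟨6, 4⟩, 6, ⟨0, 3⟩, [⟨⟨0, 0⟩, ⟨1, -1⟩, 36, 0, 1, ⟨0, 0⟩, 1, 0⟩]⟩]⟩,
  ⟨⟨1, -1⟩, 0, [
    ⟨1, -6, ⟨6, -1⟩, -6, ⟨24, -4⟩, [⟨⟨0, 0⟩, ⟨1, -1⟩, 33, 1, 1, ⟨0, 0⟩, 1, 0⟩]⟩,
    ⟨0, 12, ⟨12, 6⟩, 6, ⟨0, 2⟩, [⟨⟨0, 0⟩, ⟨1, -1⟩, 34, 1, 1, ⟨0, 0⟩, 1, 0⟩]⟩,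
    ⟨0, -6, ⟨6, -5⟩, 6, ⟨6, 7⟩, [⟨⟨0, 0⟩, ⟨1, -1⟩, 37, 0, 1, ⟨0, 0⟩, 1, 0⟩]⟩]⟩,
  ⟨⟨1, -1⟩, 0, [
    ⟨4, -6, ⟨18, -4⟩, -6, ⟨24, -5⟩, [⟨⟨0, 0⟩, ⟨1, -1⟩, 34, 2, 1, ⟨0, 0⟩, 1, 0⟩]⟩,
    ⟨0, -6, ⟨18, -5⟩, 6, ⟨0, 4⟩, [⟨⟨0, 0⟩, ⟨1, -1⟩, 38, 0, 1, ⟨0, 0⟩, 1, 0⟩]⟩,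
    ⟨1, 12, ⟨12, 9⟩, -6, ⟨24, -6⟩, [⟨⟨0, 0⟩, ⟨1, -1⟩, 37, 2, 1, ⟨0, 0⟩, 1, 0⟩]⟩]⟩,
  ⟨⟨1, -1⟩, 0, [
    ⟨1, 6, ⟨18, 5⟩, -6, ⟨24, -5⟩, [⟨⟨0, 0⟩, ⟨1, -1⟩, 35, 2, 1, ⟨0, 0⟩, 1, 0⟩]⟩,
    ⟨0, 6, ⟨18, 4⟩, 6, ⟨6, 8⟩, [⟨⟨0, 0⟩, ⟨1, -1⟩, 39, 0, 1, ⟨0, 0⟩, 1, 0⟩]⟩,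
    ⟨4, -12, ⟨12, -9⟩, -6, ⟨24, -6⟩, [⟨⟨0, 0⟩, ⟨1, -1⟩, 36, 2, 1, ⟨0, 0⟩, 1, 0⟩]⟩]⟩,
  ⟨⟨1, -1⟩, 0, [
    ⟨1, 6, ⟨6, 5⟩, -6, ⟨24, -7⟩, [⟨⟨0, 0⟩, ⟨1, -1⟩, 36, 1, 1, ⟨0, 0⟩, 1, 0⟩]⟩,
    ⟨0, -12, ⟨12, -12⟩, 6, ⟨0, 5⟩, [⟨⟨0, 0⟩, ⟨1, -1⟩, 39, 1, 1, ⟨0, 0⟩, 1, 0⟩]⟩,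
    ⟨0, 6, ⟨6, 7⟩, 6, ⟨6, 10⟩, [⟨⟨0, 0⟩, ⟨1, -1⟩, 32, 0, 1, ⟨0, 1⟩, 1, 0⟩]⟩]⟩,
  ⟨⟨1, -1⟩, 0, [
    ⟨4, -6, ⟨6, -4⟩, -6, ⟨24, -7⟩, [⟨⟨0, 0⟩, ⟨1, -1⟩, 37, 1, 1, ⟨0, 0⟩, 1, 0⟩]⟩,
    ⟨0, 12, ⟨12, 12⟩, 6, ⟨6, 9⟩, [⟨⟨0, 0⟩, ⟨1, -1⟩, 38, 1, 1, ⟨0, 0⟩, 1, 0⟩]⟩,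
    ⟨0, -6, ⟨6, -8⟩, 6, ⟨0, 6⟩, [⟨⟨0, 0⟩, ⟨1, -1⟩, 33, 0, 1, ⟨0, 1⟩, 1, 0⟩]⟩]⟩,
  ⟨⟨1, 0⟩, 0, [
    ⟨2, -6, ⟨18, -1⟩, -6, ⟨24, -2⟩, [⟨⟨0, 0⟩, ⟨0, 1⟩, 50, 1, 0, ⟨0, 0⟩, 1, 1⟩, ⟨⟨0, 1⟩, ⟨1, -1⟩, 46, 2, 1, ⟨0, 0⟩, 1, 0⟩]⟩,
    ⟨1, -6, ⟨18, -2⟩, 6, ⟨12, 3⟩, [⟨⟨0, 0⟩, ⟨1, -1⟩, 42, 0, 1, ⟨0, 0⟩, 1, 0⟩, ⟨⟨1, -1⟩, ⟨0, 1⟩, 71, 2, 0, ⟨0, 0⟩, 1, 0⟩]⟩,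
    ⟨5, 12, ⟨12, 3⟩, -6, ⟨12, -7⟩, [⟨⟨0, 0⟩, ⟨1, 0⟩, 41, 2, 1, ⟨0, 0⟩, 1, 0⟩]⟩]⟩,
  ⟨⟨1, 0⟩, 0, [
    ⟨5, 6, ⟨18, 2⟩, -6, ⟨12, -6⟩, [⟨⟨0, 0⟩, ⟨0, 1⟩, 49, 1, 0, ⟨0, 0⟩, 1, 0⟩, ⟨⟨0, 1⟩, ⟨1, -1⟩, 47, 2, 1, ⟨0, 0⟩, 1, 0⟩]⟩,
    ⟨1, 6, ⟨18, 1⟩, 6, ⟨0, 1⟩, [⟨⟨0, 0⟩, ⟨1, -1⟩, 43, 0, 1, ⟨0, 0⟩, 1, 0⟩, ⟨⟨1, -1⟩, ⟨0, 1⟩, 61, 1, 0, ⟨0, 0⟩, 1, 0⟩]⟩,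
    ⟨2, -12, ⟨12, -3⟩, -6, ⟨24, -3⟩, [⟨⟨0, 0⟩, ⟨1, 0⟩, 40, 2, 1, ⟨0, 0⟩, 1, 0⟩]⟩]⟩,
  ⟨⟨1, -1⟩, 0, [
    ⟨5, 6, ⟨6, 2⟩, -6, ⟨12, -8⟩, [⟨⟨0, 0⟩, ⟨1, -1⟩, 40, 1, 1, ⟨0, 0⟩, 1, 0⟩]⟩,
    ⟨1, -12, ⟨12, -6⟩, 6, ⟨12, 4⟩, [⟨⟨0, 0⟩, ⟨1, -1⟩, 43, 1, 1, ⟨0, 0⟩, 1, 0⟩]⟩,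
    ⟨1, 6, ⟨6, 4⟩, 6, ⟨0, 3⟩, [⟨⟨0, 0⟩, ⟨1, -1⟩, 44, 0, 1, ⟨0, 0⟩, 1, 0⟩]⟩]⟩,
  ⟨⟨1, -1⟩, 0, [
    ⟨2, -6, ⟨6, -1⟩, -6, ⟨24, -4⟩, [⟨⟨0, 0⟩, ⟨1, -1⟩, 41, 1, 1, ⟨0, 0⟩, 1, 0⟩]⟩,
    ⟨1, 12, ⟨12, 6⟩, 6, ⟨0, 2⟩, [⟨⟨0, 0⟩, ⟨1, -1⟩, 42, 1, 1, ⟨0, 0⟩, 1, 0⟩]⟩,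
    ⟨1, -6, ⟨6, -5⟩, 6, ⟨12, 5⟩, [⟨⟨0, 0⟩, ⟨1, -1⟩, 45, 0, 1, ⟨0, 0⟩, 1, 0⟩]⟩]⟩,
  ⟨⟨1, -1⟩, 0, [
    ⟨5, -6, ⟨18, -4⟩, -6, ⟨12, -9⟩, [⟨⟨0, 0⟩, ⟨1, -1⟩, 42, 2, 1, ⟨0, 0⟩, 1, 0⟩]⟩,
    ⟨1, -6, ⟨18, -5⟩, 6, ⟨0, 4⟩, [⟨⟨0, 0⟩, ⟨1, -1⟩, 46, 0, 1, ⟨0, 0⟩, 1, 0⟩]⟩,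
    ⟨2, 12, ⟨12, 9⟩, -6, ⟨24, -6⟩, [⟨⟨0, 0⟩, ⟨1, -1⟩, 45, 2, 1, ⟨0, 0⟩, 1, 0⟩]⟩]⟩,
  ⟨⟨1, -1⟩, 0, [
    ⟨2, 6, ⟨18, 5⟩, -6, ⟨24, -5⟩, [⟨⟨0, 0⟩, ⟨1, -1⟩, 43, 2, 1, ⟨0, 0⟩, 1, 0⟩]⟩,
    ⟨1, 6, ⟨18, 4⟩, 6, ⟨12, 6⟩, [⟨⟨0, 0⟩, ⟨1, -1⟩, 47, 0, 1, ⟨0, 0⟩, 1, 0⟩]⟩,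
    ⟨5, -12, ⟨12, -9⟩, -6, ⟨12, -10⟩, [⟨⟨0, 0⟩, ⟨1, -1⟩, 44, 2, 1, ⟨0, 0⟩, 1, 0⟩]⟩]⟩,
  ⟨⟨1, -1⟩, 0, [
    ⟨2, 6, ⟨6, 5⟩, -6, ⟨24, -7⟩, [⟨⟨0, 0⟩, ⟨1, -1⟩, 44, 1, 1, ⟨0, 0⟩, 1, 0⟩]⟩,
    ⟨1, -12, ⟨12, -12⟩, 6, ⟨0, 5⟩, [⟨⟨0, 0⟩, ⟨1, -1⟩, 47, 1, 1, ⟨0, 0⟩, 1, 0⟩]⟩,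
    ⟨1, 6, ⟨6, 7⟩, 6, ⟨12, 8⟩, [⟨⟨0, 0⟩, ⟨1, -1⟩, 40, 0, 1, ⟨0, 1⟩, 1, 0⟩]⟩]⟩,
  ⟨⟨1, -1⟩, 0, [
    ⟨5, -6, ⟨6, -4⟩, -6, ⟨12, -11⟩, [⟨⟨0, 0⟩, ⟨1, -1⟩, 45, 1, 1, ⟨0, 0⟩, 1, 0⟩]⟩,
    ⟨1, 12, ⟨12, 12⟩, 6, ⟨12, 7⟩, [⟨⟨0, 0⟩, ⟨1, -1⟩, 46, 1, 1, ⟨0, 0⟩, 1, 0⟩]⟩,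
    ⟨1, -6, ⟨6, -8⟩, 6, ⟨0, 6⟩, [⟨⟨0, 0⟩, ⟨1, -1⟩, 41, 0, 1, ⟨0, 1⟩, 1, 0⟩]⟩]⟩,
  ⟨⟨0, 1⟩, 0, [
    ⟨0, 0, ⟨6, -2⟩, 0, ⟨0, 0⟩, [⟨⟨0, 0⟩, ⟨0, 1⟩, 33, 0, 0, ⟨0, 0⟩, 1, 0⟩]⟩,
    ⟨4, 0, ⟨12, 1⟩, 0, ⟨0, 0⟩, [⟨⟨0, 0⟩, ⟨0, 1⟩, 81, 2, 0, ⟨0, 0⟩, 1, 0⟩]⟩,
    ⟨5, 0, ⟨6, 1⟩, 0, ⟨0, 0⟩, [⟨⟨0, 0⟩, ⟨0, 1⟩, 24, 0, 0, ⟨0, 0⟩, 1, 0⟩]⟩]⟩,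
  ⟨⟨0, 1⟩, 0, [
    ⟨0, 0, ⟨6, 1⟩, 0, ⟨6, 4⟩, [⟨⟨0, 0⟩, ⟨0, 1⟩, 32, 0, 0, ⟨0, 0⟩, 1, 0⟩]⟩,
    ⟨1, 0, ⟨6, -2⟩, 0, ⟨0, 0⟩, [⟨⟨0, 0⟩, ⟨0, 1⟩, 41, 0, 0, ⟨0, 0⟩, 1, 0⟩]⟩,
    ⟨5, 0, ⟨12, 1⟩, 0, ⟨12, -5⟩, [⟨⟨0, 0⟩, ⟨0, 1⟩, 76, 0, 0, ⟨0, 0⟩, 1, 0⟩]⟩]⟩,
  ⟨⟨0, 1⟩, 0, [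
    ⟨0, 0, ⟨12, 1⟩, 0, ⟨18, 0⟩, [⟨⟨0, 0⟩, ⟨0, 1⟩, 78, 2, 0, ⟨0, 0⟩, 1, 0⟩]⟩,
    ⟨1, 0, ⟨6, 1⟩, 0, ⟨12, 2⟩, [⟨⟨0, 0⟩, ⟨0, 1⟩, 40, 0, 0, ⟨0, 0⟩, 1, 0⟩]⟩,
    ⟨2, 0, ⟨6, -2⟩, 0, ⟨0, 0⟩, [⟨⟨0, 0⟩, ⟨0, 1⟩, 1, 0, 0, ⟨0, 0⟩, 1, 0⟩]⟩]⟩,
  ⟨⟨0, 1⟩, 0, [
    ⟨1, 0, ⟨12, 1⟩, 0, ⟨12, -6⟩, [⟨⟨0, 0⟩, ⟨0, 1⟩, 70, 2, 0, ⟨0, 0⟩, 1, 0⟩]⟩,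
    ⟨2, 0, ⟨6, 1⟩, 0, ⟨12, -4⟩, [⟨⟨0, 0⟩, ⟨0, 1⟩, 0, 0, 0, ⟨0, 0⟩, 1, 0⟩]⟩,
    ⟨3, 0, ⟨6, -2⟩, 0, ⟨0, 0⟩, [⟨⟨0, 0⟩, ⟨0, 1⟩, 9, 0, 0, ⟨0, 0⟩, 1, 0⟩]⟩]⟩,
  ⟨⟨0, 1⟩, 0, [
    ⟨2, 0, ⟨12, 1⟩, 0, ⟨12, -6⟩, [⟨⟨0, 0⟩, ⟨0, 1⟩, 70, 1, 0, ⟨0, 0⟩, 1, 0⟩]⟩,
    ⟨3, 0, ⟨6, 1⟩, 0, ⟨6, -2⟩, [⟨⟨0, 0⟩, ⟨0, 1⟩, 8, 0, 0, ⟨0, 0⟩, 1, 0⟩]⟩,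
    ⟨4, 0, ⟨6, -2⟩, 0, ⟨12, 4⟩, [⟨⟨0, 0⟩, ⟨0, 1⟩, 17, 0, 0, ⟨0, 0⟩, 1, 0⟩]⟩]⟩,
  ⟨⟨0, 1⟩, 0, [
    ⟨3, 0, ⟨12, 1⟩, 0, ⟨18, -1⟩, [⟨⟨0, 0⟩, ⟨0, 1⟩, 80, 2, 0, ⟨0, 0⟩, 1, 0⟩]⟩,
    ⟨4, 0, ⟨6, 1⟩, 0, ⟨0, 6⟩, [⟨⟨0, 0⟩, ⟨0, 1⟩, 16, 0, 0, ⟨0, 0⟩, 1, 0⟩]⟩,
    ⟨5, 0, ⟨6, -2⟩, 0, ⟨18, -2⟩, [⟨⟨0, 0⟩, ⟨0, 1⟩, 25, 0, 0, ⟨0, 0⟩, 1, 0⟩]⟩]⟩,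
  ⟨⟨0, 1⟩, 0, [
    ⟨0, 0, ⟨0, 6⟩, 0, ⟨6, -1⟩, [⟨⟨0, 0⟩, ⟨0, 1⟩, 60, 2, 0, ⟨0, 0⟩, 1, 0⟩]⟩,
    ⟨0, 0, ⟨24, -3⟩, 0, ⟨6, -3⟩, [⟨⟨0, 0⟩, ⟨0, 1⟩, 74, 2, 0, ⟨0, 0⟩, 1, 0⟩]⟩,
    ⟨3, 0, ⟨24, -3⟩, 0, ⟨12, 0⟩, [⟨⟨0, 0⟩, ⟨0, 1⟩, 74, 0, 0, ⟨0, 0⟩, 1, 0⟩]⟩]⟩,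
  ⟨⟨0, 1⟩, 0, [
    ⟨3, 0, ⟨0, 6⟩, 0, ⟨12, -2⟩, [⟨⟨0, 0⟩, ⟨0, 1⟩, 74, 1, 0, ⟨0, 0⟩, 1, 0⟩]⟩,
    ⟨3, 0, ⟨12, -4⟩, 0, ⟨12, 2⟩, [⟨⟨0, 0⟩, ⟨0, 1⟩, 24, 1, 0, ⟨1, -1⟩, 1, 0⟩]⟩,
    ⟨5, 0, ⟨12, -2⟩, 0, ⟨6, -4⟩, [⟨⟨0, 0⟩, ⟨0, 1⟩, 79, 1, 0, ⟨0, 0⟩, 1, 0⟩]⟩]⟩,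
  ⟨⟨0, 1⟩, 0, [
    ⟨2, 0, ⟨24, -3⟩, 0, ⟨18, -3⟩, [⟨⟨0, 0⟩, ⟨0, 1⟩, 76, 1, 0, ⟨0, 0⟩, 1, 0⟩]⟩,
    ⟨5, 0, ⟨0, 6⟩, 0, ⟨12, -3⟩, [⟨⟨0, 0⟩, ⟨0, 1⟩, 59, 1, 0, ⟨0, 0⟩, 1, 0⟩]⟩,
    ⟨5, 0, ⟨24, -3⟩, 0, ⟨24, -5⟩, [⟨⟨0, 0⟩, ⟨0, 1⟩, 64, 0, 0, ⟨0, 0⟩, 1, 0⟩]⟩]⟩,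
  ⟨⟨0, 1⟩, 0, [
    ⟨2, 0, ⟨0, 6⟩, 0, ⟨18, -7⟩, [⟨⟨0, 0⟩, ⟨0, 1⟩, 65, 2, 0, ⟨0, 0⟩, 1, 0⟩]⟩,
    ⟨2, 0, ⟨12, -4⟩, 0, ⟨6, -3⟩, [⟨⟨0, 0⟩, ⟨0, 1⟩, 16, 1, 0, ⟨1, -1⟩, 1, 0⟩]⟩,
    ⟨4, 0, ⟨12, -2⟩, 0, ⟨6, 2⟩, [⟨⟨0, 0⟩, ⟨0, 1⟩, 62, 1, 0, ⟨0, 0⟩, 1, 0⟩]⟩]⟩,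
  ⟨⟨0, 1⟩, 0, [
    ⟨0, 0, ⟨12, -2⟩, 0, ⟨12, 0⟩, [⟨⟨0, 0⟩, ⟨0, 1⟩, 68, 2, 0, ⟨0, 0⟩, 1, 0⟩]⟩,
    ⟨4, 0, ⟨0, 6⟩, 0, ⟨6, 5⟩, [⟨⟨0, 0⟩, ⟨0, 1⟩, 66, 1, 0, ⟨0, 0⟩, 1, 0⟩]⟩,
    ⟨4, 0, ⟨12, -4⟩, 0, ⟨18, 2⟩, [⟨⟨0, 0⟩, ⟨0, 1⟩, 32, 1, 0, ⟨1, -1⟩, 1, 0⟩]⟩]⟩,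
  ⟨⟨0, 1⟩, 0, [
    ⟨0, 0, ⟨0, 5⟩, 0, ⟨18, 2⟩, [⟨⟨0, 0⟩, ⟨0, 1⟩, 25, 1, 0, ⟨1, -1⟩, 1, 0⟩]⟩,
    ⟨5, 0, ⟨24, -6⟩, 0, ⟨24, -6⟩, [⟨⟨0, 0⟩, ⟨0, 1⟩, 56, 1, 0, ⟨0, 0⟩, 1, 0⟩]⟩,
    ⟨5, 0, ⟨0, 1⟩, 0, ⟨12, -2⟩, [⟨⟨0, 0⟩, ⟨0, 1⟩, 78, 0, 0, ⟨0, 0⟩, 1, 0⟩]⟩]⟩,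
  ⟨⟨0, 1⟩, 0, [
    ⟨0, 0, ⟨0, 1⟩, 0, ⟨6, 0⟩, [⟨⟨0, 0⟩, ⟨0, 1⟩, 75, 2, 0, ⟨0, 0⟩, 1, 0⟩]⟩,
    ⟨1, 0, ⟨0, 5⟩, 0, ⟨18, 2⟩, [⟨⟨0, 0⟩, ⟨0, 1⟩, 33, 1, 0, ⟨1, -1⟩, 1, 0⟩]⟩,
    ⟨0, 0, ⟨24, -6⟩, 0, ⟨6, -4⟩, [⟨⟨0, 0⟩, ⟨0, 1⟩, 54, 0, 0, ⟨0, 0⟩, 1, 0⟩]⟩]⟩,
  ⟨⟨0, 1⟩, 0, [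
    ⟨1, 0, ⟨0, 1⟩, 0, ⟨18, 0⟩, [⟨⟨0, 0⟩, ⟨0, 1⟩, 75, 1, 0, ⟨0, 0⟩, 1, 0⟩]⟩,
    ⟨2, 0, ⟨0, 5⟩, 0, ⟨18, 2⟩, [⟨⟨0, 0⟩, ⟨0, 1⟩, 41, 1, 0, ⟨1, -1⟩, 1, 0⟩]⟩,
    ⟨1, 0, ⟨24, -6⟩, 0, ⟨6, -4⟩, [⟨⟨0, 0⟩, ⟨0, 1⟩, 69, 0, 0, ⟨0, 0⟩, 1, 0⟩]⟩]⟩,
  ⟨⟨0, 1⟩, 0, [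
    ⟨0, 0, ⟨12, -4⟩, 0, ⟨12, 3⟩, [⟨⟨0, 0⟩, ⟨0, 1⟩, 0, 1, 0, ⟨1, -1⟩, 1, 0⟩]⟩,
    ⟨2, 0, ⟨12, 2⟩, 0, ⟨18, -8⟩, [⟨⟨0, 0⟩, ⟨0, 1⟩, 57, 2, 0, ⟨0, 0⟩, 1, 0⟩]⟩,
    ⟨4, 0, ⟨0, 2⟩, 0, ⟨6, 3⟩, [⟨⟨0, 0⟩, ⟨0, 1⟩, 68, 1, 0, ⟨0, 0⟩, 1, 0⟩]⟩]⟩,
  ⟨⟨0, 1⟩, 0, [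
    ⟨2, 0, ⟨0, 2⟩, 0, ⟨18, -5⟩, [⟨⟨0, 0⟩, ⟨0, 1⟩, 64, 2, 0, ⟨0, 0⟩, 1, 0⟩]⟩,
    ⟨4, 0, ⟨24, -1⟩, 0, ⟨0, 3⟩, [⟨⟨0, 0⟩, ⟨0, 1⟩, 80, 0, 0, ⟨0, 0⟩, 1, 0⟩]⟩,
    ⟨3, 0, ⟨24, -1⟩, 0, ⟨18, 1⟩, [⟨⟨0, 0⟩, ⟨0, 1⟩, 65, 0, 0, ⟨0, 0⟩, 1, 0⟩]⟩]⟩,
  ⟨⟨0, 1⟩, 0, [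
    ⟨2, 0, ⟨0, 3⟩, 0, ⟨18, -4⟩, [⟨⟨0, 0⟩, ⟨0, 1⟩, 56, 2, 0, ⟨0, 0⟩, 1, 0⟩]⟩,
    ⟨5, 0, ⟨24, -1⟩, 0, ⟨24, -4⟩, [⟨⟨0, 0⟩, ⟨0, 1⟩, 81, 0, 0, ⟨0, 0⟩, 1, 0⟩]⟩,
    ⟨4, 0, ⟨24, -2⟩, 0, ⟨0, 2⟩, [⟨⟨0, 0⟩, ⟨0, 1⟩, 63, 0, 0, ⟨0, 0⟩, 1, 0⟩]⟩]⟩,
  ⟨⟨0, 1⟩, 0, [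
    ⟨2, 0, ⟨0, 1⟩, 0, ⟨18, -6⟩, [⟨⟨0, 0⟩, ⟨0, 1⟩, 63, 2, 0, ⟨0, 0⟩, 1, 0⟩]⟩,
    ⟨3, 0, ⟨0, 5⟩, 0, ⟨18, 2⟩, [⟨⟨0, 0⟩, ⟨0, 1⟩, 1, 1, 0, ⟨1, -1⟩, 1, 0⟩]⟩,
    ⟨2, 0, ⟨24, -6⟩, 0, ⟨6, -4⟩, [⟨⟨0, 0⟩, ⟨0, 1⟩, 57, 0, 0, ⟨0, 0⟩, 1, 0⟩]⟩]⟩,
  ⟨⟨0, 1⟩, 0, [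
    ⟨1, 0, ⟨0, 3⟩, 0, ⟨12, -3⟩, [⟨⟨0, 0⟩, ⟨0, 1⟩, 67, 2, 0, ⟨0, 0⟩, 1, 0⟩]⟩,
    ⟨4, 0, ⟨24, -6⟩, 0, ⟨18, 1⟩, [⟨⟨0, 0⟩, ⟨0, 1⟩, 58, 1, 0, ⟨0, 0⟩, 1, 0⟩]⟩,
    ⟨4, 0, ⟨0, 3⟩, 0, ⟨6, 6⟩, [⟨⟨0, 0⟩, ⟨0, 1⟩, 73, 0, 0, ⟨0, 0⟩, 1, 0⟩]⟩]⟩,
  ⟨⟨0, 1⟩, 0, [
    ⟨1, 0, ⟨24, -2⟩, 0, ⟨12, -2⟩, [⟨⟨0, 0⟩, ⟨0, 1⟩, 72, 1, 0, ⟨0, 0⟩, 1, 0⟩]⟩,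
    ⟨5, 0, ⟨0, 5⟩, 0, ⟨12, 1⟩, [⟨⟨0, 0⟩, ⟨0, 1⟩, 17, 1, 0, ⟨1, -1⟩, 1, 0⟩]⟩,
    ⟨4, 0, ⟨24, -3⟩, 0, ⟨18, 0⟩, [⟨⟨0, 0⟩, ⟨0, 1⟩, 66, 0, 0, ⟨0, 0⟩, 1, 0⟩]⟩]⟩,
  ⟨⟨0, 1⟩, 0, [
    ⟨0, 0, ⟨12, 0⟩, 0, ⟨12, 1⟩, [⟨⟨0, 0⟩, ⟨0, 1⟩, 68, 0, 0, ⟨0, 0⟩, 1, 0⟩]⟩,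
    ⟨0, 0, ⟨24, -2⟩, 0, ⟨12, 2⟩, [⟨⟨0, 0⟩, ⟨0, 1⟩, 62, 2, 0, ⟨0, 0⟩, 1, 0⟩]⟩,
    ⟨4, 0, ⟨12, 2⟩, 0, ⟨6, 4⟩, [⟨⟨0, 0⟩, ⟨0, 1⟩, 58, 0, 0, ⟨0, 0⟩, 1, 0⟩]⟩]⟩,
  ⟨⟨0, 1⟩, 0, [
    ⟨1, 0, ⟨0, 6⟩, 0, ⟨18, -1⟩, [⟨⟨0, 0⟩, ⟨0, 1⟩, 61, 2, 0, ⟨0, 0⟩, 1, 0⟩]⟩,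
    ⟨1, 0, ⟨12, -4⟩, 0, ⟨6, -3⟩, [⟨⟨0, 0⟩, ⟨0, 1⟩, 8, 1, 0, ⟨1, -1⟩, 1, 0⟩]⟩,
    ⟨3, 0, ⟨12, -2⟩, 0, ⟨12, -6⟩, [⟨⟨0, 0⟩, ⟨0, 1⟩, 71, 0, 0, ⟨0, 0⟩, 1, 0⟩]⟩]⟩,
  ⟨⟨0, 1⟩, 0, [
    ⟨1, 0, ⟨0, 2⟩, 0, ⟨12, -5⟩, [⟨⟨0, 0⟩, ⟨0, 1⟩, 73, 2, 0, ⟨0, 0⟩, 1, 0⟩]⟩,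
    ⟨3, 0, ⟨12, -1⟩, 0, ⟨6, -3⟩, [⟨⟨0, 0⟩, ⟨0, 1⟩, 52, 0, 0, ⟨0, 0⟩, 1, 0⟩]⟩,
    ⟨2, 0, ⟨12, -1⟩, 0, ⟨12, -5⟩, [⟨⟨0, 0⟩, ⟨0, 1⟩, 51, 0, 0, ⟨0, 0⟩, 1, 0⟩]⟩]⟩,
  ⟨⟨0, 1⟩, 0, [
    ⟨1, 0, ⟨12, 2⟩, 0, ⟨18, -2⟩, [⟨⟨0, 0⟩, ⟨0, 1⟩, 69, 2, 0, ⟨0, 0⟩, 1, 0⟩]⟩,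
    ⟨3, 0, ⟨0, 2⟩, 0, ⟨12, -5⟩, [⟨⟨0, 0⟩, ⟨0, 1⟩, 79, 2, 0, ⟨0, 0⟩, 1, 0⟩]⟩,
    ⟨5, 0, ⟨12, -4⟩, 0, ⟨6, -2⟩, [⟨⟨0, 0⟩, ⟨0, 1⟩, 40, 1, 0, ⟨1, -1⟩, 1, 0⟩]⟩]⟩,
  ⟨⟨0, 1⟩, 0, [
    ⟨1, 0, ⟨12, -2⟩, 0, ⟨12, 0⟩, [⟨⟨0, 0⟩, ⟨0, 1⟩, 78, 1, 0, ⟨0, 0⟩, 1, 0⟩]⟩,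
    ⟨5, 0, ⟨0, 2⟩, 0, ⟨12, 0⟩, [⟨⟨0, 0⟩, ⟨0, 1⟩, 67, 0, 0, ⟨0, 0⟩, 1, 0⟩]⟩,
    ⟨1, 0, ⟨12, 0⟩, 0, ⟨12, -1⟩, [⟨⟨0, 0⟩, ⟨0, 1⟩, 72, 2, 0, ⟨0, 0⟩, 1, 0⟩]⟩]⟩,
  ⟨⟨0, 1⟩, 0, [
    ⟨1, 0, ⟨24, -3⟩, 0, ⟨12, -4⟩, [⟨⟨0, 0⟩, ⟨0, 1⟩, 66, 2, 0, ⟨0, 0⟩, 1, 0⟩]⟩,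
    ⟨4, 0, ⟨0, 5⟩, 0, ⟨6, 7⟩, [⟨⟨0, 0⟩, ⟨0, 1⟩, 9, 1, 0, ⟨1, -1⟩, 1, 0⟩]⟩,
    ⟨3, 0, ⟨24, -2⟩, 0, ⟨6, -4⟩, [⟨⟨0, 0⟩, ⟨0, 1⟩, 70, 0, 0, ⟨0, 0⟩, 1, 0⟩]⟩]⟩,
  ⟨⟨0, 1⟩, 0, [
    ⟨0, 0, ⟨0, 3⟩, 0, ⟨6, -2⟩, [⟨⟨0, 0⟩, ⟨0, 1⟩, 54, 2, 0, ⟨0, 0⟩, 1, 0⟩]⟩,
    ⟨3, 0, ⟨24, -6⟩, 0, ⟨12, 1⟩, [⟨⟨0, 0⟩, ⟨0, 1⟩, 55, 0, 0, ⟨0, 0⟩, 1, 0⟩]⟩,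
    ⟨3, 0, ⟨0, 3⟩, 0, ⟨12, -1⟩, [⟨⟨0, 0⟩, ⟨0, 1⟩, 54, 1, 0, ⟨0, 0⟩, 1, 0⟩]⟩]⟩,
  ⟨⟨0, 1⟩, 0, [
    ⟨0, 0, ⟨0, 2⟩, 0, ⟨6, 1⟩, [⟨⟨0, 0⟩, ⟨0, 1⟩, 77, 2, 0, ⟨0, 0⟩, 1, 0⟩]⟩,
    ⟨2, 0, ⟨24, -1⟩, 0, ⟨18, 1⟩, [⟨⟨0, 0⟩, ⟨0, 1⟩, 61, 0, 0, ⟨0, 0⟩, 1, 0⟩]⟩,
    ⟨1, 0, ⟨24, -1⟩, 0, ⟨18, 1⟩, [⟨⟨0, 0⟩, ⟨0, 1⟩, 60, 0, 0, ⟨0, 0⟩, 1, 0⟩]⟩]⟩,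
  ⟨⟨0, 1⟩, 0, [
    ⟨0, 0, ⟨12, -1⟩, 0, ⟨6, 3⟩, [⟨⟨0, 0⟩, ⟨0, 1⟩, 49, 2, 0, ⟨0, 0⟩, 1, 0⟩]⟩,
    ⟨5, 0, ⟨0, 3⟩, 0, ⟨12, -4⟩, [⟨⟨0, 0⟩, ⟨0, 1⟩, 56, 0, 0, ⟨0, 0⟩, 1, 0⟩]⟩,
    ⟨2, 0, ⟨12, -2⟩, 0, ⟨18, -2⟩, [⟨⟨0, 0⟩, ⟨0, 1⟩, 77, 0, 0, ⟨0, 0⟩, 1, 0⟩]⟩]⟩,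
  ⟨⟨0, 1⟩, 0, [
    ⟨0, 0, ⟨12, 2⟩, 0, ⟨6, 2⟩, [⟨⟨0, 0⟩, ⟨0, 1⟩, 76, 2, 0, ⟨0, 0⟩, 1, 0⟩]⟩,
    ⟨2, 0, ⟨12, 0⟩, 0, ⟨18, -1⟩, [⟨⟨0, 0⟩, ⟨0, 1⟩, 77, 1, 0, ⟨0, 0⟩, 1, 0⟩]⟩,
    ⟨2, 0, ⟨24, -2⟩, 0, ⟨18, 0⟩, [⟨⟨0, 0⟩, ⟨0, 1⟩, 75, 0, 0, ⟨0, 0⟩, 1, 0⟩]⟩]⟩,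
  ⟨⟨0, 1⟩, 0, [
    ⟨0, 0, ⟨24, -1⟩, 0, ⟨18, 1⟩, [⟨⟨0, 0⟩, ⟨0, 1⟩, 59, 2, 0, ⟨0, 0⟩, 1, 0⟩]⟩,
    ⟨5, 0, ⟨12, 2⟩, 0, ⟨12, -1⟩, [⟨⟨0, 0⟩, ⟨0, 1⟩, 72, 0, 0, ⟨0, 0⟩, 1, 0⟩]⟩,
    ⟨1, 0, ⟨12, -1⟩, 0, ⟨12, 1⟩, [⟨⟨0, 0⟩, ⟨0, 1⟩, 50, 0, 0, ⟨0, 0⟩, 1, 0⟩]⟩]⟩,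
  ⟨⟨0, 1⟩, 0, [
    ⟨3, 0, ⟨12, 0⟩, 0, ⟨12, -4⟩, [⟨⟨0, 0⟩, ⟨0, 1⟩, 79, 0, 0, ⟨0, 0⟩, 1, 0⟩]⟩,
    ⟨3, 0, ⟨12, 2⟩, 0, ⟨12, -3⟩, [⟨⟨0, 0⟩, ⟨0, 1⟩, 55, 2, 0, ⟨0, 0⟩, 1, 0⟩]⟩,
    ⟨5, 0, ⟨24, -2⟩, 0, ⟨6, -3⟩, [⟨⟨0, 0⟩, ⟨0, 1⟩, 71, 1, 0, ⟨0, 0⟩, 1, 0⟩]⟩]⟩,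
  ⟨⟨0, 1⟩, 0, [
    ⟨3, 0, ⟨0, 1⟩, 0, ⟨18, 0⟩, [⟨⟨0, 0⟩, ⟨0, 1⟩, 63, 1, 0, ⟨0, 0⟩, 1, 0⟩]⟩,
    ⟨4, 0, ⟨12, 0⟩, 0, ⟨0, 4⟩, [⟨⟨0, 0⟩, ⟨0, 1⟩, 80, 1, 0, ⟨0, 0⟩, 1, 0⟩]⟩,
    ⟨4, 0, ⟨12, -1⟩, 0, ⟨0, 5⟩, [⟨⟨0, 0⟩, ⟨0, 1⟩, 53, 0, 0, ⟨0, 0⟩, 1, 0⟩]⟩]⟩,
  ⟨⟨0, 1⟩, 0, [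
    ⟨4, 0, ⟨0, 1⟩, 0, ⟨0, 1⟩, [⟨⟨0, 0⟩, ⟨0, 1⟩, 64, 1, 0, ⟨0, 0⟩, 1, 0⟩]⟩,
    ⟨5, 0, ⟨12, 0⟩, 0, ⟨24, -3⟩, [⟨⟨0, 0⟩, ⟨0, 1⟩, 81, 1, 0, ⟨0, 0⟩, 1, 0⟩]⟩,
    ⟨5, 0, ⟨12, -1⟩, 0, ⟨24, -2⟩, [⟨⟨0, 0⟩, ⟨0, 1⟩, 48, 1, 0, ⟨0, 0⟩, 1, 1⟩]⟩]⟩]
  tracks := [
  [⟨⟨0, 1⟩, ⟨24, 0⟩, 12, [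
      ⟨12, ⟨0, 6⟩, ⟨24, 6⟩, [(54, 0), (34, 1), (35, 1), (60, 2)]⟩,
      ⟨12, ⟨0, 12⟩, ⟨24, 0⟩, [(38, 1), (68, 0), (39, 1)]⟩]⟩],
  [⟨⟨0, 1⟩, ⟨24, 0⟩, 6, [
      ⟨6, ⟨0, 1⟩, ⟨24, 1⟩, [(60, 0), (35, 2), (49, 0), (38, 2), (50, 0), (36, 1), (33, 1)]⟩]⟩],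
  [⟨⟨0, 1⟩, ⟨24, 0⟩, 6, [
      ⟨6, ⟨0, 2⟩, ⟨24, 2⟩, [(75, 0), (7, 0), (2, 0), (62, 0), (77, 0), (4, 0), (1, 0)]⟩]⟩],
  [⟨⟨0, 1⟩, ⟨24, 0⟩, 12, [
      ⟨12, ⟨0, 3⟩, ⟨24, 3⟩, [(74, 0), (5, 2), (0, 2)]⟩,
      ⟨12, ⟨0, 9⟩, ⟨24, 9⟩, [(25, 2), (28, 2), (54, 1)]⟩]⟩],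
  [⟨⟨0, 1⟩, ⟨24, 0⟩, 6, [
      ⟨6, ⟨0, 4⟩, ⟨24, 4⟩, [(39, 2), (48, 0), (34, 2), (58, 0), (32, 1), (37, 1), (68, 1)]⟩]⟩],
  [⟨⟨0, 1⟩, ⟨24, 0⟩, 6, [
      ⟨6, ⟨0, 5⟩, ⟨24, 5⟩, [(59, 0), (27, 0), (30, 0), (76, 0), (24, 0), (29, 0), (78, 0)]⟩]⟩],
  [⟨⟨0, 1⟩, ⟨24, 0⟩, 12, [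
      ⟨12, ⟨0, 6⟩, ⟨24, 6⟩, [(69, 0), (42, 1), (43, 1), (61, 2)]⟩,
      ⟨12, ⟨0, 12⟩, ⟨24, 0⟩, [(46, 1), (72, 2), (47, 1)]⟩]⟩],
  [⟨⟨0, 1⟩, ⟨24, 0⟩, 6, [
      ⟨6, ⟨0, 1⟩, ⟨24, 1⟩, [(61, 0), (43, 2), (50, 1), (46, 2), (51, 0), (44, 1), (41, 1)]⟩]⟩],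
  [⟨⟨0, 1⟩, ⟨24, 0⟩, 6, [
      ⟨6, ⟨0, 2⟩, ⟨24, 2⟩, [(70, 0), (15, 0), (10, 0), (69, 1), (71, 0), (12, 0), (9, 0)]⟩]⟩],
  [⟨⟨0, 1⟩, ⟨24, 0⟩, 12, [
      ⟨12, ⟨0, 3⟩, ⟨24, 3⟩, [(66, 0), (13, 2), (8, 2)]⟩,
      ⟨12, ⟨0, 9⟩, ⟨24, 9⟩, [(33, 2), (36, 2), (73, 0)]⟩]⟩],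
  [⟨⟨0, 1⟩, ⟨24, 0⟩, 6, [
      ⟨6, ⟨0, 4⟩, ⟨24, 4⟩, [(47, 2), (49, 1), (42, 2), (72, 0), (40, 1), (45, 1), (67, 0)]⟩]⟩],
  [⟨⟨0, 1⟩, ⟨24, 0⟩, 6, [
      ⟨6, ⟨0, 5⟩, ⟨24, 5⟩, [(60, 1), (35, 0), (38, 0), (78, 2), (32, 0), (37, 0), (75, 2)]⟩]⟩],
  [⟨⟨0, 1⟩, ⟨24, 0⟩, 12, [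
      ⟨12, ⟨0, 6⟩, ⟨24, 6⟩, [(57, 0), (2, 1), (3, 1), (65, 2)]⟩,
      ⟨12, ⟨0, 12⟩, ⟨24, 0⟩, [(6, 1), (77, 1), (7, 1)]⟩]⟩],
  [⟨⟨0, 1⟩, ⟨24, 0⟩, 6, [
      ⟨6, ⟨0, 1⟩, ⟨24, 1⟩, [(65, 0), (3, 2), (51, 1), (6, 2), (52, 0), (4, 1), (1, 1)]⟩]⟩],
  [⟨⟨0, 1⟩, ⟨24, 0⟩, 6, [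
      ⟨6, ⟨0, 2⟩, ⟨24, 2⟩, [(63, 0), (23, 0), (18, 0), (57, 1), (62, 1), (20, 0), (17, 0)]⟩]⟩],
  [⟨⟨0, 1⟩, ⟨24, 0⟩, 12, [
      ⟨12, ⟨0, 3⟩, ⟨24, 3⟩, [(64, 0), (21, 2), (16, 2)]⟩,
      ⟨12, ⟨0, 9⟩, ⟨24, 9⟩, [(41, 2), (44, 2), (56, 0)]⟩]⟩],
  [⟨⟨0, 1⟩, ⟨24, 0⟩, 6, [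
      ⟨6, ⟨0, 4⟩, ⟨24, 4⟩, [(7, 2), (50, 2), (2, 2), (76, 2), (0, 1), (5, 1), (77, 2)]⟩]⟩],
  [⟨⟨0, 1⟩, ⟨24, 0⟩, 6, [
      ⟨6, ⟨0, 5⟩, ⟨24, 5⟩, [(61, 1), (43, 0), (46, 0), (70, 2), (40, 0), (45, 0), (75, 1)]⟩]⟩],
  [⟨⟨0, 1⟩, ⟨24, 0⟩, 12, [
      ⟨12, ⟨0, 6⟩, ⟨24, 6⟩, [(55, 0), (10, 1), (11, 1), (74, 1)]⟩,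
      ⟨12, ⟨0, 12⟩, ⟨24, 0⟩, [(14, 1), (79, 0), (15, 1)]⟩]⟩],
  [⟨⟨0, 1⟩, ⟨24, 0⟩, 6, [
      ⟨6, ⟨0, 1⟩, ⟨24, 1⟩, [(80, 0), (11, 2), (52, 1), (14, 2), (53, 0), (12, 1), (9, 1)]⟩]⟩],
  [⟨⟨0, 1⟩, ⟨24, 0⟩, 6, [
      ⟨6, ⟨0, 2⟩, ⟨24, 2⟩, [(71, 1), (31, 0), (26, 0), (55, 1), (79, 1), (28, 0), (25, 0)]⟩]⟩],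
  [⟨⟨0, 1⟩, ⟨24, 0⟩, 12, [
      ⟨12, ⟨0, 3⟩, ⟨24, 3⟩, [(74, 2), (29, 2), (24, 2)]⟩,
      ⟨12, ⟨0, 9⟩, ⟨24, 9⟩, [(1, 2), (4, 2), (54, 2)]⟩]⟩],
  [⟨⟨0, 1⟩, ⟨24, 0⟩, 6, [
      ⟨6, ⟨0, 4⟩, ⟨24, 4⟩, [(15, 2), (51, 2), (10, 2), (69, 2), (8, 1), (13, 1), (73, 2)]⟩]⟩],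
  [⟨⟨0, 1⟩, ⟨24, 0⟩, 6, [
      ⟨6, ⟨0, 5⟩, ⟨24, 5⟩, [(65, 1), (3, 0), (6, 0), (70, 1), (0, 0), (5, 0), (63, 2)]⟩]⟩],
  [⟨⟨0, 1⟩, ⟨24, 0⟩, 12, [
      ⟨12, ⟨0, 6⟩, ⟨24, 6⟩, [(58, 1), (18, 1), (19, 1), (66, 1)]⟩,
      ⟨12, ⟨0, 12⟩, ⟨24, 0⟩, [(22, 1), (80, 1), (23, 1)]⟩]⟩],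
  [⟨⟨0, 1⟩, ⟨24, 0⟩, 6, [
      ⟨6, ⟨0, 1⟩, ⟨24, 1⟩, [(81, 0), (19, 2), (53, 1), (22, 2), (48, 1), (20, 1), (17, 1)]⟩]⟩],
  [⟨⟨0, 1⟩, ⟨24, 0⟩, 6, [
      ⟨6, ⟨0, 2⟩, ⟨24, 2⟩, [(62, 2), (39, 0), (34, 0), (58, 2), (68, 2), (36, 0), (33, 0)]⟩]⟩],
  [⟨⟨0, 1⟩, ⟨24, 0⟩, 12, [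
      ⟨12, ⟨0, 3⟩, ⟨24, 3⟩, [(66, 2), (37, 2), (32, 2)]⟩,
      ⟨12, ⟨0, 9⟩, ⟨24, 9⟩, [(9, 2), (12, 2), (67, 2)]⟩]⟩],
  [⟨⟨0, 1⟩, ⟨24, 0⟩, 6, [
      ⟨6, ⟨0, 4⟩, ⟨24, 4⟩, [(23, 2), (52, 2), (18, 2), (57, 2), (16, 1), (21, 1), (64, 2)]⟩]⟩],
  [⟨⟨0, 1⟩, ⟨24, 0⟩, 6, [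
      ⟨6, ⟨0, 5⟩, ⟨24, 5⟩, [(73, 1), (11, 0), (14, 0), (80, 2), (8, 0), (13, 0), (63, 1)]⟩]⟩],
  [⟨⟨0, 1⟩, ⟨24, 0⟩, 12, [
      ⟨12, ⟨0, 6⟩, ⟨24, 6⟩, [(56, 1), (26, 1), (27, 1), (59, 1)]⟩,
      ⟨12, ⟨0, 12⟩, ⟨24, 0⟩, [(30, 1), (81, 1), (31, 1)]⟩]⟩],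
  [⟨⟨0, 1⟩, ⟨24, 0⟩, 6, [
      ⟨6, ⟨0, 1⟩, ⟨24, 1⟩, [(59, 2), (27, 2), (48, 2), (30, 2), (49, 2), (28, 1), (25, 1)]⟩]⟩],
  [⟨⟨0, 1⟩, ⟨24, 0⟩, 6, [
      ⟨6, ⟨0, 2⟩, ⟨24, 2⟩, [(72, 1), (47, 0), (42, 0), (71, 2), (78, 1), (44, 0), (41, 0)]⟩]⟩],
  [⟨⟨0, 1⟩, ⟨24, 0⟩, 12, [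
      ⟨12, ⟨0, 3⟩, ⟨24, 3⟩, [(76, 1), (45, 2), (40, 2)]⟩,
      ⟨12, ⟨0, 9⟩, ⟨24, 9⟩, [(17, 2), (20, 2), (56, 2)]⟩]⟩],
  [⟨⟨0, 1⟩, ⟨24, 0⟩, 6, [
      ⟨6, ⟨0, 4⟩, ⟨24, 4⟩, [(31, 2), (53, 2), (26, 2), (55, 2), (24, 1), (29, 1), (79, 2)]⟩]⟩],
  [⟨⟨0, 1⟩, ⟨24, 0⟩, 6, [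
      ⟨6, ⟨0, 5⟩, ⟨24, 5⟩, [(67, 1), (19, 0), (22, 0), (81, 2), (16, 0), (21, 0), (64, 1)]⟩]⟩]]
  vorts := [
]

theorem fam_z0e_ok : fam_z0e.OK := by decide +kernel

theorem fam_z0e_block {u : ℤ} (hu : 2 ≤ u) {N : ℕ} (hN : (N : ℤ) = 24 * u + 0) : ZBlock N :=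
  zblock_of_table fam_z0e_ok rfl hu hN

end Pd97
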