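import Mathlib
import Pool.Agent.Lib.Pd97.TabBlocks

/-!
# MP_d97cc3_co : table of the family z7
-/

namespace Pd97

open Pool.Agent.Lib.CurP.Table

def fam_z7 : Data where
  k := 1
  nf := ⟨12, 7⟩
  u₀ := 2
  J := 0
  M0 := 3
  cells := [
  ⟨⟨1, 0⟩, 0, [
    ⟨0, -3, ⟨12, 5⟩, -2, ⟨10, 3⟩, [⟨⟨0, 0⟩, ⟨0, 1⟩, 4, 0, 0, ⟨0, 0⟩, 1, 0⟩, ⟨⟨0, 1⟩, ⟨1, -1⟩, 2, 2, 1, ⟨0, 0⟩, 1, 0⟩]⟩,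
    ⟨0, 6, ⟨6, 7⟩, 4, ⟨0, 1⟩, [⟨⟨0, 0⟩, ⟨1, 0⟩, 1, 1, 1, ⟨0, 0⟩, 1, 0⟩]⟩,
    ⟨0, -3, ⟨6, 2⟩, 4, ⟨4, 4⟩, [⟨⟨0, 0⟩, ⟨1, 0⟩, 2, 0, 1, ⟨0, 0⟩, 1, 0⟩]⟩]⟩,
  ⟨⟨1, 0⟩, 0, [
    ⟨0, 3, ⟨6, 6⟩, -2, ⟨12, 5⟩, [⟨⟨0, 0⟩, ⟨0, 1⟩, 4, 2, 0, ⟨0, 0⟩, 1, 1⟩, ⟨⟨0, 1⟩, ⟨1, -1⟩, 3, 2, 1, ⟨0, 0⟩, 1, 0⟩]⟩,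
    ⟨0, -6, ⟨6, 0⟩, 4, ⟨4, 3⟩, [⟨⟨0, 0⟩, ⟨1, 0⟩, 0, 1, 1, ⟨0, 0⟩, 1, 0⟩]⟩,
    ⟨0, 3, ⟨0, 1⟩, 4, ⟨0, 2⟩, [⟨⟨0, 0⟩, ⟨1, 0⟩, 3, 0, 1, ⟨0, 0⟩, 1, 0⟩]⟩]⟩,
  ⟨⟨1, 0⟩, 0, [
    ⟨0, 3, ⟨6, 5⟩, -2, ⟨10, 2⟩, [⟨⟨0, 0⟩, ⟨1, 0⟩, 0, 2, 1, ⟨0, 0⟩, 1, 0⟩]⟩,
    ⟨0, -6, ⟨6, -3⟩, 4, ⟨4, 5⟩, [⟨⟨0, 0⟩, ⟨1, 0⟩, 3, 1, 1, ⟨0, 0⟩, 1, 0⟩]⟩,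
    ⟨0, 3, ⟨0, 5⟩, 4, ⟨0, 4⟩, [⟨⟨0, 0⟩, ⟨1, -1⟩, 0, 0, 1, ⟨0, 1⟩, 1, 0⟩, ⟨⟨1, -1⟩, ⟨0, 1⟩, 5, 2, 0, ⟨0, 0⟩, 1, 0⟩]⟩]⟩,
  ⟨⟨1, 0⟩, 0, [
    ⟨0, -3, ⟨12, 6⟩, -2, ⟨12, 4⟩, [⟨⟨0, 0⟩, ⟨1, 0⟩, 1, 2, 1, ⟨0, 0⟩, 1, 0⟩]⟩,
    ⟨0, 6, ⟨6, 10⟩, 4, ⟨0, 3⟩, [⟨⟨0, 0⟩, ⟨1, 0⟩, 2, 1, 1, ⟨0, 0⟩, 1, 0⟩]⟩,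
    ⟨0, -3, ⟨6, -2⟩, 4, ⟨4, 6⟩, [⟨⟨0, 0⟩, ⟨1, -1⟩, 1, 0, 1, ⟨0, 1⟩, 1, 0⟩, ⟨⟨1, -1⟩, ⟨0, 1⟩, 5, 1, 0, ⟨0, 0⟩, 1, 0⟩]⟩]⟩,
  ⟨⟨0, 1⟩, 0, [
    ⟨0, 0, ⟨0, 2⟩, 0, ⟨0, 0⟩, [⟨⟨0, 0⟩, ⟨0, 1⟩, 0, 0, 0, ⟨0, 0⟩, 1, 0⟩]⟩,
    ⟨0, 0, ⟨6, 4⟩, 0, ⟨10, 4⟩, [⟨⟨0, 0⟩, ⟨0, 1⟩, 5, 0, 0, ⟨0, 0⟩, 1, 0⟩]⟩,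
    ⟨0, 0, ⟨6, 1⟩, 0, ⟨4, 2⟩, [⟨⟨0, 0⟩, ⟨0, 1⟩, 1, 0, 0, ⟨0, 0⟩, 1, 0⟩]⟩]⟩,
  ⟨⟨0, 1⟩, 0, [
    ⟨0, 0, ⟨6, 3⟩, 0, ⟨4, 1⟩, [⟨⟨0, 0⟩, ⟨0, 1⟩, 4, 1, 0, ⟨0, 0⟩, 1, 0⟩]⟩,
    ⟨0, 0, ⟨9, 6⟩, 0, ⟨10, 5⟩, [⟨⟨0, 0⟩, ⟨0, 1⟩, 3, 2, 0, ⟨1, -1⟩, 1, 0⟩]⟩,
    ⟨0, 0, ⟨9, 5⟩, 0, ⟨8, 3⟩, [⟨⟨0, 0⟩, ⟨0, 1⟩, 2, 2, 0, ⟨1, -1⟩, 1, 0⟩]⟩]⟩]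
  tracks := [
  [⟨⟨0, 1⟩, ⟨6, 6⟩, 6, [
      ⟨6, ⟨0, 3⟩, ⟨6, 9⟩, [(2, 1), (5, 0)]⟩,
      ⟨6, ⟨0, 6⟩, ⟨6, 6⟩, [(1, 1)]⟩]⟩,
    ⟨⟨6, 6⟩, ⟨12, 7⟩, 6, [
      ⟨3, ⟨6, 6⟩, ⟨12, 9⟩, [(1, 0), (5, 1), (3, 0)]⟩]⟩],
  [⟨⟨0, 1⟩, ⟨6, 7⟩, 6, [
      ⟨3, ⟨0, 1⟩, ⟨6, 7⟩, [(1, 2), (3, 2), (4, 2), (4, 1)]⟩]⟩,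
    ⟨⟨6, 7⟩, ⟨12, 7⟩, 6, [
      ⟨6, ⟨6, 7⟩, ⟨12, 7⟩, [(0, 1)]⟩,
      ⟨6, ⟨6, 10⟩, ⟨12, 10⟩, [(3, 1)]⟩]⟩],
  [⟨⟨0, 1⟩, ⟨12, 7⟩, 3, [
      ⟨3, ⟨0, 2⟩, ⟨12, 8⟩, [(4, 0), (2, 2), (0, 2), (2, 0), (5, 2), (0, 0)]⟩]⟩]]
  vorts := [
]

theorem fam_z7_ok : fam_z7.OK := by decide +kernel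

theorem fam_z7_block {u : ℤ} (hu : 2 ≤ u) {N : ℕ} (hN : (N : ℤ) = 12 * u + 7) : ZBlock N :=
  zblock_of_table fam_z7_ok rfl hu hN

end Pd97
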